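import Mathlib.CategoryTheory.Category.Basic
import Mathlib.Logic.Equiv.PartialEquiv
import Mathlib.Tactic.ENatToNat
import Mathlib.Tactic.Monotonicity.Lemmas
import Mathlib.Data.Int.ConditionallyCompleteOrder
import Mathlib.Data.Int.Star
import Mathlib.Algebra.Order.Ring.Star
import Mathlib.Tactic.Bound
import Mathlib.Combinatorics.SimpleGraph.Basic
import Mathlib.Combinatorics.Enumerative.DoubleCounting
import Mathlib.Order.Partition.Finpartition
import Mathlib.Data.Rat.Star
import Mathlib.RingTheory.WittVector.IsPoly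
import Mathlib.Tactic.Polynomial.Basic
import Mathlib.Tactic.ReduceModChar

-- ======== part 0: formerly Pool.Agent.MP_1195b1_lc.Tight
section MrgPart0

/-!
# Tight sets of skew-supermodular functions

For a skew-supermodular `p` on a ground set `S` with `p X ≤ min |X| (a + b)`, the sets `F ⊆ S`
with `p X ≤ |X ∩ F| + b` and `p X ≤ |X \ F| + a` for all `X` form a generalized matroid.  We prove
the facts needed for matroid intersection, directly by uncrossing.
-/

namespace Pool.Agent.MP_1195b1_lc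

open Finset

variable {α : Type*} [DecidableEq α]

/-- Skew-supermodularity on the subsets of `S`. -/
def Skew (S : Finset α) (p : Finset α → ℤ) : Prop :=
  ∀ X ⊆ S, ∀ Y ⊆ S, p X + p Y ≤ p (X ∩ Y) + p (X ∪ Y) ∨ p X + p Y ≤ p (X \ Y) + p (Y \ X)

/-- The bound `p X ≤ min |X| k`. -/
def Bdd (S : Finset α) (p : Finset α → ℤ) (k : ℕ) : Prop :=
  ∀ X ⊆ S, p X ≤ X.card ∧ p X ≤ k

/-- The one-sided condition answered by the oracle. -/
def Low (S : Finset α) (p : Finset α → ℤ) (b : ℕ) (F : Finset α) : Prop :=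
  ∀ X ⊆ S, p X ≤ (X ∩ F).card + b

/-- Tight sets. -/
def Tight (S : Finset α) (p : Finset α → ℤ) (b : ℕ) (F X : Finset α) : Prop :=
  X ⊆ S ∧ p X = (X ∩ F).card + b

/-- Members of the generalized matroid. -/
def InQ (S : Finset α) (p : Finset α → ℤ) (a b : ℕ) (F : Finset α) : Prop :=
  F ⊆ S ∧ Low S p b F ∧ Low S p a (S \ F)

/-- Fractional version of `Low`. -/
def FLow (S : Finset α) (p : Finset α → ℤ) (b : ℕ) (x : α → ℚ) : Prop :=
  ∀ X ⊆ S, (p X : ℚ) ≤ ∑ s ∈ X, x s + b

/-- Fractional points of the generalized polymatroid. -/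
def Frac (S : Finset α) (p : Finset α → ℤ) (a b : ℕ) (x : α → ℚ) : Prop :=
  (∀ s ∈ S, 0 ≤ x s ∧ x s ≤ 1) ∧ FLow S p b x ∧ FLow S p a (fun s => 1 - x s)

variable {S : Finset α} {p : Finset α → ℤ} {a b : ℕ} {F X Y : Finset α}

lemma card_inter_add_union (X Y F : Finset α) :
    (X ∩ Y ∩ F).card + ((X ∪ Y) ∩ F).card = (X ∩ F).card + (Y ∩ F).card := by
  have h1 : X ∩ Y ∩ F = (X ∩ F) ∩ (Y ∩ F) := by ext; simp only [mem_inter]; tauto
  have h2 : (X ∪ Y) ∩ F = (X ∩ F) ∪ (Y ∩ F) := union_inter_distrib_right _ _ _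
  rw [h1, h2, add_comm, card_union_add_card_inter]

lemma card_sdiff_inter_add (X Y F : Finset α) :
    ((X \ Y) ∩ F).card + (X ∩ Y ∩ F).card = (X ∩ F).card := by
  rw [← card_union_of_disjoint]
  · congr 1; ext; simp; tauto
  · rw [disjoint_left]; intro s; simp; tauto

lemma InQ.symm (h : InQ S p a b F) : InQ S p b a (S \ F) :=
  ⟨sdiff_subset, h.2.2, by rw [Finset.sdiff_sdiff_eq_self h.1]; exact h.2.1⟩

omit [DecidableEq α] in
lemma Frac.symm {x : α → ℚ} (h : Frac S p a b x) : Frac S p b a (fun s => 1 - x s) :=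
  ⟨fun s hs => by have := h.1 s hs; constructor <;> linarith [this.1, this.2], h.2.2,
    by simpa using h.2.1⟩

lemma Low.mono {G : Finset α} (h : Low S p b F) (hFG : F ⊆ G) : Low S p b G := by
  intro X hX
  have h1 := h X hX
  have h2 : (X ∩ F).card ≤ (X ∩ G).card := card_le_card (inter_subset_inter_left hFG)
  omega

/-- Uncrossing two tight sets of the same side. -/
lemma Tight.uncross (hp : Skew S p) (hF : Low S p b F) (hX : Tight S p b F X)
    (hY : Tight S p b F Y) :
    (Tight S p b F (X ∩ Y) ∧ Tight S p b F (X ∪ Y)) ∨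
      (X ∩ Y ∩ F = ∅ ∧ Tight S p b F (X \ Y)) := by
  have hI : X ∩ Y ⊆ S := inter_subset_left.trans hX.1
  have hU : X ∪ Y ⊆ S := union_subset hX.1 hY.1
  have hD : X \ Y ⊆ S := sdiff_subset.trans hX.1
  have hD' : Y \ X ⊆ S := sdiff_subset.trans hY.1
  have e1 := hX.2
  have e2 := hY.2
  rcases hp X hX.1 Y hY.1 with h | h
  · left
    have h1 := hF _ hI
    have h2 := hF _ hU
    have h3 := card_inter_add_union X Y F
    exact ⟨⟨hI, by omega⟩, ⟨hU, by omega⟩⟩
  · right
    have h1 := hF _ hD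
    have h2 := hF _ hD'
    have h3 := card_sdiff_inter_add X Y F
    have h4 := card_sdiff_inter_add Y X F
    rw [inter_comm Y X] at h4
    exact ⟨card_eq_zero.1 (by omega), ⟨hD, by omega⟩⟩

/-- A tight set of one side against a tight set of the other side. -/
lemma Tight.cross (hp : Skew S p) (hb : Bdd S p (a + b)) (hF : InQ S p a b F)
    (hX : Tight S p b F X) (hY : Tight S p a (S \ F) Y) {v : α} (hvX : v ∈ X) (hvY : v ∈ Y) :
    X ∩ F ⊆ Y := by
  have hI : X ∩ Y ⊆ S := inter_subset_left.trans hX.1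
  have hU : X ∪ Y ⊆ S := union_subset hX.1 hY.1
  have hD : X \ Y ⊆ S := sdiff_subset.trans hX.1
  have hD' : Y \ X ⊆ S := sdiff_subset.trans hY.1
  have e1 := hX.2
  have e2 := hY.2
  have h3 := card_sdiff_inter_add X Y F
  have h4 := card_sdiff_inter_add Y X (S \ F)
  rw [inter_comm Y X] at h4
  have h5 : (X ∩ Y ∩ F).card + (X ∩ Y ∩ (S \ F)).card = (X ∩ Y).card := by
    rw [← card_union_of_disjoint]
    · congr 1
      ext s
      have : s ∈ X → s ∈ S := fun h => hX.1 h
      simp only [mem_union, mem_inter, mem_sdiff]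
      tauto
    · rw [disjoint_left]; intro s; simp; tauto
  rcases hp X hX.1 Y hY.1 with h | h
  · have h1 := (hb _ hI).1
    have h2 := (hb _ hU).2
    push_cast at h2
    have h6 : ((X \ Y) ∩ F) = ∅ := card_eq_zero.1 (by omega)
    intro s hs
    by_contra hsY
    have : s ∈ (X \ Y) ∩ F := by
      simp only [mem_inter, mem_sdiff] at hs ⊢
      tauto
    rw [h6] at this
    simp at this
  · have h1 := hF.2.1 _ hD
    have h2 := hF.2.2 _ hD'
    have h6 : 0 < (X ∩ Y).card := card_pos.2 ⟨v, mem_inter.2 ⟨hvX, hvY⟩⟩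
    omega

/-- Disjoint unions of tight sets. -/
inductive DU (S : Finset α) (p : Finset α → ℤ) (b : ℕ) (F : Finset α) : Finset α → Prop
  | empty : DU S p b F ∅
  | cons (X U : Finset α) : Tight S p b F X → DU S p b F U → Disjoint X U → DU S p b F (X ∪ U)

lemma DU.add (hp : Skew S p) (hF : Low S p b F) {U : Finset α} (hU : DU S p b F U) :
    ∀ X, Tight S p b F X → ∃ U', DU S p b F U' ∧ (U ∪ X) ∩ F ⊆ U' ∧ U' ⊆ U ∪ X := by
  induction hU with
  | empty =>
    intro X hX
    refine ⟨X ∪ ∅, DU.cons X ∅ hX DU.empty (by simp), ?_, by simp⟩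
    simp
  | cons Y U hY hU hd ih =>
    intro X hX
    rcases hX.uncross hp hF hY with ⟨-, h⟩ | ⟨-, h⟩
    · obtain ⟨U', h1, h2, h3⟩ := ih _ h
      refine ⟨U', h1, fun s hs => h2 ?_, fun s hs => ?_⟩
      · simp only [mem_inter, mem_union] at hs ⊢; tauto
      · have := h3 hs
        simp only [mem_union] at this ⊢; tauto
    · obtain ⟨U', h1, h2, h3⟩ := ih _ h
      refine ⟨Y ∪ U', DU.cons Y U' hY h1 ?_, fun s hs => ?_, fun s hs => ?_⟩
      · rw [disjoint_left] at hd ⊢
        intro s hsY hsU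
        have := h3 hsU
        have := hd hsY
        simp only [mem_union, mem_sdiff] at *
        tauto
      · by_cases hsY : s ∈ Y
        · exact mem_union_left _ hsY
        · refine mem_union_right _ (h2 ?_)
          simp only [mem_inter, mem_union, mem_sdiff] at hs ⊢; tauto
      · rcases mem_union.1 hs with hs | hs
        · simp [hs]
        · have := h3 hs
          simp only [mem_union, mem_sdiff] at this ⊢; tauto

lemma exists_DU_cover (hp : Skew S p) (hF : Low S p b F) (W D : Finset α) (hD : D ⊆ F)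
    (h : ∀ d ∈ D, ∃ X, Tight S p b F X ∧ d ∈ X ∧ X ⊆ W) :
    ∃ U, DU S p b F U ∧ D ⊆ U ∧ U ⊆ W := by
  induction D using Finset.induction_on with
  | empty => exact ⟨∅, DU.empty, by simp, by simp⟩
  | insert d D hd ih =>
    obtain ⟨U, h1, h2, h3⟩ := ih ((subset_insert _ _).trans hD)
      (fun e he => h e (mem_insert_of_mem he))
    obtain ⟨X, hX, hdX, hXW⟩ := h d (mem_insert_self _ _)
    obtain ⟨U', h4, h5, h6⟩ := h1.add hp hF X hX
    refine ⟨U', h4, fun s hs => h5 ?_, h6.trans (union_subset h3 hXW)⟩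
    refine mem_inter.2 ⟨?_, hD hs⟩
    rcases mem_insert.1 hs with rfl | hs
    · exact mem_union_right _ hdX
    · exact mem_union_left _ (h2 hs)

lemma DU.ineq {U : Finset α} (hU : DU S p b F U) {x : α → ℚ} (hx : FLow S p b x) :
    ((U ∩ F).card : ℚ) ≤ ∑ s ∈ U, x s := by
  induction hU with
  | empty => simp
  | cons X U hX _ hd ih =>
    rw [sum_union hd, union_inter_distrib_right, card_union_of_disjoint
      (hd.mono inter_subset_left inter_subset_left)]
    have h1 := hx X hX.1
    have h2 : (p X : ℚ) = (X ∩ F).card + b := by exact_mod_cast hX.2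
    push_cast
    linarith

lemma exists_min_tight (hp : Skew S p) (hF : Low S p b F) {u : α} (hu : u ∈ F)
    (h : ∃ X, Tight S p b F X ∧ u ∈ X) :
    ∃ X, Tight S p b F X ∧ u ∈ X ∧ ∀ Y, Tight S p b F Y → u ∈ Y → X ⊆ Y := by
  classical
  obtain ⟨X0, hX0, hu0⟩ := h
  obtain ⟨X, hX, hmin⟩ := exists_min_image (S.powerset.filter fun X => Tight S p b F X ∧ u ∈ X)
    card ⟨X0, by simp [hX0, hu0, hX0.1]⟩
  simp only [mem_filter, mem_powerset] at hX hmin
  refine ⟨X, hX.2.1, hX.2.2, fun Y hY huY => ?_⟩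
  rcases hX.2.1.uncross hp hF hY with ⟨h, -⟩ | ⟨h, -⟩
  · have h1 := hmin _ ⟨h.1, h, mem_inter.2 ⟨hX.2.2, huY⟩⟩
    have h2 : X ∩ Y = X := eq_of_subset_of_card_le inter_subset_left h1
    exact inter_eq_left.1 h2
  · have : u ∈ X ∩ Y ∩ F := by simp [hX.2.2, huY, hu]
    rw [h] at this
    simp at this

lemma Low.erase (hF : Low S p b F) {u : α} (h : ∀ X, Tight S p b F X → u ∉ X) :
    Low S p b (F.erase u) := by
  intro X hX
  have h1 := hF X hX
  by_cases huX : u ∈ X
  · have h2 : p X ≠ (X ∩ F).card + b := fun e => h X ⟨hX, e⟩ huX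
    have h3 : (X ∩ F).card ≤ (X ∩ F.erase u).card + 1 := by
      rw [inter_erase]
      have := pred_card_le_card_erase (s := X ∩ F) (a := u)
      omega
    omega
  · have : X ∩ F.erase u = X ∩ F := by
      ext s
      simp only [mem_inter, mem_erase]
      constructor
      · tauto
      · rintro ⟨h1, h2⟩
        exact ⟨h1, fun e => huX (e ▸ h1), h2⟩
    rw [this]
    exact h1

/-- The exchange of `u` for `v`. -/
def exch (F : Finset α) (u v : α) : Finset α := insert v (F.erase u)

lemma mem_exch {u v s : α} : s ∈ exch F u v ↔ s = v ∨ (s ≠ u ∧ s ∈ F) := by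
  simp [exch]

lemma card_exch {u v : α} (hu : u ∈ F) (hv : v ∉ F) : (exch F u v).card = F.card := by
  rw [exch, card_insert_of_notMem (by simp [hv]), card_erase_of_mem hu]
  have := card_pos.2 ⟨u, hu⟩
  omega

lemma Low.exch (hF : Low S p b F) {u v : α} (hv : v ∉ F)
    (h : ∀ X, Tight S p b F X → u ∈ X → v ∈ X) : Low S p b (exch F u v) := by
  intro X hX
  have h1 := hF X hX
  have h3 : (X ∩ F).card ≤ (X ∩ F.erase u).card + 1 := by
    rw [inter_erase]
    have := pred_card_le_card_erase (s := X ∩ F) (a := u)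
    omega
  have h4 : (X ∩ F.erase u).card ≤ (X ∩ MP_1195b1_lc.exch F u v).card :=
    card_le_card (inter_subset_inter_left (subset_insert _ _))
  by_cases huX : u ∈ X
  · by_cases hvX : v ∈ X
    · have h5 : (X ∩ MP_1195b1_lc.exch F u v).card = (X ∩ F.erase u).card + 1 := by
        rw [MP_1195b1_lc.exch, inter_insert_of_mem hvX, card_insert_of_notMem (by simp [hv])]
      omega
    · have h2 : p X ≠ (X ∩ F).card + b := fun e => hvX (h X ⟨hX, e⟩ huX)
      omega
  · have : X ∩ F.erase u = X ∩ F := by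
      ext s
      simp only [mem_inter, mem_erase]
      constructor
      · tauto
      · rintro ⟨h1, h2⟩
        exact ⟨h1, fun e => huX (e ▸ h1), h2⟩
    rw [this] at h4
    omega

lemma sdiff_exch {u v : α} (hF : F ⊆ S) (hu : u ∈ F) (hv : v ∉ F) :
    S \ exch F u v = exch (S \ F) v u := by
  ext s
  simp only [mem_sdiff, mem_exch]
  by_cases h1 : s = u
  · subst h1
    have : s ≠ v := fun e => hv (e ▸ hu)
    simp [hF hu, this]
  · by_cases h2 : s = v
    · subst h2
      simp [h1]
    · simp [h1, h2]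

lemma InQ.exch (hF : InQ S p a b F) {u v : α} (hu : u ∈ F) (hv : v ∈ S \ F)
    (h1 : ∀ X, Tight S p b F X → u ∈ X → v ∈ X)
    (h2 : ∀ Y, Tight S p a (S \ F) Y → v ∈ Y → u ∈ Y) : InQ S p a b (exch F u v) := by
  have hv' := mem_sdiff.1 hv
  refine ⟨?_, hF.2.1.exch hv'.2 h1, ?_⟩
  · intro s hs
    rcases mem_exch.1 hs with rfl | hs
    · exact hv'.1
    · exact hF.1 hs.2
  · rw [sdiff_exch hF.1 hu hv'.2]
    exact hF.2.2.exch (by simp [hu]) h2

lemma cutA (hp : Skew S p) (hb : Bdd S p (a + b)) (hF : InQ S p a b F) {R : Finset α}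
    (hno : ∀ u ∈ F, u ∈ R → ∀ v ∈ S \ F, v ∉ R → ¬ InQ S p a b (exch F u v))
    (hall : ∀ u ∈ F, u ∈ R → ∃ X, Tight S p b F X ∧ u ∈ X) {x : α → ℚ}
    (hx : Frac S p a b x) : ((F ∩ R).card : ℚ) ≤ ∑ s ∈ S ∩ R, x s := by
  obtain ⟨U, hU, hDU, hUW⟩ := exists_DU_cover hp hF.2.1 (S ∩ (F ∪ R)) (F ∩ R) inter_subset_left
    (by
      intro u hu
      obtain ⟨huF, huR⟩ := mem_inter.1 hu
      obtain ⟨X, hX, huX, hmin⟩ := exists_min_tight hp hF.2.1 huF (hall u huF huR)
      refine ⟨X, hX, huX, fun v hv => mem_inter.2 ⟨hX.1 hv, ?_⟩⟩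
      by_contra hvW
      simp only [mem_union, not_or] at hvW
      have hvG : v ∈ S \ F := mem_sdiff.2 ⟨hX.1 hv, hvW.1⟩
      refine hno u huF huR v hvG hvW.2 (hF.exch huF hvG (fun Y hY huY => hmin Y hY huY hv) ?_)
      intro Y hY hvY
      exact hX.cross hp hb hF hY hv hvY (mem_inter.2 ⟨huX, huF⟩))
  have h1 := hU.ineq hx.2.1
  have hUS : U ⊆ S := hUW.trans inter_subset_left
  have h2 : ∑ s ∈ U ∩ R, x s + ∑ s ∈ U \ R, x s = ∑ s ∈ U, x s := sum_inter_add_sum_sdiff U R x
  have h3 : ∑ s ∈ U \ R, x s ≤ (U \ R).card := by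
    have := sum_le_card_nsmul (U \ R) x 1 (fun s hs => (hx.1 s (hUS (mem_sdiff.1 hs).1)).2)
    simpa using this
  have h4 : ∑ s ∈ U ∩ R, x s ≤ ∑ s ∈ S ∩ R, x s :=
    sum_le_sum_of_subset_of_nonneg (inter_subset_inter_right hUS)
      (fun s hs _ => (hx.1 s (mem_inter.1 hs).1).1)
  have h5 : (F ∩ R).card + (U \ R).card ≤ (U ∩ F).card := by
    rw [← card_union_of_disjoint]
    · refine card_le_card fun s hs => ?_
      rcases mem_union.1 hs with hs | hs
      · exact mem_inter.2 ⟨hDU hs, (mem_inter.1 hs).1⟩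
      · have h6 := mem_sdiff.1 hs
        have h7 := hUW h6.1
        simp only [mem_inter, mem_union] at h7 ⊢
        tauto
    · rw [disjoint_left]; intro s; simp; tauto
  have h6 : ((F ∩ R).card : ℚ) + (U \ R).card ≤ (U ∩ F).card := by exact_mod_cast h5
  linarith

/-- If no exchange decreases the intersection with `R`, then `F` minimises it. -/
lemma cut (hp : Skew S p) (hb : Bdd S p (a + b)) (hF : InQ S p a b F) {R : Finset α}
    (hno : ∀ u ∈ F, u ∈ R → ∀ v ∈ S \ F, v ∉ R → ¬ InQ S p a b (exch F u v)) {x : α → ℚ}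
    (hx : Frac S p a b x) (hsum : ∑ s ∈ S, x s = F.card) :
    ((F ∩ R).card : ℚ) ≤ ∑ s ∈ S ∩ R, x s := by
  by_cases hall : ∀ u ∈ F, u ∈ R → ∃ X, Tight S p b F X ∧ u ∈ X
  · exact cutA hp hb hF hno hall hx
  push Not at hall
  obtain ⟨u0, hu0F, hu0R, hu0⟩ := hall
  have h1 := cutA (R := S \ R) hp (by rw [add_comm]; exact hb) hF.symm (by
      intro v hv hvR u hu huR hQ
      rw [Finset.sdiff_sdiff_eq_self hF.1] at hu
      have huR' : u ∈ R := by
        by_contra h
        exact huR (mem_sdiff.2 ⟨hF.1 hu, h⟩)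
      refine hno u hu huR' v hv (mem_sdiff.1 hvR).2 ?_
      have := hQ.symm
      rwa [← sdiff_exch hF.1 hu (mem_sdiff.1 hv).2, Finset.sdiff_sdiff_eq_self] at this
      intro s hs
      rcases mem_exch.1 hs with rfl | hs
      · exact (mem_sdiff.1 hv).1
      · exact hF.1 hs.2) (by
      intro v hv hvR
      by_contra hcon
      push Not at hcon
      exact hno u0 hu0F hu0R v hv (mem_sdiff.1 hvR).2
        (hF.exch hu0F hv (fun X hX huX => absurd huX (hu0 X hX))
          (fun Y hY hvY => absurd hvY (hcon Y hY)))) hx.symm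
  have h2 : S ∩ (S \ R) = S \ R := inter_eq_right.2 sdiff_subset
  rw [h2, sum_sub_distrib] at h1
  have h3 : ∑ s ∈ S ∩ R, x s + ∑ s ∈ S \ R, x s = ∑ s ∈ S, x s := sum_inter_add_sum_sdiff S R x
  have h4 : (F ∩ R).card + (S \ R).card = ((S \ F) ∩ (S \ R)).card + F.card := by
    rw [← card_union_add_card_inter (S \ F ∩ (S \ R)) F, ← card_union_add_card_inter (F ∩ R)]
    have e1 : F ∩ R ∩ (S \ R) = ∅ := by ext s; simp
    have e2 : S \ F ∩ (S \ R) ∩ F = ∅ := by ext s; simp; tauto
    have e3 : F ∩ R ∪ S \ R = (S \ R) ∪ (F ∩ R) := union_comm _ _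
    have e4 : S \ F ∩ (S \ R) ∪ F = (S \ R) ∪ (F ∩ R) := by
      ext s
      have : s ∈ F → s ∈ S := fun h => hF.1 h
      simp only [mem_union, mem_inter, mem_sdiff]
      tauto
    rw [e1, e2, e3, e4]
  have h5 : ((F ∩ R).card : ℚ) + (S \ R).card = ((S \ F) ∩ (S \ R)).card + F.card := by
    exact_mod_cast h4
  simp only [sum_const, nsmul_eq_mul, mul_one] at h1
  linarith

/-- If no element can be removed, then `F` has the least size. -/
lemma card_le_of_no_erase (hp : Skew S p) (hFS : F ⊆ S) (hF : Low S p b F)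
    (hno : ∀ u ∈ F, ¬ Low S p b (F.erase u)) {x : α → ℚ} (hx0 : ∀ s ∈ S, 0 ≤ x s)
    (hx : FLow S p b x) : (F.card : ℚ) ≤ ∑ s ∈ S, x s := by
  obtain ⟨U, hU, hDU, hUW⟩ := exists_DU_cover hp hF S F subset_rfl (by
    intro u hu
    by_contra hcon
    push Not at hcon
    exact hno u hu (hF.erase fun X hX huX => hcon X hX huX hX.1))
  have h1 := hU.ineq hx
  rw [inter_eq_right.2 hDU] at h1
  have _ := hFS
  exact h1.trans (sum_le_sum_of_subset_of_nonneg hUW fun s hs _ => hx0 s hs)

/-- A minimal set satisfying the lower conditions satisfies the upper ones. -/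
lemma low_compl_of_no_erase (hp : Skew S p) (hb : Bdd S p (a + b)) (hF : Low S p b F)
    (hno : ∀ u ∈ F, ¬ Low S p b (F.erase u)) : Low S p a (S \ F) := by
  intro Y
  induction Y using Finset.strongInduction with
  | H Y ih =>
    intro hY
    by_cases hYF : ∃ s ∈ Y, s ∈ F
    · obtain ⟨s, hsY, hsF⟩ := hYF
      have : ∃ X, Tight S p b F X ∧ s ∈ X := by
        by_contra hcon
        push Not at hcon
        exact hno s hsF (hF.erase hcon)
      obtain ⟨X, hX, hsX⟩ := this
      have e1 := hX.2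
      have h3 := card_sdiff_inter_add X Y F
      have h4 := card_sdiff_inter_add Y X (S \ F)
      rw [inter_comm Y X] at h4
      rcases hp X hX.1 Y hY with h | h
      · have h1 := (hb _ (inter_subset_left.trans hX.1 : X ∩ Y ⊆ S)).1
        have h2 := (hb _ (union_subset hX.1 hY)).2
        push_cast at h2
        have h5 : (X ∩ Y ∩ F).card + (X ∩ Y ∩ (S \ F)).card = (X ∩ Y).card := by
          rw [← card_union_of_disjoint]
          · congr 1
            ext s
            have : s ∈ X → s ∈ S := fun h => hX.1 h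
            simp only [mem_union, mem_inter, mem_sdiff]
            tauto
          · rw [disjoint_left]; intro s; simp; tauto
        omega
      · have h1 := hF _ (sdiff_subset.trans hX.1 : X \ Y ⊆ S)
        have h2 := ih (Y \ X) (by
          refine ⟨sdiff_subset, fun hsub => ?_⟩
          exact (mem_sdiff.1 (hsub hsY)).2 hsX) (sdiff_subset.trans hY)
        omega
    · push Not at hYF
      have h1 : Y ∩ (S \ F) = Y := inter_eq_left.2 fun s hs => mem_sdiff.2 ⟨hY hs, hYF s hs⟩
      have h2 := (hb Y hY).1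
      rw [h1]
      omega

/-- The indicator of a member is a fractional point. -/
lemma InQ.frac (hF : InQ S p a b F) : Frac S p a b (fun s => if s ∈ F then 1 else 0) := by
  refine ⟨fun s _ => by dsimp only; split_ifs <;> norm_num, fun X hX => ?_, fun X hX => ?_⟩
  · have h1 := hF.2.1 X hX
    have h2 : ∑ s ∈ X, (if s ∈ F then (1 : ℚ) else 0) = (X ∩ F).card := by
      simp [sum_ite_mem]
    rw [h2]
    exact_mod_cast h1
  · have h1 := hF.2.2 X hX
    have h2 : ∑ s ∈ X, (1 - if s ∈ F then (1 : ℚ) else 0) = (X ∩ (S \ F)).card := by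
      have : ∀ s ∈ X, (1 - if s ∈ F then (1 : ℚ) else 0) = if s ∈ S \ F then 1 else 0 := by
        intro s hs
        by_cases h : s ∈ F <;> simp [h, hX hs]
      rw [sum_congr rfl this]
      simp only [sum_ite_mem, sum_const, nsmul_eq_mul, mul_one]
    rw [h2]
    exact_mod_cast h1

lemma sum_indicator_inter (F T : Finset α) :
    ∑ s ∈ T, (if s ∈ F then (1 : ℚ) else 0) = (T ∩ F).card := by
  simp [sum_ite_mem]

/-- The base exchange property. -/
lemma exchange (hp : Skew S p) (hb : Bdd S p (a + b)) {G : Finset α} (hF : InQ S p a b F)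
    (hG : InQ S p a b G) (hc : F.card = G.card) {u : α} (huF : u ∈ F) (huG : u ∉ G) :
    ∃ v ∈ G, v ∉ F ∧ InQ S p a b (exch F u v) := by
  by_contra hcon
  push Not at hcon
  have h1 := cut (R := insert u (S \ (F ∪ G))) hp hb hF (by
    intro w hw hwR v hv hvR
    have hwu : w = u := by
      simp only [mem_insert, mem_sdiff, mem_union] at hwR
      tauto
    subst hwu
    refine hcon v ?_ (mem_sdiff.1 hv).2
    simp only [mem_insert, mem_sdiff, mem_union] at hvR hv
    tauto) hG.frac (by rw [sum_indicator_inter, inter_eq_right.2 hG.1, hc])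
  rw [sum_indicator_inter] at h1
  have h2 : S ∩ insert u (S \ (F ∪ G)) ∩ G = ∅ := by
    ext s
    simp only [mem_inter, mem_insert, mem_sdiff, mem_union, notMem_empty, iff_false]
    rintro ⟨⟨-, rfl | h⟩, h'⟩
    · exact huG h'
    · tauto
  have h3 : 0 < (F ∩ insert u (S \ (F ∪ G))).card := card_pos.2 ⟨u, by simp [huF]⟩
  rw [h2] at h1
  have h4 : (0 : ℚ) < (F ∩ insert u (S \ (F ∪ G))).card := by exact_mod_cast h3
  simp only [card_empty, Nat.cast_zero] at h1
  linarith

/-- Two exchanges without a shortcut can be made together. -/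
lemma shortcut (hp : Skew S p) (hb : Bdd S p (a + b)) {u v c d : α}
    (hu : u ∈ F) (hv : v ∉ F) (hc : c ∈ F) (hd : d ∉ F) (huc : u ≠ c) (hvd : v ≠ d)
    (h1 : InQ S p a b (exch F u v)) (h2 : InQ S p a b (exch F c d))
    (h3 : ¬ InQ S p a b (exch F u d)) : InQ S p a b (exch (exch F u v) c d) := by
  have hud : u ≠ d := fun e => hd (e ▸ hu)
  have huv : u ≠ v := fun e => hv (e ▸ hu)
  have hcv : c ≠ v := fun e => hv (e ▸ hc)
  have hcd : c ≠ d := fun e => hd (e ▸ hc)
  obtain ⟨w, hw1, hw2, hw⟩ := exchange hp hb h2 h1 (by rw [card_exch hu hv, card_exch hc hd])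
    (u := u) (mem_exch.2 (Or.inr ⟨huc, hu⟩)) (by simp [mem_exch, huv])
  rcases mem_exch.1 hw1 with rfl | ⟨hwu, hwF⟩
  · convert hw using 1
    ext s
    simp only [mem_exch]
    by_cases e1 : s = w
    · subst e1; simp [Ne.symm hcv]
    · by_cases e2 : s = d
      · subst e2; simp [Ne.symm hud]
      · simp [e1, e2]; tauto
  · have hwc : w = c := by
      by_contra h
      exact hw2 (mem_exch.2 (Or.inr ⟨h, hwF⟩))
    subst hwc
    exfalso
    apply h3
    convert hw using 1
    ext s
    simp only [mem_exch]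
    by_cases e1 : s = w
    · subst e1; simp [hwu, hwF]
    · by_cases e2 : s = d
      · subst e2; simp [Ne.symm hud]
      · simp [e1, e2]

end Pool.Agent.MP_1195b1_lc

end MrgPart0

-- ======== part 1: formerly Pool.Agent.MP_1195b1_lc.Intersect
section MrgPart1

/-!
# Intersection of the two generalized matroids by single exchanges along shortest paths
-/

namespace Pool.Agent.MP_1195b1_lc

open Finset

variable {α : Type*} [DecidableEq α]

/-- The data of an instance. -/
structure Inst (α : Type*) where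
  S : Finset α
  p : Bool → Finset α → ℤ
  a : ℕ
  b : ℕ

/-- The hypotheses on an instance. -/
def Inst.Ok (I : Inst α) : Prop := ∀ i, Skew I.S (I.p i) ∧ Bdd I.S (I.p i) (I.a + I.b)

/-- An exchange: in set number `i`, remove `u` and add `v`. -/
abbrev Ex (α : Type*) := Bool × α × α

/-- Tail of the arc of an exchange. -/
def tl (e : Ex α) : α := if e.1 then e.2.2 else e.2.1

/-- Head of the arc of an exchange. -/
def hd (e : Ex α) : α := if e.1 then e.2.1 else e.2.2

/-- A valid exchange. -/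
def Arc (I : Inst α) (B : Bool → Finset α) (e : Ex α) : Prop :=
  e.2.1 ∈ B e.1 ∧ e.2.2 ∈ I.S ∧ e.2.2 ∉ B e.1 ∧ InQ I.S (I.p e.1) I.a I.b (exch (B e.1) e.2.1 e.2.2)

/-- Elements from which `B true \ B false` is reached along at most `j` arcs. -/
def Reach (I : Inst α) (B : Bool → Finset α) : ℕ → α → Prop
  | 0, s => s ∈ B true ∧ s ∉ B false
  | j + 1, s => Reach I B j s ∨ ∃ e, Arc I B e ∧ tl e = s ∧ Reach I B j (hd e)

/-- First arcs of paths with at most `j + 1` arcs. -/
def Good (I : Inst α) (B : Bool → Finset α) (j : ℕ) (e : Ex α) : Prop :=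
  Arc I B e ∧ tl e ∈ B false ∧ tl e ∉ B true ∧ Reach I B j (hd e)

/-- Perform an exchange. -/
def applyEx (B : Bool → Finset α) (e : Ex α) : Bool → Finset α :=
  Function.update B e.1 (exch (B e.1) e.2.1 e.2.2)

/-- Both sets are members. -/
def Valid (I : Inst α) (B : Bool → Finset α) : Prop := ∀ i, InQ I.S (I.p i) I.a I.b (B i)

/-- The potential. -/
noncomputable def pot (I : Inst α) (B : Bool → Finset α) : ℕ :=
  (B false \ B true).card * (I.S.card + 1) + sInf {j | ∃ e, Good I B j e}

variable {I : Inst α} {B : Bool → Finset α}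

lemma Reach.unfold {j : ℕ} {s : α} (h : Reach I B j s) :
    (s ∈ B true ∧ s ∉ B false) ∨ ∃ l < j, ∃ e, Arc I B e ∧ tl e = s ∧ Reach I B l (hd e) := by
  induction j with
  | zero => exact Or.inl h
  | succ j ih =>
    rcases h with h | ⟨e, he⟩
    · rcases ih h with h | ⟨l, hl, h⟩
      · exact Or.inl h
      · exact Or.inr ⟨l, by omega, h⟩
    · exact Or.inr ⟨j, by omega, e, he⟩

lemma Reach.mono {j l : ℕ} {s : α} (h : Reach I B j s) (hl : j ≤ l) : Reach I B l s := by
  induction hl with
  | refl => exact h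
  | step _ ih => exact Or.inl ih

lemma Arc.tl_mem (hB : Valid I B) {e : Ex α} (he : Arc I B e) : tl e ∈ I.S := by
  obtain ⟨i, u, v⟩ := e
  cases i
  · exact (hB false).1 he.1
  · exact he.2.1

lemma Reach.mem (hB : Valid I B) {j : ℕ} {s : α} (h : Reach I B j s) : s ∈ I.S := by
  rcases h.unfold with h | ⟨l, -, e, he, rfl, -⟩
  · exact (hB true).1 h.1
  · exact he.tl_mem hB

lemma applyEx_same (B : Bool → Finset α) (e : Ex α) :
    applyEx B e e.1 = exch (B e.1) e.2.1 e.2.2 := by
  simp [applyEx]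

lemma applyEx_ne (B : Bool → Finset α) (e : Ex α) {i : Bool} (h : i ≠ e.1) :
    applyEx B e i = B i := by
  simp [applyEx, h]

lemma Arc.valid (hB : Valid I B) {e : Ex α} (he : Arc I B e) : Valid I (applyEx B e) := by
  intro i
  by_cases h : i = e.1
  · subst h
    rw [applyEx_same]
    exact he.2.2.2
  · rw [applyEx_ne B e h]
    exact hB i

lemma Arc.card {e : Ex α} (he : Arc I B e) (i : Bool) : (applyEx B e i).card = (B i).card := by
  by_cases h : i = e.1
  · subst h
    rw [applyEx_same, card_exch he.1 he.2.2.1]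
  · rw [applyEx_ne B e h]

/-- Arcs of shorter paths survive the exchange along the first arc of a shortest path. -/
lemma arc_persist (hI : I.Ok) {j l : ℕ} {e f : Ex α} (he : Good I B j e)
    (hmin : ∀ l < j, ∀ f, ¬ Good I B l f) (hl : l < j) (hf : Arc I B f)
    (hr : Reach I B l (hd f)) : Arc I (applyEx B e) f := by
  obtain ⟨i, u, v⟩ := e
  obtain ⟨i', c, d⟩ := f
  by_cases hi : i' = i
  · subst hi
    have h1 : tl (i', c, d) ≠ tl (i', u, v) := fun h =>
      hmin l hl (i', c, d) ⟨hf, h ▸ he.2.1, h ▸ he.2.2.1, hr⟩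
    have h2 : hd (i', c, d) ≠ hd (i', u, v) := fun h =>
      hmin l hl (i', u, v) ⟨he.1, he.2.1, he.2.2.1, h ▸ hr⟩
    obtain ⟨⟨hu, hvS, hv, hQ⟩, ht1, ht2, -⟩ := he
    obtain ⟨hc, hdS, hd', hQ'⟩ := hf
    simp only at hu hvS hv hQ hc hdS hd' hQ'
    have huc : u ≠ c := by cases i' <;> simp [tl, hd] at h1 h2 <;> tauto
    have hvd : v ≠ d := by cases i' <;> simp [tl, hd] at h1 h2 <;> tauto
    have hB' : applyEx B (i', u, v) i' = exch (B i') u v := applyEx_same B (i', u, v)
    refine ⟨?_, hdS, ?_, ?_⟩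
    · simp only [hB', mem_exch]
      exact Or.inr ⟨Ne.symm huc, hc⟩
    · simp only [hB', mem_exch]
      rintro (h | h)
      · exact hvd h.symm
      · exact hd' h.2
    · simp only [hB']
      cases i'
      · refine shortcut (hI false).1 (hI false).2 hu hv hc hd' huc hvd hQ hQ' fun hQ'' => ?_
        exact hmin l hl (false, u, d) ⟨⟨hu, hdS, hd', hQ''⟩, ht1, ht2, hr⟩
      · have := shortcut (hI true).1 (hI true).2 hc hd' hu hv (Ne.symm huc) (Ne.symm hvd) hQ' hQ
          fun hQ'' => hmin l hl (true, c, v) ⟨⟨hc, hvS, hv, hQ''⟩, ht1, ht2, hr⟩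
        convert this using 1
        have hcv : c ≠ v := fun h => hv (h ▸ hc)
        have hud : u ≠ d := fun h => hd' (h ▸ hu)
        ext s
        simp only [mem_exch]
        by_cases e1 : s = d
        · subst e1; simp [Ne.symm hud]
        · by_cases e2 : s = v
          · subst e2; simp [Ne.symm hcv]
          · simp [e1, e2]; tauto
  · have hB' : applyEx B (i, u, v) i' = B i' := applyEx_ne B (i, u, v) hi
    simpa only [Arc, hB'] using hf

/-- The effect of an exchange along a first arc on the two differences. -/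
lemma Good.mem_diff {j : ℕ} {e : Ex α} (he : Good I B j e) (s : α) :
    ((s ∈ applyEx B e false ∧ s ∉ applyEx B e true) ↔
      (s ≠ tl e ∧ s ∈ B false ∧ s ∉ B true) ∨
        (s = hd e ∧ ¬ (hd e ∈ B true ∧ hd e ∉ B false))) ∧
    (¬ (hd e ∈ B true ∧ hd e ∉ B false) → s ∈ B true ∧ s ∉ B false →
      s ∈ applyEx B e true ∧ s ∉ applyEx B e false) := by
  obtain ⟨i, u, v⟩ := e
  obtain ⟨⟨hu, -, hv, -⟩, ht1, ht2, -⟩ := he
  cases i
  · have h1 : applyEx B (false, u, v) false = exch (B false) u v := applyEx_same B (false, u, v)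
    have h2 : applyEx B (false, u, v) true = B true := applyEx_ne B (false, u, v) (by simp)
    simp only [h1, h2, mem_exch, tl, hd, Bool.false_eq_true, if_false] at *
    constructor
    · by_cases e1 : s = v
      · subst e1; simp [hv]
      · simp [e1]; tauto
    · rintro h ⟨h3, h4⟩
      refine ⟨h3, ?_⟩
      rintro (rfl | h5)
      · exact h ⟨h3, h4⟩
      · exact h4 h5.2
  · have h1 : applyEx B (true, u, v) true = exch (B true) u v := applyEx_same B (true, u, v)
    have h2 : applyEx B (true, u, v) false = B false := applyEx_ne B (true, u, v) (by simp)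
    simp only [h1, h2, mem_exch, tl, hd, if_true] at *
    have huv : u ≠ v := fun h => hv (h ▸ hu)
    constructor
    · by_cases e1 : s = u
      · subst e1; simp [hu, huv]
      · simp [e1]; tauto
    · rintro h ⟨h3, h4⟩
      refine ⟨Or.inr ⟨?_, h3⟩, h4⟩
      rintro rfl
      exact h ⟨h3, h4⟩

lemma reach_stable (hB : Valid I B) {s : α} (h : Reach I B (I.S.card + 1) s) :
    Reach I B I.S.card s := by
  classical
  set L : ℕ → Finset α := fun j => I.S.filter (Reach I B j) with hL
  have hmono : ∀ j, L j ⊆ L (j + 1) := fun j s hs => by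
    simp only [hL, mem_filter] at hs ⊢
    exact ⟨hs.1, Or.inl hs.2⟩
  have hstab : ∀ j, (∀ s, Reach I B (j + 1) s → Reach I B j s) →
      ∀ s, Reach I B (j + 2) s → Reach I B (j + 1) s := by
    rintro j hj s (h | ⟨e, he, hs, hr⟩)
    · exact h
    · exact Or.inr ⟨e, he, hs, hj _ hr⟩
  have key : ∀ j, (∀ s, Reach I B (j + 1) s → Reach I B j s) ∨ j + 1 ≤ (L (j + 1)).card := by
    intro j
    induction j with
    | zero =>
      by_cases h0 : ∀ s, Reach I B 1 s → Reach I B 0 s
      · exact Or.inl h0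
      · push Not at h0
        obtain ⟨s, hs, -⟩ := h0
        exact Or.inr (card_pos.2 ⟨s, by simp [hL, hs, hs.mem hB]⟩)
    | succ j ih =>
      rcases ih with ih | ih
      · exact Or.inl (hstab j ih)
      · by_cases h0 : ∀ s, Reach I B (j + 2) s → Reach I B (j + 1) s
        · exact Or.inl h0
        · push Not at h0
          obtain ⟨s, hs, hs'⟩ := h0
          right
          have : (L (j + 1)).card < (L (j + 2)).card :=
            card_lt_card ⟨hmono _, fun hsub => by
              have := hsub (show s ∈ L (j + 2) by simp [hL, hs, hs.mem hB])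
              simp only [hL, mem_filter] at this
              exact hs' this.2⟩
          change j + 2 ≤ (L (j + 2)).card
          omega
  rcases key I.S.card with h1 | h1
  · exact h1 s h
  · have : (L (I.S.card + 1)).card ≤ I.S.card := card_filter_le _ _
    omega

lemma reach_stable' (hB : Valid I B) {j : ℕ} {s : α} (h : Reach I B j s) :
    Reach I B I.S.card s := by
  induction j generalizing s with
  | zero => exact h.mono (Nat.zero_le _)
  | succ j ih =>
    rcases h with h | ⟨e, he, hs, hr⟩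
    · exact ih h
    · exact reach_stable hB (Or.inr ⟨e, he, hs, ih hr⟩)

lemma good_lt_card (hB : Valid I B) {j : ℕ} {e : Ex α} (he : Good I B j e) :
    ∃ l < I.S.card, ∃ f, Good I B l f := by
  have h1 : Reach I B (j + 1) (tl e) := Or.inr ⟨e, he.1, rfl, he.2.2.2⟩
  rcases (reach_stable' hB h1).unfold with h | ⟨l, hl, f, hf, ht, hr⟩
  · exact absurd h.1 he.2.2.1
  · exact ⟨l, hl, f, hf, ht ▸ he.2.1, ht ▸ he.2.2.1, hr⟩

lemma sInf_good_le (hB : Valid I B) : sInf {j | ∃ e, Good I B j e} ≤ I.S.card := by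
  rcases Set.eq_empty_or_nonempty {j | ∃ e, Good I B j e} with h | ⟨j, e, he⟩
  · rw [h, Nat.sInf_empty]
    exact Nat.zero_le _
  · obtain ⟨l, hl, f, hf⟩ := good_lt_card hB he
    exact (Nat.sInf_le (show l ∈ {j | ∃ e, Good I B j e} from ⟨f, hf⟩)).trans hl.le

lemma pot_lt (hB : Valid I B) : pot I B < (I.S.card + 1) * (I.S.card + 1) := by
  have h1 := sInf_good_le hB
  have h2 : (B false \ B true).card ≤ I.S.card := card_le_card (sdiff_subset.trans (hB false).1)
  have h3 := Nat.mul_le_mul_right (I.S.card + 1) h2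
  unfold pot
  nlinarith

/-- The potential decreases along the first arc of a shortest path. -/
lemma progress (hI : I.Ok) (hB : Valid I B) {j : ℕ} {e : Ex α} (he : Good I B j e)
    (hmin : ∀ l < j, ∀ f, ¬ Good I B l f) : pot I (applyEx B e) < pot I B := by
  have hB' := he.1.valid hB
  have hj : sInf {j | ∃ e, Good I B j e} = j := by
    apply le_antisymm (Nat.sInf_le (show j ∈ {j | ∃ e, Good I B j e} from ⟨e, he⟩))
    by_contra hlt
    obtain ⟨f, hf⟩ := Nat.sInf_mem (s := {j | ∃ e, Good I B j e}) ⟨j, e, he⟩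
    exact hmin _ (not_le.1 hlt) f hf
  have htl : tl e ∈ B false \ B true := mem_sdiff.2 ⟨he.2.1, he.2.2.1⟩
  have hpos := card_pos.2 ⟨_, htl⟩
  by_cases hN : hd e ∈ B true ∧ hd e ∉ B false
  · have h1 : applyEx B e false \ applyEx B e true = (B false \ B true).erase (tl e) := by
      ext s
      rw [mem_sdiff, (he.mem_diff s).1]
      simp [hN]
    have h2 := sInf_good_le hB'
    unfold pot
    rw [h1, card_erase_of_mem htl, hj]
    obtain ⟨c, hc⟩ : ∃ c, (B false \ B true).card = c + 1 := ⟨_, (Nat.succ_pred_eq_of_pos hpos).symm⟩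
    rw [hc, Nat.add_sub_cancel]
    nlinarith
  · have h1 : applyEx B e false \ applyEx B e true ⊆
        insert (hd e) ((B false \ B true).erase (tl e)) := by
      intro s
      rw [mem_sdiff, (he.mem_diff s).1]
      simp only [mem_insert, mem_erase, mem_sdiff]
      tauto
    have h2 : (applyEx B e false \ applyEx B e true).card ≤ (B false \ B true).card := by
      refine (card_le_card h1).trans ((card_insert_le _ _).trans ?_)
      rw [card_erase_of_mem htl]
      omega
    have hpers : ∀ l ≤ j, ∀ s, Reach I B l s → Reach I (applyEx B e) l s := by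
      intro l
      induction l with
      | zero => exact fun _ s hs => (he.mem_diff s).2 hN hs
      | succ l ih =>
        rintro hl s (hs | ⟨f, hf, hs, hr⟩)
        · exact Or.inl (ih (by omega) s hs)
        · exact Or.inr ⟨f, arc_persist hI he hmin (by omega) hf hr, hs, ih (by omega) _ hr⟩
    have hP := ((he.mem_diff (hd e)).1).2 (Or.inr ⟨rfl, hN⟩)
    rcases (hpers j le_rfl _ he.2.2.2).unfold with h | ⟨l, hl, f, hf, ht, hr⟩
    · exact absurd h.1 hP.2
    · have h3 : sInf {j | ∃ e', Good I (applyEx B e) j e'} ≤ l :=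
        Nat.sInf_le ⟨f, hf, ht ▸ hP.1, ht ▸ hP.2, hr⟩
      have h4 := Nat.mul_le_mul_right (I.S.card + 1) h2
      unfold pot
      rw [hj]
      omega

/-- If no path is left and a common fractional point exists, the two sets agree. -/
lemma eq_of_stuck (hI : I.Ok) (hB : Valid I B) (hst : ∀ j e, ¬ Good I B j e) {x : α → ℚ}
    (hx : ∀ i, Frac I.S (I.p i) I.a I.b x) (hsum : ∀ i, ∑ s ∈ I.S, x s = (B i).card) :
    B false = B true := by
  classical
  set T : Finset α := I.S.filter (Reach I B I.S.card) with hT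
  have hclosed : ∀ e, Arc I B e → hd e ∈ T → tl e ∈ T := by
    intro e he hh
    simp only [hT, mem_filter] at hh ⊢
    exact ⟨he.tl_mem hB, reach_stable hB (Or.inr ⟨e, he, rfl, hh.2⟩)⟩
  have h1 := cut (R := I.S \ T) (hI false).1 (hI false).2 (hB false) (by
    intro u hu huR v hv hvR hQ
    have hv' := mem_sdiff.1 hv
    have hvT : v ∈ T := by
      by_contra h
      exact hvR (mem_sdiff.2 ⟨hv'.1, h⟩)
    exact (mem_sdiff.1 huR).2 (hclosed (false, u, v) ⟨hu, hv'.1, hv'.2, hQ⟩ hvT))
    (hx false) (hsum false)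
  have h2 := cut (R := T) (hI true).1 (hI true).2 (hB true) (by
    intro u hu huR v hv hvR hQ
    have hv' := mem_sdiff.1 hv
    exact hvR (hclosed (true, u, v) ⟨hu, hv'.1, hv'.2, hQ⟩ huR)) (hx true) (hsum true)
  have h3 : ∑ s ∈ I.S ∩ T, x s + ∑ s ∈ I.S \ T, x s = ∑ s ∈ I.S, x s :=
    sum_inter_add_sum_sdiff _ _ x
  rw [inter_eq_right.2 (sdiff_subset : I.S \ T ⊆ I.S)] at h1
  have hc : (B false).card = (B true).card := by
    have := (hsum false).symm.trans (hsum true)
    exact_mod_cast this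
  have h4 : B false ∩ T ⊆ B true ∩ T := by
    intro s hs
    obtain ⟨hs1, hs2⟩ := mem_inter.1 hs
    refine mem_inter.2 ⟨?_, hs2⟩
    by_contra hs3
    rcases (mem_filter.1 hs2).2.unfold with h | ⟨l, -, f, hf, ht, hr⟩
    · exact hs3 h.1
    · exact hst l f ⟨hf, ht ▸ hs1, ht ▸ hs3, hr⟩
  have h5 : (B false ∩ (I.S \ T)).card + (B false ∩ T).card = (B false).card := by
    rw [← card_union_of_disjoint]
    · congr 1
      ext s
      have : s ∈ B false → s ∈ I.S := fun h => (hB false).1 h
      simp only [mem_union, mem_inter, mem_sdiff]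
      tauto
    · rw [disjoint_left]; intro s; simp; tauto
  have h6 : (B true ∩ T).card ≤ (B false ∩ T).card := by
    have h7 : ((B false ∩ (I.S \ T)).card : ℚ) + (B false ∩ T).card = (B false).card := by
      exact_mod_cast h5
    have h8 := hsum false
    have : ((B true ∩ T).card : ℚ) ≤ (B false ∩ T).card := by linarith
    exact_mod_cast this
  have h7 := eq_of_subset_of_card_le h4 h6
  refine (eq_of_subset_of_card_le (fun s hs => ?_) hc.le).symm
  by_contra hs'
  have hsT : s ∈ T := mem_filter.2 ⟨(hB true).1 hs,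
    Reach.mono (j := 0) ⟨hs, hs'⟩ (Nat.zero_le _)⟩
  have : s ∈ B false ∩ T := h7 ▸ mem_inter.2 ⟨hs, hsT⟩
  exact hs' (mem_inter.1 this).1

lemma low_ground {S : Finset α} {p : Finset α → ℤ} {a b : ℕ} (hb : Bdd S p (a + b)) :
    Low S p b S := by
  intro X hX
  have := (hb X hX).1
  rw [inter_eq_left.2 hX]
  omega

lemma le_card_of_no_insert {S : Finset α} {p : Finset α → ℤ} {a b : ℕ} {F : Finset α}
    (hp : Skew S p) (hF : InQ S p a b F)
    (hno : ∀ v ∈ S \ F, ¬ Low S p a ((S \ F).erase v)) {x : α → ℚ} (hx : Frac S p a b x) :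
    ∑ s ∈ S, x s ≤ F.card := by
  have h1 := card_le_of_no_erase hp sdiff_subset hF.2.2 hno (fun s hs => (hx.symm.1 s hs).1)
    hx.2.2
  rw [sum_sub_distrib, card_sdiff_of_subset hF.1, Nat.cast_sub (card_le_card hF.1)] at h1
  simp only [sum_const, nsmul_eq_mul, mul_one] at h1
  linarith

lemma exists_inQ_card {S : Finset α} {p : Finset α → ℤ} {a b t : ℕ} (hp : Skew S p)
    (hb : Bdd S p (a + b)) {x : α → ℚ} (hx : Frac S p a b x) (hsum : ∑ s ∈ S, x s = t) :
    ∃ F, InQ S p a b F ∧ F.card = t := by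
  classical
  obtain ⟨F0, hF0, hmin⟩ := exists_min_image (S.powerset.filter fun F => Low S p b F) card
    ⟨S, by simp [low_ground hb]⟩
  simp only [mem_filter, mem_powerset] at hF0 hmin
  have hno : ∀ u ∈ F0, ¬ Low S p b (F0.erase u) := by
    intro u hu h
    have h1 := hmin _ ⟨(erase_subset _ _).trans hF0.1, h⟩
    have h2 := card_erase_lt_of_mem hu
    omega
  have hQ0 : InQ S p a b F0 := ⟨hF0.1, hF0.2, low_compl_of_no_erase hp hb hF0.2 hno⟩
  have hc0 : F0.card ≤ t := by
    have := card_le_of_no_erase hp hF0.1 hF0.2 hno (fun s hs => (hx.1 s hs).1) hx.2.1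
    rw [hsum] at this
    exact_mod_cast this
  obtain ⟨F, hF, hmax⟩ := exists_max_image
    (S.powerset.filter fun F => InQ S p a b F ∧ F.card ≤ t) card ⟨F0, by simp [hQ0, hc0, hF0.1]⟩
  simp only [mem_filter, mem_powerset] at hF hmax
  refine ⟨F, hF.2.1, le_antisymm hF.2.2 ?_⟩
  by_contra hlt
  have h1 := le_card_of_no_insert hp hF.2.1 (by
    intro v hv h
    have hv' := mem_sdiff.1 hv
    have h2 : insert v F ⊆ S := insert_subset hv'.1 hF.1
    have h3 := hmax (insert v F) ⟨h2, ⟨h2, hF.2.1.2.1.mono (subset_insert _ _), by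
      rwa [sdiff_insert]⟩, by rw [card_insert_of_notMem hv'.2]; omega⟩
    rw [card_insert_of_notMem hv'.2] at h3
    omega) hx
  rw [hsum] at h1
  exact hlt (by exact_mod_cast h1)

/-- Integrality of the intersection. -/
theorem exists_common (hI : I.Ok) {x : α → ℚ} (hx : ∀ i, Frac I.S (I.p i) I.a I.b x) {t : ℕ}
    (hsum : ∑ s ∈ I.S, x s = t) :
    ∃ F, (∀ i, InQ I.S (I.p i) I.a I.b F) ∧ F.card = t := by
  choose B0 hB0 using fun i => exists_inQ_card (hI i).1 (hI i).2 (hx i) hsum
  have key : ∀ N, ∀ B : Bool → Finset α, pot I B = N → Valid I B → (∀ i, (B i).card = t) →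
      ∃ F, (∀ i, InQ I.S (I.p i) I.a I.b F) ∧ F.card = t := by
    intro N
    induction N using Nat.strong_induction_on with
    | _ N ih =>
      intro B hN hB hc
      rcases Set.eq_empty_or_nonempty {j | ∃ e, Good I B j e} with h | h
      · have h1 := eq_of_stuck hI hB (fun j e he => by
          have : j ∈ {j | ∃ e, Good I B j e} := ⟨e, he⟩
          rw [h] at this
          exact this) hx (fun i => by rw [hsum, hc])
        refine ⟨B false, fun i => ?_, hc false⟩
        cases i
        · exact hB false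
        · exact h1 ▸ hB true
      · obtain ⟨e, he⟩ := Nat.sInf_mem h
        have h1 := progress hI hB he (fun l hl f hf =>
          Nat.notMem_of_lt_sInf hl (show l ∈ {j | ∃ e, Good I B j e} from ⟨f, hf⟩))
        exact ih _ (hN ▸ h1) _ rfl (he.1.valid hB) (fun i => by rw [he.1.card, hc])
  exact key _ B0 rfl (fun i => (hB0 i).1) (fun i => (hB0 i).2)

end Pool.Agent.MP_1195b1_lc

end MrgPart1

-- ======== part 2: formerly Pool.Agent.MP_1195b1_lc.Colour
section MrgPart2

/-!
# The equitable skew-supermodular colouring theorem and the two-size characterization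
-/

namespace Pool.Agent.MP_1195b1_lc

open Finset

variable {α : Type*} [DecidableEq α]

/-- The number of members of a family that meet `X`. -/
def cnt (P : Finset (Finset α)) (X : Finset α) : ℕ := (P.filter fun Y => (Y ∩ X).Nonempty).card

lemma cnt_mono (P : Finset (Finset α)) {X Y : Finset α} (h : X ⊆ Y) : cnt P X ≤ cnt P Y :=
  card_le_card fun Z hZ => by
    simp only [mem_filter] at hZ ⊢
    exact ⟨hZ.1, hZ.2.mono (inter_subset_inter_left h)⟩

lemma cnt_submod (P : Finset (Finset α)) (X Y : Finset α) :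
    cnt P (X ∩ Y) + cnt P (X ∪ Y) ≤ cnt P X + cnt P Y := by
  unfold cnt
  rw [← card_union_add_card_inter (P.filter fun Z => (Z ∩ X).Nonempty), add_comm]
  refine add_le_add (card_le_card fun Z hZ => ?_) (card_le_card fun Z hZ => ?_)
  · simp only [mem_filter, mem_union, inter_union_distrib_left, union_nonempty] at hZ ⊢
    tauto
  · simp only [mem_filter, mem_inter] at hZ ⊢
    exact ⟨⟨hZ.1, hZ.2.mono (inter_subset_inter_left inter_subset_left)⟩,
      hZ.1, hZ.2.mono (inter_subset_inter_left inter_subset_right)⟩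

lemma cnt_le_card (P : Finset (Finset α)) (X : Finset α) : cnt P X ≤ P.card := card_filter_le _ _

lemma cnt_union {P Q : Finset (Finset α)} (h : Disjoint P Q) (X : Finset α) :
    cnt (P ∪ Q) X = cnt P X + cnt Q X := by
  unfold cnt
  rw [filter_union, card_union_of_disjoint (disjoint_filter_filter h)]

lemma cnt_inter {P : Finset (Finset α)} {F : Finset α} (h : ∀ Y ∈ P, Y ⊆ F) (X : Finset α) :
    cnt P (X ∩ F) = cnt P X := by
  unfold cnt
  congr 1
  refine filter_congr fun Y hY => ?_
  rw [inter_comm X F, ← inter_assoc, inter_eq_left.2 (h Y hY)]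

lemma cnt_le_card_of_disjoint {P : Finset (Finset α)}
    (h : (P : Set (Finset α)).PairwiseDisjoint id) (X : Finset α) : cnt P X ≤ X.card := by
  unfold cnt
  refine card_le_card_of_forall_subsingleton (fun Y s => s ∈ Y) (fun Y hY => ?_) (fun s _ => ?_)
  · obtain ⟨s, hs⟩ := (mem_filter.1 hY).2
    exact ⟨s, (mem_inter.1 hs).2, (mem_inter.1 hs).1⟩
  · rintro Y ⟨hY, hsY⟩ Z ⟨hZ, hsZ⟩
    by_contra hne
    exact disjoint_left.1 (h (mem_filter.1 hY).1 (mem_filter.1 hZ).1 hne) hsY hsZ

/-- Contraction of `p` to the subsets of the complement of `F`. -/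
def contr (F : Finset α) (p : Finset α → ℤ) (u : Finset α → ℕ) (B : Finset α) : ℤ :=
  F.powerset.sup' ⟨∅, empty_mem_powerset F⟩ fun A => p (A ∪ B) - u A

lemma le_contr {F A : Finset α} (p : Finset α → ℤ) (u : Finset α → ℕ) (B : Finset α)
    (hA : A ⊆ F) : p (A ∪ B) - u A ≤ contr F p u B :=
  le_sup' (fun A => p (A ∪ B) - u A) (mem_powerset.2 hA)

lemma exists_eq_contr (F : Finset α) (p : Finset α → ℤ) (u : Finset α → ℕ) (B : Finset α) :
    ∃ A ⊆ F, contr F p u B = p (A ∪ B) - u A := by
  obtain ⟨A, hA, h⟩ := exists_mem_eq_sup' (s := F.powerset) ⟨∅, empty_mem_powerset F⟩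
    fun A => p (A ∪ B) - u A
  exact ⟨A, mem_powerset.1 hA, h⟩

lemma contr_skew {S F G : Finset α} {p : Finset α → ℤ} {u : Finset α → ℕ} (hp : Skew S p)
    (hF : F ⊆ S) (hG : G ⊆ S) (hd : Disjoint F G) (hm : ∀ X Y, X ⊆ Y → u X ≤ u Y)
    (hs : ∀ X Y, u (X ∩ Y) + u (X ∪ Y) ≤ u X + u Y) : Skew G (contr F p u) := by
  intro X hX Y hY
  obtain ⟨A, hA, eA⟩ := exists_eq_contr F p u X
  obtain ⟨C, hC, eC⟩ := exists_eq_contr F p u Y
  rw [disjoint_left] at hd
  have hAX : ∀ s, s ∈ A → s ∉ X := fun s h h' => hd (hA h) (hX h')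
  have hAY : ∀ s, s ∈ A → s ∉ Y := fun s h h' => hd (hA h) (hY h')
  have hCX : ∀ s, s ∈ C → s ∉ X := fun s h h' => hd (hC h) (hX h')
  have hCY : ∀ s, s ∈ C → s ∉ Y := fun s h h' => hd (hC h) (hY h')
  rcases hp (A ∪ X) (union_subset (hA.trans hF) (hX.trans hG)) (C ∪ Y)
    (union_subset (hC.trans hF) (hY.trans hG)) with h | h
  · left
    have e1 : (A ∪ X) ∩ (C ∪ Y) = (A ∩ C) ∪ (X ∩ Y) := by
      ext s
      have := hAY s
      have := hCX s
      simp only [mem_union, mem_inter]
      tauto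
    have e2 : (A ∪ X) ∪ (C ∪ Y) = (A ∪ C) ∪ (X ∪ Y) := by
      ext s
      simp only [mem_union]
      tauto
    have h1 := le_contr p u (X ∩ Y) (inter_subset_left.trans hA : A ∩ C ⊆ F)
    have h2 := le_contr p u (X ∪ Y) (union_subset hA hC)
    have h3 := hs A C
    rw [e1, e2] at h
    omega
  · right
    have e1 : (A ∪ X) \ (C ∪ Y) = (A \ C) ∪ (X \ Y) := by
      ext s
      have := hAY s
      have := hCX s
      simp only [mem_union, mem_sdiff]
      tauto
    have e2 : (C ∪ Y) \ (A ∪ X) = (C \ A) ∪ (Y \ X) := by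
      ext s
      have := hAY s
      have := hCX s
      simp only [mem_union, mem_sdiff]
      tauto
    have h1 := le_contr p u (X \ Y) (sdiff_subset.trans hA : A \ C ⊆ F)
    have h2 := le_contr p u (Y \ X) (sdiff_subset.trans hC : C \ A ⊆ F)
    have h3 := hm (A \ C) A sdiff_subset
    have h4 := hm (C \ A) C sdiff_subset
    rw [e1, e2] at h
    omega

/-- The statement of the equitable colouring theorem for a ground set. -/
def Col (S : Finset α) (k n : ℕ) : Prop :=
  ∀ p : Bool → Finset α → ℤ, (∀ i, Skew S (p i) ∧ Bdd S (p i) k) →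
    ∃ P : Finpartition S, P.parts.card = k ∧ (∀ Y ∈ P.parts, Y.card = n) ∧
      ∀ i, ∀ X ⊆ S, p i X ≤ cnt P.parts X

/-- Feasible partitions with two class sizes. -/
def Feas (I : Inst α) (n₁ n₂ : ℕ) : Prop :=
  ∃ P : Finpartition I.S, ∃ A ⊆ P.parts, A.card = I.a ∧ (∀ Y ∈ A, Y.card = n₁) ∧
    (P.parts \ A).card = I.b ∧ (∀ Y ∈ P.parts \ A, Y.card = n₂) ∧
    ∀ i, ∀ X ⊆ I.S, I.p i X ≤ cnt P.parts X

lemma split {I : Inst α} (hI : I.Ok) {F : Finset α} (hF : ∀ i, InQ I.S (I.p i) I.a I.b F)
    {n₁ n₂ : ℕ} (h1 : Col F I.a n₁) (h2 : Col (I.S \ F) I.b n₂) : Feas I n₁ n₂ := by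
  have hFS := (hF false).1
  obtain ⟨Q, hQ1, hQ2, hQ3⟩ := h2 (fun i => contr F (I.p i) fun A => min A.card I.a) (fun i => by
    refine ⟨contr_skew (hI i).1 hFS sdiff_subset disjoint_sdiff (fun X Y h => ?_)
      (fun X Y => ?_), fun B hB => ?_⟩
    · have := card_le_card h
      omega
    · have := card_union_add_card_inter X Y
      have := card_le_card (inter_subset_left : X ∩ Y ⊆ X)
      have := card_le_card (inter_subset_right : X ∩ Y ⊆ Y)
      omega
    · obtain ⟨A, hA, e⟩ := exists_eq_contr F (I.p i) (fun A => min A.card I.a) B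
      have hAB : A ∪ B ⊆ I.S := union_subset (hA.trans hFS) (hB.trans sdiff_subset)
      have e1 : (A ∪ B) ∩ F = A := by
        ext s
        have : s ∈ A → s ∈ F := fun h => hA h
        have : s ∈ B → s ∉ F := fun h => (mem_sdiff.1 (hB h)).2
        simp only [mem_union, mem_inter]
        tauto
      have e2 : (A ∪ B) ∩ (I.S \ F) = B := by
        ext s
        have : s ∈ A → s ∈ F := fun h => hA h
        have : s ∈ B → s ∈ I.S ∧ s ∉ F := fun h => mem_sdiff.1 (hB h)
        simp only [mem_union, mem_inter, mem_sdiff]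
        tauto
      have k1 := ((hI i).2 _ hAB).1
      have k2 := ((hI i).2 _ hAB).2
      have k3 := (hF i).2.1 _ hAB
      have k4 := (hF i).2.2 _ hAB
      have k5 := card_union_le A B
      rw [e1] at k3
      rw [e2] at k4
      rw [e]
      push_cast at k2 ⊢
      omega)
  obtain ⟨P, hP1, hP2, hP3⟩ := h1 (fun i => contr (I.S \ F) (I.p i) (cnt Q.parts)) (fun i => by
    refine ⟨contr_skew (hI i).1 sdiff_subset hFS sdiff_disjoint (fun X Y h => cnt_mono _ h)
      (cnt_submod _), fun A hA => ?_⟩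
    obtain ⟨B, hB, e⟩ := exists_eq_contr (I.S \ F) (I.p i) (cnt Q.parts) A
    have k1 := hQ3 i B hB
    have k2 := le_contr (I.p i) (fun A => min A.card I.a) B hA
    rw [e, union_comm]
    push_cast at k2
    omega)
  have hd : Disjoint P.parts Q.parts := by
    rw [disjoint_left]
    intro Y hYP hYQ
    obtain ⟨s, hs⟩ := P.nonempty_of_mem_parts hYP
    exact (mem_sdiff.1 (Q.subset hYQ hs)).2 (P.subset hYP hs)
  let R : Finpartition I.S := Finpartition.ofExistsUnique (P.parts ∪ Q.parts)
    (fun Y hY => by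
      rcases mem_union.1 hY with h | h
      · exact (P.subset h).trans hFS
      · exact (Q.subset h).trans sdiff_subset)
    (fun s hs => by
      by_cases hsF : s ∈ F
      · obtain ⟨Y, hY, huniq⟩ := P.existsUnique_mem hsF
        refine ⟨Y, ⟨mem_union_left _ hY.1, hY.2⟩, fun Z hZ => ?_⟩
        rcases mem_union.1 hZ.1 with h | h
        · exact huniq Z ⟨h, hZ.2⟩
        · exact absurd hsF (mem_sdiff.1 (Q.subset h hZ.2)).2
      · obtain ⟨Y, hY, huniq⟩ := Q.existsUnique_mem (mem_sdiff.2 ⟨hs, hsF⟩)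
        refine ⟨Y, ⟨mem_union_right _ hY.1, hY.2⟩, fun Z hZ => ?_⟩
        rcases mem_union.1 hZ.1 with h | h
        · exact absurd (P.subset h hZ.2) hsF
        · exact huniq Z ⟨h, hZ.2⟩)
    (by simp)
  have hR : R.parts = P.parts ∪ Q.parts := rfl
  have hsd : R.parts \ P.parts = Q.parts := by rw [hR, union_sdiff_cancel_left hd]
  refine ⟨R, P.parts, hR ▸ subset_union_left, hP1, hP2, hsd ▸ hQ1, hsd ▸ hQ2, fun i X hX => ?_⟩
  rw [hR, cnt_union hd, ← cnt_inter (fun Y hY => P.subset hY) X,
    ← cnt_inter (fun Y hY => Q.subset hY) X]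
  have k1 := hP3 i (X ∩ F) inter_subset_right
  have k2 := le_contr (I.p i) (cnt Q.parts) (X ∩ F) (inter_subset_right : X ∩ (I.S \ F) ⊆ _)
  have e : X ∩ (I.S \ F) ∪ X ∩ F = X := by
    ext s
    have : s ∈ X → s ∈ I.S := fun h => hX h
    simp only [mem_union, mem_inter, mem_sdiff]
    tauto
  rw [e] at k2
  push_cast
  omega

lemma col_one {S : Finset α} {n : ℕ} (hn : 0 < n) (hS : S.card = n) : Col S 1 n := by
  intro p hp
  have hne : S ≠ ⊥ := by
    rintro rfl
    simp at hS
    omega
  refine ⟨Finpartition.indiscrete hne, by simp, by simp [hS], fun i X hX => ?_⟩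
  rcases X.eq_empty_or_nonempty with rfl | hXne
  · have := ((hp i).2 ∅ hX).1
    simp only [card_empty, Nat.cast_zero] at this
    omega
  · have h1 := ((hp i).2 X hX).2
    have h2 : cnt (Finpartition.indiscrete hne).parts X = 1 := by
      simp [cnt, filter_singleton, inter_eq_right.2 hX, hXne]
    rw [h2]
    exact h1

omit [DecidableEq α] in
lemma frac_uniform {S : Finset α} {p : Finset α → ℤ} {a b : ℕ} (hb : Bdd S p (a + b))
    (hab : 0 < a + b) : FLow S p b (fun _ => (a : ℚ) / (a + b)) := by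
  intro X hX
  have h1 : (p X : ℚ) ≤ X.card := by exact_mod_cast (hb X hX).1
  have h2 : (p X : ℚ) ≤ a + b := by exact_mod_cast (hb X hX).2
  have h3 : (0 : ℚ) < a + b := by exact_mod_cast hab
  have ha : (0 : ℚ) ≤ a := Nat.cast_nonneg a
  have hb' : (0 : ℚ) ≤ b := Nat.cast_nonneg b
  simp only [sum_const, nsmul_eq_mul]
  have h4 : (X.card : ℚ) * (a / (a + b)) + b = (X.card * a + (a + b) * b) / (a + b) := by
    field_simp
  rw [h4, le_div_iff₀ h3]
  nlinarith

theorem col (k n : ℕ) (hn : 0 < n) : ∀ S : Finset α, S.card = k * n → Col S k n := by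
  induction k with
  | zero =>
    intro S hS p hp
    have : S = ∅ := card_eq_zero.1 (by simpa using hS)
    subst this
    refine ⟨Finpartition.empty _, by simp, by simp, fun i X hX => ?_⟩
    have := ((hp i).2 X hX).2
    omega
  | succ k ih =>
    intro S hS p hp
    let I : Inst α := ⟨S, p, 1, k⟩
    have hI : I.Ok := fun i => ⟨(hp i).1, by simpa [I, add_comm] using (hp i).2⟩
    have hk : (0 : ℚ) < 1 + k := by positivity
    obtain ⟨F, hF, hc⟩ := exists_common hI (x := fun _ => (1 : ℚ) / (1 + k)) (t := n) (fun i => by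
      refine ⟨fun s _ => ⟨by positivity, ?_⟩, ?_, ?_⟩
      · rw [div_le_one hk]
        have : (0 : ℚ) ≤ k := Nat.cast_nonneg k
        linarith
      · simpa [I] using frac_uniform (hI i).2 (by simp [I])
      · have := frac_uniform (a := k) (b := 1) (p := p i) (S := S) (hp i).2 (by simp)
        convert this using 2
        push_cast
        field_simp
        ring) (by
      simp only [I, sum_const, hS, nsmul_eq_mul]
      push_cast
      field_simp
      ring)
    obtain ⟨P, A, hA, h1, h2, h3, h4, h5⟩ := split hI hF (col_one hn hc) (ih _ (by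
      rw [card_sdiff_of_subset (hF false).1, hc]
      simp only [I, hS]
      rw [Nat.succ_mul, Nat.add_sub_cancel]))
    refine ⟨P, ?_, fun Y hY => ?_, h5⟩
    · have := card_sdiff_add_card_eq_card hA
      simp only [I] at h1 h3
      omega
    · by_cases hYA : Y ∈ A
      · exact h2 Y hYA
      · exact h4 Y (mem_sdiff.2 ⟨hY, hYA⟩)

/-- The characterization of feasibility. -/
theorem feas_iff {I : Inst α} (hI : I.Ok) {n₁ n₂ : ℕ} (h1 : 0 < n₁) (h2 : 0 < n₂)
    (hS : I.a * n₁ + I.b * n₂ = I.S.card) :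
    Feas I n₁ n₂ ↔ ∃ F, (∀ i, InQ I.S (I.p i) I.a I.b F) ∧ F.card = I.a * n₁ := by
  constructor
  · rintro ⟨P, A, hA, k1, k2, k3, -, k5⟩
    have hdis : (A : Set (Finset α)).PairwiseDisjoint id := P.disjoint.subset hA
    have hFS : A.biUnion id ⊆ I.S := biUnion_subset.2 fun Y hY => P.subset (hA hY)
    have hsplit : ∀ X, cnt P.parts X = cnt A X + cnt (P.parts \ A) X := fun X => by
      rw [← cnt_union disjoint_sdiff, union_sdiff_of_subset hA]
    refine ⟨A.biUnion id, fun i => ⟨hFS, fun X hX => ?_, fun X hX => ?_⟩, ?_⟩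
    · have e1 := k5 i X hX
      have e2 := cnt_le_card (P.parts \ A) X
      have e3 := cnt_le_card_of_disjoint hdis (X ∩ A.biUnion id)
      rw [cnt_inter (fun Y hY => subset_biUnion_of_mem id hY)] at e3
      rw [hsplit] at e1
      omega
    · have e1 := k5 i X hX
      have e2 := cnt_le_card A X
      have e3 := cnt_le_card_of_disjoint (P.disjoint.subset (coe_subset.2 sdiff_subset) :
        ((P.parts \ A : Finset (Finset α)) : Set (Finset α)).PairwiseDisjoint id)
        (X ∩ (I.S \ A.biUnion id))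
      rw [cnt_inter (fun Y hY s hs => by
        have hY' := mem_sdiff.1 hY
        refine mem_sdiff.2 ⟨P.subset hY'.1 hs, fun h => ?_⟩
        obtain ⟨Z, hZ, hsZ⟩ := mem_biUnion.1 h
        exact hY'.2 (P.eq_of_mem_parts hY'.1 (hA hZ) hs hsZ ▸ hZ))] at e3
      rw [hsplit] at e1
      omega
    · rw [card_biUnion hdis]
      simp only [id]
      rw [sum_congr rfl k2, sum_const, k1, smul_eq_mul]
  · rintro ⟨F, hF, hc⟩
    refine split hI hF (col _ _ h1 F hc) (col _ _ h2 _ ?_)
    rw [card_sdiff_of_subset (hF false).1]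
    omega

end Pool.Agent.MP_1195b1_lc

end MrgPart2

-- ======== part 3: formerly Pool.Agent.MP_1195b1_lc.Algo
section MrgPart3

/-!
# The algorithm on lists, one oracle query per instruction, and its correctness
-/

namespace Pool.Agent.MP_1195b1_lc

open Finset

/-- Instructions: operation, index of the set, two elements. -/
abbrev Ins := ℕ × Bool × ℕ × ℕ

/-- States: the two sets and the tests answered positively. -/
abbrev St := List ℕ × List ℕ × List Ins

/-- Queries. -/
abbrev Qu := Bool × List ℕ × ℕ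

def getB (c : St) (i : Bool) : List ℕ := bif i then c.2.1 else c.1

def setB (c : St) (i : Bool) (L : List ℕ) : St := bif i then (c.1, L, c.2.2) else (L, c.2.1, c.2.2)

def candP (n : Ins) (B : List ℕ) (s : ℕ) : Bool :=
  if n.1 = 0 then decide (s ∈ B) && !decide (s = n.2.2.1)
  else if n.1 = 1 then decide (s ∈ B) || decide (s = n.2.2.1)
  else decide (s = n.2.2.2) || (!decide (s = n.2.2.1) && decide (s ∈ B))

def cand (l : List ℕ) (n : Ins) (c : St) : List ℕ := l.filter (candP n (getB c n.2.1))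

def query (l : List ℕ) (a b : ℕ) (n : Ins) (c : St) : Qu :=
  bif decide (n.1 = 0) || decide (n.1 = 2) then (n.2.1, cand l n c, b)
  else (n.2.1, l.filter (fun s => !decide (s ∈ cand l n c)), a)

def arcs (c : St) : List (Ex ℕ) :=
  (c.2.2.filter fun n => decide (n.1 = 2) && (decide ((3, n.2) ∈ c.2.2) &&
    (decide (n.2.2.1 ∈ getB c n.2.1) && !decide (n.2.2.2 ∈ getB c n.2.1)))).map (·.2)

def layer (l : List ℕ) (c : St) (z : List ℕ × List (Ex ℕ)) : List ℕ × List (Ex ℕ) :=
  (l.filter fun s => decide (s ∈ z.1) ||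
      (arcs c).any fun e => decide (tl e = s) && decide (hd e ∈ z.1),
    z.2 ++ (arcs c).filter fun e =>
      decide (tl e ∈ c.1) && (!decide (tl e ∈ c.2.1) && decide (hd e ∈ z.1)))

def search (l : List ℕ) (c : St) : List ℕ × List (Ex ℕ) :=
  l.foldl (fun z _ => layer l c z) (l.filter fun s => decide (s ∈ c.2.1) && !decide (s ∈ c.1), [])

def improve (l : List ℕ) (c : St) : St :=
  bif (search l c).2.isEmpty then (c.1, c.2.1, [])
  else setB (c.1, c.2.1, []) ((search l c).2.headD (false, 0, 0)).1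
    (cand l (2, (search l c).2.headD (false, 0, 0)) c)

def upd (l : List ℕ) (t : ℕ) (n : Ins) (c : St) (r : Bool) : St :=
  if n.1 = 0 then bif r then setB c n.2.1 (cand l n c) else c
  else if n.1 = 1 then
    bif r && decide ((getB c n.2.1).length < t) then setB c n.2.1 (cand l n c) else c
  else if n.1 = 4 then improve l c
  else bif r then (c.1, c.2.1, n :: c.2.2) else c

def tests (l : List ℕ) : List Ins :=
  [false, true].flatMap fun i => l.flatMap fun u => l.flatMap fun v => [(2, i, u, v), (3, i, u, v)]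

def block (l : List ℕ) : List Ins := tests l ++ [(4, false, 0, 0)]

def rep (l : List ℕ) : List ℕ := (0 :: l).flatMap fun _ => 0 :: l

def phase (l : List ℕ) (o : ℕ) (i : Bool) : List Ins := l.map fun u => (o, i, u, 0)

lemma phase_cons (u : ℕ) (m : List ℕ) (o : ℕ) (i : Bool) :
    phase (u :: m) o i = (o, i, u, 0) :: phase m o i := rfl

def sched (l : List ℕ) : List Ins :=
  phase l 0 false ++ (phase l 0 true ++ (phase l 1 false ++ (phase l 1 true ++
    (rep l).flatMap fun _ => block l)))

def verdict (l : List ℕ) (t : ℕ) (c : St) : Bool :=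
  decide (c.1.length = t) && (decide (c.2.1.length = t) &&
    l.all fun s => decide (decide (s ∈ c.1) = decide (s ∈ c.2.1)))

/-- One instruction, answered by the oracle. -/
def stepO (O : Qu → Bool) (l : List ℕ) (a b t : ℕ) (c : St) (n : Ins) : St :=
  upd l t n c (O (query l a b n c))

/-- The sets of a state. -/
def toB (c : St) (i : Bool) : Finset ℕ := (getB c i).toFinset

def Wf (l : List ℕ) (c : St) : Prop := ∀ i, (getB c i).Sublist l

@[simp] lemma getB_setB (c : St) (i : Bool) (L : List ℕ) : getB (setB c i L) i = L := by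
  cases i <;> rfl

lemma getB_setB_ne (c : St) {i j : Bool} (h : j ≠ i) (L : List ℕ) :
    getB (setB c i L) j = getB c j := by
  cases i <;> cases j <;> first | rfl | exact absurd rfl h

@[simp] lemma setB_snd (c : St) (i : Bool) (L : List ℕ) : (setB c i L).2.2 = c.2.2 := by
  cases i <;> rfl

lemma Wf.setB {l : List ℕ} {c : St} (h : Wf l c) (i : Bool) {L : List ℕ} (hL : L.Sublist l) :
    Wf l (setB c i L) := by
  intro j
  by_cases hj : j = i
  · subst hj
    rwa [getB_setB]
  · rw [getB_setB_ne c hj]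
    exact h j

lemma toB_setB (c : St) (i : Bool) (L : List ℕ) :
    toB (setB c i L) = Function.update (toB c) i L.toFinset := by
  funext j
  by_cases hj : j = i
  · subst hj
    simp [toB]
  · simp [toB, getB_setB_ne c hj, hj]

lemma cand_sublist (l : List ℕ) (n : Ins) (c : St) : (cand l n c).Sublist l := List.filter_sublist

variable {l : List ℕ} {c : St}

lemma Wf.mem (h : Wf l c) {i : Bool} {s : ℕ} (hs : s ∈ getB c i) : s ∈ l := (h i).subset hs

lemma Wf.card (h : Wf l c) (hl : l.Nodup) (i : Bool) : (toB c i).card = (getB c i).length :=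
  List.toFinset_card_of_nodup ((h i).nodup hl)

lemma cand_zero (h : Wf l c) (i : Bool) (u v : ℕ) :
    (cand l (0, i, u, v) c).toFinset = (toB c i).erase u := by
  ext s
  have : s ∈ getB c i → s ∈ l := h.mem
  simp [cand, candP, toB]
  tauto

lemma cand_one (h : Wf l c) (i : Bool) {u : ℕ} (hu : u ∈ l) (v : ℕ) :
    (cand l (1, i, u, v) c).toFinset = insert u (toB c i) := by
  ext s
  have : s ∈ getB c i → s ∈ l := h.mem
  have : s = u → s ∈ l := fun e => e ▸ hu
  simp [cand, candP, toB]
  tauto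

lemma cand_two (h : Wf l c) {o : ℕ} (ho : 2 ≤ o) (i : Bool) (u : ℕ) {v : ℕ} (hv : v ∈ l) :
    (cand l (o, i, u, v) c).toFinset = exch (toB c i) u v := by
  ext s
  have : s ∈ getB c i → s ∈ l := h.mem
  have : s = v → s ∈ l := fun e => e ▸ hv
  have h0 : o ≠ 0 := by omega
  have h1 : o ≠ 1 := by omega
  simp [cand, candP, toB, mem_exch, h0, h1]
  tauto

lemma compl_toFinset (l L : List ℕ) :
    (l.filter fun s => !decide (s ∈ L)).toFinset = l.toFinset \ L.toFinset := by
  ext s
  simp

/-- The oracle answers the one-sided condition. -/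
def Answers (I : Inst ℕ) (O : Qu → Bool) : Prop :=
  ∀ i L t, O (i, L, t) = true ↔ Low I.S (I.p i) t L.toFinset

variable {I : Inst ℕ} {O : Qu → Bool} {t : ℕ}

lemma phase_zero (hS : I.S = l.toFinset) (hO : Answers I O) (i : Bool) (m : List ℕ) :
    ∀ c : St, Wf l c → Low I.S (I.p i) I.b (toB c i) →
      let c' := (phase m 0 i).foldl (stepO O l I.a I.b t) c
      Wf l c' ∧ (∀ j ≠ i, toB c' j = toB c j) ∧ c'.2.2 = c.2.2 ∧ Low I.S (I.p i) I.b (toB c' i) ∧
        toB c' i ⊆ toB c i ∧ ∀ u ∈ m, u ∈ toB c' i → ¬ Low I.S (I.p i) I.b ((toB c' i).erase u) := by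
  have _ := hS
  induction m with
  | nil => intro c h1 h2; simp [phase, h1, h2]
  | cons u m ih =>
    intro c h1 h2
    simp only [phase_cons, List.foldl_cons]
    have hq : O (query l I.a I.b (0, i, u, 0) c) = true ↔
        Low I.S (I.p i) I.b ((toB c i).erase u) := by
      rw [← cand_zero h1 i u 0, ← hO]
      rfl
    by_cases hr : O (query l I.a I.b (0, i, u, 0) c) = true
    · have e : stepO O l I.a I.b t c (0, i, u, 0) = setB c i (cand l (0, i, u, 0) c) := by
        simp [stepO, upd, hr]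
      have e1 : toB (setB c i (cand l (0, i, u, 0) c)) =
          Function.update (toB c) i ((toB c i).erase u) := by rw [toB_setB, cand_zero h1]
      obtain ⟨k1, k2, k3, k4, k5, k6⟩ := ih _ (h1.setB i (cand_sublist l (0, i, u, 0) c))
        (by rw [e1, Function.update_self]; exact hq.1 hr)
      rw [e]
      rw [e1] at k2 k5
      rw [Function.update_self] at k5
      refine ⟨k1, fun j hj => by rw [k2 j hj, Function.update_of_ne hj], by simpa using k3, k4,
        k5.trans (erase_subset _ _), fun w hw hw' => ?_⟩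
      rcases List.mem_cons.1 hw with rfl | hw
      · exact absurd (k5 hw') (notMem_erase _ _)
      · exact k6 w hw hw'
    · have e : stepO O l I.a I.b t c (0, i, u, 0) = c := by
        simp [stepO, upd, hr]
      obtain ⟨k1, k2, k3, k4, k5, k6⟩ := ih c h1 h2
      rw [e]
      refine ⟨k1, k2, k3, k4, k5, fun w hw hw' => ?_⟩
      rcases List.mem_cons.1 hw with rfl | hw
      · exact fun h => hr (hq.2 (h.mono (erase_subset_erase _ k5)))
      · exact k6 w hw hw'

lemma phase_one (hl : l.Nodup) (hS : I.S = l.toFinset) (hO : Answers I O) (i : Bool)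
    (m : List ℕ) (hm : ∀ u ∈ m, u ∈ l) :
    ∀ c : St, Wf l c → InQ I.S (I.p i) I.a I.b (toB c i) →
      let c' := (phase m 1 i).foldl (stepO O l I.a I.b t) c
      Wf l c' ∧ (∀ j ≠ i, toB c' j = toB c j) ∧ c'.2.2 = c.2.2 ∧
        InQ I.S (I.p i) I.a I.b (toB c' i) ∧ toB c i ⊆ toB c' i ∧
        ((toB c i).card ≤ t → (toB c' i).card ≤ t) ∧
        ((toB c' i).card < t → ∀ u ∈ m, u ∉ toB c' i →
          ¬ Low I.S (I.p i) I.a ((I.S \ toB c' i).erase u)) := by
  induction m with
  | nil => intro c h1 h2; simp [phase, h1, h2]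
  | cons u m ih =>
    intro c h1 h2
    have hu : u ∈ l := hm u (by simp)
    replace ih := ih (fun w hw => hm w (by simp [hw]))
    simp only [phase_cons, List.foldl_cons]
    have hq : O (query l I.a I.b (1, i, u, 0) c) = true ↔
        Low I.S (I.p i) I.a ((I.S \ toB c i).erase u) := by
      rw [← sdiff_insert, ← cand_one h1 i hu 0, hS, ← compl_toFinset, ← hS, ← hO]
      rfl
    by_cases hr : O (query l I.a I.b (1, i, u, 0) c) = true ∧ (getB c i).length < t
    · have e : stepO O l I.a I.b t c (1, i, u, 0) = setB c i (cand l (1, i, u, 0) c) := by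
        simp [stepO, upd, hr]
      have e1 : toB (setB c i (cand l (1, i, u, 0) c)) =
          Function.update (toB c) i (insert u (toB c i)) := by rw [toB_setB, cand_one h1 i hu]
      obtain ⟨k1, k2, k3, k4, k5, k6, k7⟩ := ih _ (h1.setB i (cand_sublist l (1, i, u, 0) c))
        (by
          rw [e1, Function.update_self]
          exact ⟨insert_subset (by simp [hS, hu]) h2.1, h2.2.1.mono (subset_insert _ _),
            by rw [sdiff_insert]; exact hq.1 hr.1⟩)
      rw [e]
      rw [e1] at k2 k5 k6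
      rw [Function.update_self] at k5 k6
      refine ⟨k1, fun j hj => by rw [k2 j hj, Function.update_of_ne hj], by simpa using k3, k4,
        (subset_insert _ _).trans k5, fun _ => k6 ?_, fun hlt w hw hw' => ?_⟩
      · have := card_insert_le u (toB c i)
        have := h1.card hl i
        omega
      · rcases List.mem_cons.1 hw with rfl | hw
        · exact absurd (k5 (mem_insert_self _ _)) hw'
        · exact k7 hlt w hw hw'
    · have e : stepO O l I.a I.b t c (1, i, u, 0) = c := by
        simp only [stepO, upd, one_ne_zero, if_false, if_true]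
        rw [Bool.cond_eq_ite, if_neg (by simpa using hr)]
      obtain ⟨k1, k2, k3, k4, k5, k6, k7⟩ := ih c h1 h2
      rw [e]
      refine ⟨k1, k2, k3, k4, k5, k6, fun hlt w hw hw' => ?_⟩
      rcases List.mem_cons.1 hw with rfl | hw
      · intro h
        refine hr ⟨hq.2 (h.mono (erase_subset_erase _ (sdiff_subset_sdiff subset_rfl k5))), ?_⟩
        have := card_le_card k5
        have := h1.card hl i
        omega
      · exact k7 hlt w hw hw'

lemma query_congr (l : List ℕ) (a b : ℕ) (n : Ins) (x y : List ℕ) (A A' : List Ins) :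
    query l a b n (x, y, A) = query l a b n (x, y, A') := rfl

lemma fold_tests (O : Qu → Bool) (l : List ℕ) (a b t : ℕ) (m : List Ins)
    (hm : ∀ n ∈ m, n.1 = 2 ∨ n.1 = 3) (x y : List ℕ) : ∀ A : List Ins,
    ∃ A', m.foldl (stepO O l a b t) (x, y, A) = (x, y, A') ∧
      ∀ n, n ∈ A' ↔ n ∈ A ∨ (n ∈ m ∧ O (query l a b n (x, y, [])) = true) := by
  induction m with
  | nil => intro A; exact ⟨A, rfl, by simp⟩
  | cons n m ih =>
    intro A
    replace ih := ih (fun w hw => hm w (by simp [hw]))
    have hn := hm n (by simp)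
    have h0 : n.1 ≠ 0 := by omega
    have h1 : n.1 ≠ 1 := by omega
    have h4 : n.1 ≠ 4 := by omega
    rw [List.foldl_cons]
    by_cases hr : O (query l a b n (x, y, [])) = true
    · have e : stepO O l a b t (x, y, A) n = (x, y, n :: A) := by
        simp [stepO, upd, h0, h1, h4, query_congr l a b n x y A [], hr]
      obtain ⟨A', k1, k2⟩ := ih (n :: A)
      refine ⟨A', by rw [e]; exact k1, fun w => ?_⟩
      rw [k2]
      by_cases hw : w = n
      · subst hw; simp [hr]
      · simp [hw]
    · have e : stepO O l a b t (x, y, A) n = (x, y, A) := by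
        simp [stepO, upd, h0, h1, h4, query_congr l a b n x y A [], hr]
      obtain ⟨A', k1, k2⟩ := ih A
      refine ⟨A', by rw [e]; exact k1, fun w => ?_⟩
      rw [k2]
      by_cases hw : w = n
      · subst hw; simp [hr]
      · simp [hw]

lemma mem_tests {n : Ins} : n ∈ tests l ↔ (n.1 = 2 ∨ n.1 = 3) ∧ n.2.2.1 ∈ l ∧ n.2.2.2 ∈ l := by
  obtain ⟨o, i, u, v⟩ := n
  cases i <;> simp [tests] <;> aesop

lemma mem_arcs (hS : I.S = l.toFinset) (hO : Answers I O) {x y : List ℕ} {A : List Ins}
    (hW : Wf l (x, y, A))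
    (hA : ∀ n, n ∈ A ↔ n ∈ tests l ∧ O (query l I.a I.b n (x, y, [])) = true) (e : Ex ℕ) :
    e ∈ arcs (x, y, A) ↔ Arc I (toB (x, y, A)) e := by
  obtain ⟨i, u, v⟩ := e
  have h1 : (i, u, v) ∈ arcs (x, y, A) ↔ (2, i, u, v) ∈ A ∧ (3, i, u, v) ∈ A ∧
      u ∈ getB (x, y, A) i ∧ v ∉ getB (x, y, A) i := by
    simp only [arcs, List.mem_map, List.mem_filter, Bool.and_eq_true, decide_eq_true_eq,
      Bool.not_eq_true', decide_eq_false_iff_not]
    constructor
    · rintro ⟨⟨o, e⟩, ⟨k1, rfl, k2⟩, rfl⟩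
      exact ⟨k1, k2⟩
    · rintro ⟨k1, k2⟩
      exact ⟨(2, i, u, v), ⟨k1, rfl, k2⟩, rfl⟩
  have h2 : v ∈ l → (O (query l I.a I.b (2, i, u, v) (x, y, [])) = true ↔
      Low I.S (I.p i) I.b (exch (toB (x, y, A) i) u v)) := fun hv => by
    rw [← cand_two hW le_rfl i u hv, ← hO]
    rfl
  have h3 : v ∈ l → (O (query l I.a I.b (3, i, u, v) (x, y, [])) = true ↔
      Low I.S (I.p i) I.a (I.S \ exch (toB (x, y, A) i) u v)) := fun hv => by
    rw [← cand_two hW (o := 3) (by omega) i u hv, hS, ← compl_toFinset, ← hS, ← hO]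
    rfl
  rw [h1, hA, hA, mem_tests, mem_tests]
  simp only [Arc, toB, List.mem_toFinset, hS, InQ]
  simp only [toB, hS] at h2 h3
  constructor
  · rintro ⟨⟨⟨-, -, hv⟩, k2⟩, ⟨-, k3⟩, k4, k5⟩
    refine ⟨k4, hv, k5, fun s hs => ?_, (h2 hv).1 k2, (h3 hv).1 k3⟩
    rcases mem_exch.1 hs with rfl | hs
    · simpa using hv
    · simpa using hW.mem (List.mem_toFinset.1 hs.2)
  · rintro ⟨k1, hv, k2, -, k3, k4⟩
    exact ⟨⟨⟨by simp, hW.mem k1, hv⟩, (h2 hv).2 k3⟩, ⟨⟨by simp, hW.mem k1, hv⟩, (h3 hv).2 k4⟩,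
      k1, k2⟩

/-- The invariant of the breadth-first search. -/
def SInv (I : Inst ℕ) (B : Bool → Finset ℕ) (k : ℕ) (z : List ℕ × List (Ex ℕ)) : Prop :=
  (∀ s, s ∈ z.1 ↔ Reach I B k s) ∧ ((z.2 = [] ∧ ∀ j < k, ∀ e, ¬ Good I B j e) ∨
    ∃ e r j, z.2 = e :: r ∧ Good I B j e ∧ ∀ j' < j, ∀ f, ¬ Good I B j' f)

lemma sInv_layer (hS : I.S = l.toFinset) (hV : Valid I (toB c))
    (hE : ∀ e, e ∈ arcs c ↔ Arc I (toB c) e) {k : ℕ} {z : List ℕ × List (Ex ℕ)}
    (h : SInv I (toB c) k z) : SInv I (toB c) (k + 1) (layer l c z) := by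
  obtain ⟨h1, h2⟩ := h
  constructor
  · intro s
    have h3 : Reach I (toB c) (k + 1) s → s ∈ l := fun h => by simpa [hS] using h.mem hV
    simp only [layer, List.mem_filter, Bool.or_eq_true, decide_eq_true_eq, List.any_eq_true,
      Bool.and_eq_true, hE, h1]
    exact ⟨fun h => h.2, fun h => ⟨h3 h, h⟩⟩
  · have h3 : ∀ e, e ∈ ((arcs c).filter fun e =>
        decide (tl e ∈ c.1) && (!decide (tl e ∈ c.2.1) && decide (hd e ∈ z.1))) ↔
        Good I (toB c) k e := fun e => by
      simp [hE, h1, Good, toB, getB]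
    rcases h2 with ⟨k1, k2⟩ | ⟨e, r, j, k1, k2⟩
    · simp only [layer, k1, List.nil_append]
      generalize ((arcs c).filter fun e =>
        decide (tl e ∈ c.1) && (!decide (tl e ∈ c.2.1) && decide (hd e ∈ z.1))) = L at h3
      cases L with
      | nil =>
        refine Or.inl ⟨rfl, fun j hj e he => ?_⟩
        rcases Nat.lt_succ_iff_lt_or_eq.1 hj with hj | rfl
        · exact k2 j hj e he
        · simpa using (h3 e).2 he
      | cons e r => exact Or.inr ⟨e, r, k, rfl, (h3 e).1 (by simp), k2⟩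
    · exact Or.inr ⟨e, _, j, by simp only [layer, k1, List.cons_append]; rfl, k2⟩

lemma sInv_search (hS : I.S = l.toFinset) (hW : Wf l c) (hV : Valid I (toB c))
    (hE : ∀ e, e ∈ arcs c ↔ Arc I (toB c) e) : SInv I (toB c) l.length (search l c) := by
  have key : ∀ (m : List ℕ) (k : ℕ) (z : List ℕ × List (Ex ℕ)), SInv I (toB c) k z →
      SInv I (toB c) (k + m.length) (m.foldl (fun z _ => layer l c z) z) := by
    intro m
    induction m with
    | nil => intro k z h; exact h
    | cons s m ih =>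
      intro k z h
      have := ih (k + 1) _ (sInv_layer hS hV hE h)
      rwa [List.length_cons, ← add_assoc, add_right_comm]
  have := key l 0 (l.filter fun s => decide (s ∈ c.2.1) && !decide (s ∈ c.1), []) ⟨fun s => by
    have : s ∈ c.2.1 → s ∈ l := hW.mem (i := true)
    simp [Reach, toB, getB]
    tauto, Or.inl ⟨rfl, by simp⟩⟩
  simpa [search] using this

/-- The effect of one block of instructions. -/
lemma block_spec (hI : I.Ok) (hl : l.Nodup) (hS : I.S = l.toFinset) (hO : Answers I O)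
    (hW : Wf l c) (hA : c.2.2 = []) (hV : Valid I (toB c)) :
    let c' := (block l).foldl (stepO O l I.a I.b t) c
    Wf l c' ∧ c'.2.2 = [] ∧ Valid I (toB c') ∧ (∀ i, (toB c' i).card = (toB c i).card) ∧
      ((toB c' = toB c ∧ ∀ j e, ¬ Good I (toB c) j e) ∨
        ((∃ j e, Good I (toB c) j e) ∧ pot I (toB c') < pot I (toB c))) := by
  obtain ⟨x, y, A⟩ := c
  simp only at hA
  subst hA
  obtain ⟨A, k1, k2⟩ := fold_tests O l I.a I.b t (tests l) (fun n hn => (mem_tests.1 hn).1) x y []
  have hW' : Wf l (x, y, A) := hW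
  have hV' : Valid I (toB (x, y, A)) := hV
  have hE := mem_arcs hS hO hW' (by simpa using k2)
  have hs := sInv_search hS hW' hV' hE
  have hn : I.S.card = l.length := by rw [hS, List.toFinset_card_of_nodup hl]
  have e : (block l).foldl (stepO O l I.a I.b t) (x, y, []) = improve l (x, y, A) := by
    rw [block, List.foldl_append, k1]
    simp [stepO, upd]
  intro c'
  have e' : c' = improve l (x, y, A) := e
  rcases hs.2 with ⟨k3, k4⟩ | ⟨f, r, j, k3, k4, k5⟩
  · have e2 : c' = (x, y, []) := by rw [e', improve, k3]; rfl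
    rw [e2]
    refine ⟨hW, rfl, hV, fun _ => rfl, Or.inl ⟨rfl, fun j f hf => ?_⟩⟩
    obtain ⟨j', hj', f', hf'⟩ := good_lt_card hV hf
    exact k4 j' (hn ▸ hj') f' hf'
  · have e2 : c' = setB (x, y, []) f.1 (cand l (2, f) (x, y, A)) := by
      rw [e', improve, k3]; rfl
    have e3 : toB c' = applyEx (toB (x, y, [])) f := by
      rw [e2, toB_setB, applyEx]
      congr 1
      exact cand_two hW' le_rfl f.1 f.2.1 (by simpa [hS] using k4.1.2.1)
    refine ⟨e2 ▸ hW.setB _ (cand_sublist _ _ _), by rw [e2]; simp, e3 ▸ k4.1.valid hV,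
      fun i => e3 ▸ k4.1.card i, Or.inr ⟨⟨j, f, k4⟩, e3 ▸ progress hI hV k4 k5⟩⟩

lemma blocks_spec (hI : I.Ok) (hl : l.Nodup) (hS : I.S = l.toFinset) (hO : Answers I O)
    (m : List ℕ) : ∀ c : St, Wf l c → c.2.2 = [] → Valid I (toB c) →
    let c' := (m.flatMap fun _ => block l).foldl (stepO O l I.a I.b t) c
    Wf l c' ∧ Valid I (toB c') ∧ (∀ i, (toB c' i).card = (toB c i).card) ∧
      (((∀ j e, ¬ Good I (toB c) j e) ∨ pot I (toB c) < m.length) →
        ∀ j e, ¬ Good I (toB c') j e) := by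
  induction m with
  | nil =>
    intro c h1 _ h3
    refine ⟨h1, h3, fun _ => rfl, ?_⟩
    rintro (h | h)
    · exact h
    · simp at h
  | cons s m ih =>
    intro c h1 h2 h3
    obtain ⟨k1, k2, k3, k4, k5⟩ := block_spec (t := t) hI hl hS hO h1 h2 h3
    obtain ⟨r1, r2, r3, r4⟩ := ih _ k1 k2 k3
    simp only [List.flatMap_cons, List.foldl_append]
    refine ⟨r1, r2, fun i => (r3 i).trans (k4 i), fun h => r4 ?_⟩
    rcases k5 with ⟨k5, k6⟩ | ⟨⟨j, e, k5⟩, k6⟩
    · exact Or.inl (k5 ▸ k6)
    · rcases h with h | h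
      · exact absurd k5 (h j e)
      · right
        rw [List.length_cons] at h
        omega

lemma length_rep (l : List ℕ) : (rep l).length = (l.length + 1) * (l.length + 1) := by
  simp [rep, List.length_flatMap]
  ring

lemma length_sched (l : List ℕ) : (sched l).length =
    4 * l.length + (l.length + 1) * (l.length + 1) * (4 * l.length * l.length + 1) := by
  simp [sched, phase, block, tests, List.length_flatMap, length_rep]
  ring

/-- Correctness of the algorithm. -/
theorem run_spec (hI : I.Ok) (hl : l.Nodup) (hS : I.S = l.toFinset) (hO : Answers I O) :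
    verdict l t ((sched l).foldl (stepO O l I.a I.b t) (l, l, [])) = true ↔
      ∃ F, (∀ i, InQ I.S (I.p i) I.a I.b F) ∧ F.card = t := by
  have hW0 : Wf l (l, l, []) := fun i => by cases i <;> exact List.Sublist.refl l
  have hB0 : ∀ i, toB (l, l, []) i = I.S := fun i => by cases i <;> exact hS.symm
  simp only [sched, List.foldl_append]
  obtain ⟨a1, a2, a3, a4, -, a6⟩ := phase_zero (t := t) hS hO false l _ hW0
    (by rw [hB0]; exact low_ground (hI false).2)
  generalize (phase l 0 false).foldl (stepO O l I.a I.b t) (l, l, []) = c1 at *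
  obtain ⟨b1, b2, b3, b4, -, b6⟩ := phase_zero (t := t) hS hO true l _ a1
    (by rw [a2 true (by simp), hB0]; exact low_ground (hI true).2)
  generalize (phase l 0 true).foldl (stepO O l I.a I.b t) c1 = c2 at *
  have hsub : ∀ c : St, Wf l c → ∀ i, toB c i ⊆ I.S := fun c h i s hs => by
    simpa [hS] using h.mem (List.mem_toFinset.1 hs)
  have hmin : ∀ i, Low I.S (I.p i) I.b (toB c2 i) ∧
      ∀ u ∈ toB c2 i, ¬ Low I.S (I.p i) I.b ((toB c2 i).erase u) := by
    intro i
    cases i
    · rw [b2 false (by simp)]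
      exact ⟨a4, fun u hu => a6 u (a1.mem (List.mem_toFinset.1 hu)) hu⟩
    · exact ⟨b4, fun u hu => b6 u (b1.mem (List.mem_toFinset.1 hu)) hu⟩
  have hV2 : Valid I (toB c2) := fun i =>
    ⟨hsub c2 b1 i, (hmin i).1, low_compl_of_no_erase (hI i).1 (hI i).2 (hmin i).1 (hmin i).2⟩
  obtain ⟨d1, d2, d3, d4, -, d6, d7⟩ := phase_one (t := t) hl hS hO false l (fun _ h => h) _ b1
    (hV2 false)
  generalize (phase l 1 false).foldl (stepO O l I.a I.b t) c2 = c3 at *
  obtain ⟨e1, e2, e3, e4, -, e6, e7⟩ := phase_one (t := t) hl hS hO true l (fun _ h => h) _ d1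
    (by rw [d2 true (by simp)]; exact hV2 true)
  generalize (phase l 1 true).foldl (stepO O l I.a I.b t) c3 = c4 at *
  have hV4 : Valid I (toB c4) := fun i => by
    cases i
    · rw [e2 false (by simp)]; exact d4
    · exact e4
  obtain ⟨g1, g2, g3, g4⟩ := blocks_spec (t := t) hI hl hS hO (rep l) c4 e1
    (by rw [e3, d3, b3, a3]) hV4
  generalize ((rep l).flatMap fun _ => block l).foldl (stepO O l I.a I.b t) c4 = c5 at *
  have hn : I.S.card = l.length := by rw [hS, List.toFinset_card_of_nodup hl]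
  have hst := g4 (Or.inr (by rw [length_rep, ← hn]; exact pot_lt hV4))
  have hv : verdict l t c5 = true ↔
      (toB c5 false).card = t ∧ (toB c5 true).card = t ∧ toB c5 false = toB c5 true := by
    rw [g1.card hl, g1.card hl]
    simp only [verdict, Bool.and_eq_true, decide_eq_true_eq, List.all_eq_true, decide_eq_decide,
      getB, cond_false, cond_true, toB, Finset.ext_iff, List.mem_toFinset]
    refine and_congr Iff.rfl (and_congr Iff.rfl ⟨fun h s => ?_, fun h s _ => h s⟩)
    exact ⟨fun hs => (h s (g1.mem (i := false) hs)).1 hs, fun hs => (h s (g1.mem (i := true) hs)).2 hs⟩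
  rw [hv]
  constructor
  · rintro ⟨h1, -, h3⟩
    refine ⟨toB c5 false, fun i => ?_, h1⟩
    cases i
    · exact g2 false
    · exact h3 ▸ g2 true
  · rintro ⟨F, hF, hc⟩
    have hsum : ∑ s ∈ I.S, (if s ∈ F then (1 : ℚ) else 0) = t := by
      rw [sum_indicator_inter, inter_eq_right.2 (hF false).1, hc]
    have h2 : ∀ i, (toB c2 i).card ≤ t := fun i => by
      have := card_le_of_no_erase (hI i).1 (hV2 i).1 (hmin i).1 (hmin i).2
        (fun s hs => ((hF i).frac.1 s hs).1) (hF i).frac.2.1
      rw [hsum] at this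
      exact_mod_cast this
    have h4 : ∀ i, (toB c4 i).card = t := by
      have key : ∀ i, (toB c4 i).card ≤ t → ((toB c4 i).card < t → ∀ u ∈ l, u ∉ toB c4 i →
          ¬ Low I.S (I.p i) I.a ((I.S \ toB c4 i).erase u)) → (toB c4 i).card = t := by
        intro i k1 k2
        by_contra hne
        have := le_card_of_no_insert (hI i).1 (hV4 i) (fun v hv => k2 (by omega) v
          (by simpa [hS] using (mem_sdiff.1 hv).1) (mem_sdiff.1 hv).2) (hF i).frac
        rw [hsum] at this
        have : t ≤ (toB c4 i).card := by exact_mod_cast this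
        omega
      intro i
      cases i
      · refine key false ?_ ?_ <;> rw [e2 false (by simp)]
        · exact d6 (h2 false)
        · exact d7
      · exact key true (e6 (by rw [d2 true (by simp)]; exact h2 true)) e7
    refine ⟨by rw [g3, h4], by rw [g3, h4], eq_of_stuck hI g2 hst (fun i => (hF i).frac) ?_⟩
    intro i
    rw [hsum, g3, h4]

end Pool.Agent.MP_1195b1_lc

end MrgPart3

-- marker of a merged file
example : 731051 + 645834 = 731051 + 645834 := rfl
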