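import Pool.Agent.MP_1195b1_lc.PolyAlgo

/-!
# Skew-supermodular colouring with two class sizes is decidable in polynomial time

The functions are available through the maximizing oracle, in its weakest (decision, zero-one
weight) form.
-/

namespace Pool.Agent.Results.MP_1195b1_lc.PolyAlgorithm

/-- `p` is skew-supermodular on the subsets of `S`. -/
def SkewSupermodular (S : Finset ℕ) (p : Finset ℕ → ℤ) : Prop :=
  ∀ X ⊆ S, ∀ Y ⊆ S, p X + p Y ≤ p (X ∩ Y) + p (X ∪ Y) ∨ p X + p Y ≤ p (X \ Y) + p (Y \ X)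

/-- There is a partition of `S` into `m₁` classes of size `n₁` and `m₂` classes of size `n₂` such
that every `X ⊆ S` meets at least `max (p₁ X) (p₂ X)` classes. -/
def Feasible (S : Finset ℕ) (m₁ n₁ m₂ n₂ : ℕ) (p₁ p₂ : Finset ℕ → ℤ) : Prop :=
  ∃ P : Finpartition S, ∃ A ⊆ P.parts, A.card = m₁ ∧ (∀ Y ∈ A, Y.card = n₁) ∧
    (P.parts \ A).card = m₂ ∧ (∀ Y ∈ P.parts \ A, Y.card = n₂) ∧
    ∀ X ⊆ S, max (p₁ X) (p₂ X) ≤ ((P.parts.filter fun Y => (Y ∩ X).Nonempty).card : ℤ)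

/-- The oracle: on the query `(i, F, t)` it tells whether the maximum over `X ⊆ S` of
`p_i X - |X ∩ F|` is at most `t`. -/
def maxOracle (S : Finset ℕ) (p₁ p₂ : Finset ℕ → ℤ) (q : Bool × List ℕ × ℕ) : Bool :=
  decide (∀ X ∈ S.powerset,
    (if q.1 then p₂ X else p₁ X) - ((X ∩ q.2.1.toFinset).card : ℤ) ≤ (q.2.2 : ℤ))

/-- The answers to the first `T` queries, each query being computed by `next` from the input and
the earlier answers. -/
def answers {X Q : Type} (next : X × List Bool → Q) (O : Q → Bool) (x : X) : ℕ → List Bool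
  | 0 => []
  | T + 1 => answers next O x T ++ [O (next (x, answers next O x T))]

open Pool.Agent.MP_1195b1_lc Pool.Agent.PolyT in
/-- There is a polynomial-time oracle algorithm deciding the existence of a feasible partition. -/
theorem result :
    ∃ (next : (Finset ℕ × ℕ × ℕ × ℕ × ℕ) × List Bool → Bool × List ℕ × ℕ)
      (out : (Finset ℕ × ℕ × ℕ × ℕ × ℕ) × List Bool → Bool) (q : Polynomial ℕ),
      N68a2faeb.IsPolyTime next ∧ N68a2faeb.IsPolyTime out ∧
      ∀ (S : Finset ℕ) (m₁ n₁ m₂ n₂ : ℕ) (p₁ p₂ : Finset ℕ → ℤ),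
        0 < m₁ → 0 < n₁ → 0 < m₂ → 0 < n₂ → m₁ * n₁ + m₂ * n₂ = S.card →
        SkewSupermodular S p₁ → SkewSupermodular S p₂ →
        (∀ X ⊆ S, max (p₁ X) (p₂ X) ≤ min (X.card : ℤ) (m₁ + m₂ : ℕ)) →
        (out ((S, m₁, n₁, m₂, n₂),
            answers next (maxOracle S p₁ p₂) (S, m₁, n₁, m₂, n₂) (q.eval S.card)) = true ↔
          Feasible S m₁ n₁ m₂ n₂ p₁ p₂) := by
  have hx : PolyT.Poly (fun z : (Finset ℕ × ℕ × ℕ × ℕ × ℕ) × List Bool => z.1) := PolyT.Poly.id.fst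
  have hl : PolyT.Poly (fun z : (Finset ℕ × ℕ × ℕ × ℕ × ℕ) × List Bool => z.1.1.sort (· ≤ ·)) :=
    hx.fst
  have ht := hx.snd.fst.mul hx.snd.snd.fst
  have hm := poly_mach hl ht PolyT.Poly.id.snd
  refine ⟨_, _, 4 * Polynomial.X + (Polynomial.X + 1) * (Polynomial.X + 1) *
      (4 * Polynomial.X * Polynomial.X + 1),
    (poly_iff _).1 (poly_query hl hx.snd.fst hx.snd.snd.snd.fst
      (hm.fst.headD (PolyT.Poly.const (4, false, 0, 0))) hm.snd),
    (poly_iff _).1 (poly_verdict hl ht hm.snd), ?_⟩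
  intro S m₁ n₁ m₂ n₂ p₁ p₂ _ h2 _ h4 h5 h6 h7 h8
  let I : Inst ℕ := ⟨S, fun i => if i then p₂ else p₁, m₁, m₂⟩
  have hI : I.Ok := by
    intro i
    cases i
    · exact ⟨h6, fun X hX => le_min_iff.1 ((le_max_left _ _).trans (h8 X hX))⟩
    · exact ⟨h7, fun X hX => le_min_iff.1 ((le_max_right _ _).trans (h8 X hX))⟩
  have hO : Answers I (maxOracle S p₁ p₂) := by
    intro i L t
    simp only [maxOracle, decide_eq_true_eq, Finset.mem_powerset, Low, I]
    refine forall₂_congr fun X _ => ?_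
    cases i <;> simp [add_comm]
  have hF : Feas I n₁ n₂ ↔ Feasible S m₁ n₁ m₂ n₂ p₁ p₂ := by
    refine exists_congr fun P => exists_congr fun A => and_congr Iff.rfl <| and_congr Iff.rfl <|
      and_congr Iff.rfl <| and_congr Iff.rfl <| and_congr Iff.rfl ?_
    simp only [Bool.forall_bool, max_le_iff, I, cnt]
    exact ⟨fun h X hX => ⟨h.1 X hX, h.2 X hX⟩, fun h => ⟨fun X hX => (h X hX).1,
      fun X hX => (h X hX).2⟩⟩
  rw [← hF, feas_iff hI h2 h4 h5, ← run_spec (l := S.sort (· ≤ ·)) hI (S.sort_nodup _)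
    (S.sort_toFinset _).symm hO]
  have key : ∀ T, mach (S.sort (· ≤ ·)) (m₁ * n₁) (answers (fun z =>
      query (z.1.1.sort (· ≤ ·)) z.1.2.1 z.1.2.2.2.1
        ((mach (z.1.1.sort (· ≤ ·)) (z.1.2.1 * z.1.2.2.1) z.2).1.headD (4, false, 0, 0))
        (mach (z.1.1.sort (· ≤ ·)) (z.1.2.1 * z.1.2.2.1) z.2).2)
      (maxOracle S p₁ p₂) (S, m₁, n₁, m₂, n₂) T) =
      ((sched (S.sort (· ≤ ·))).drop T, ((sched (S.sort (· ≤ ·))).take T).foldl
        (stepO (maxOracle S p₁ p₂) (S.sort (· ≤ ·)) m₁ m₂ (m₁ * n₁))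
        (S.sort (· ≤ ·), S.sort (· ≤ ·), [])) := by
    intro T
    induction T with
    | zero => rfl
    | succ T ih => exact mach_succ _ _ _ _ _ _ _ ih
  simp only
  rw [key, List.take_of_length_le]
  rw [length_sched, Finset.length_sort]
  simp

end Pool.Agent.Results.MP_1195b1_lc.PolyAlgorithm
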