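import Mathlib
import Pool.Agent.Lib.helper72.PTNat

-- ======== part 0: formerly Pool.Agent.MP_1195b1_lc.Wolfe
section MrgPart0

/-!
# Conditional gradient steps in the base polytope of a submodular function
-/

namespace Pool.Agent.MP_1195b1_lc

open Finset

variable {S : Finset ℕ} {φ : Finset ℕ → ℤ}

/-- The elements before `v` in the order of increasing `X`. -/
def Pre (S : Finset ℕ) (X : ℕ → ℤ) (v : ℕ) : Finset ℕ :=
  S.filter fun w => X w < X v ∨ (X w = X v ∧ w < v)

/-- The elements up to `v` in the order of increasing `X`. -/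
def PreE (S : Finset ℕ) (X : ℕ → ℤ) (v : ℕ) : Finset ℕ :=
  S.filter fun w => X w < X v ∨ (X w = X v ∧ w ≤ v)

/-- The greedy base for the order of increasing `X`. -/
def gr (S : Finset ℕ) (φ : Finset ℕ → ℤ) (X : ℕ → ℤ) (v : ℕ) : ℤ :=
  φ (PreE S X v) - φ (Pre S X v)

/-- Submodularity on the subsets of `S`. -/
def Subm (S : Finset ℕ) (φ : Finset ℕ → ℤ) : Prop :=
  ∀ X ⊆ S, ∀ Y ⊆ S, φ (X ∩ Y) + φ (X ∪ Y) ≤ φ X + φ Y

/-- `X / P` lies in the base polytope. -/
def Base (S : Finset ℕ) (φ : Finset ℕ → ℤ) (X : ℕ → ℤ) (P : ℕ) : Prop :=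
  (∀ Y ⊆ S, ∑ v ∈ Y, X v ≤ P * (φ Y - φ ∅)) ∧ ∑ v ∈ S, X v = P * (φ S - φ ∅)

lemma notMem_pre (X : ℕ → ℤ) (a : ℕ) : a ∉ Pre S X a := by simp [Pre]

lemma preE_eq (X : ℕ → ℤ) {a : ℕ} (ha : a ∈ S) : PreE S X a = insert a (Pre S X a) := by
  ext w
  simp only [PreE, Pre, mem_filter, mem_insert]
  constructor
  · rintro ⟨h1, h2 | ⟨h2, h3⟩⟩
    · exact Or.inr ⟨h1, Or.inl h2⟩
    · rcases h3.eq_or_lt with h | h
      · exact Or.inl h
      · exact Or.inr ⟨h1, Or.inr ⟨h2, h⟩⟩
  · rintro (rfl | ⟨h1, h2 | ⟨h2, h3⟩⟩)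
    · exact ⟨ha, Or.inr ⟨rfl, le_rfl⟩⟩
    · exact ⟨h1, Or.inl h2⟩
    · exact ⟨h1, Or.inr ⟨h2, h3.le⟩⟩

lemma seg_ind (S : Finset ℕ) (X : ℕ → ℤ) (P : Finset ℕ → Prop) (h0 : P ∅)
    (hs : ∀ a ∈ S, P (Pre S X a) → P (PreE S X a)) : P S := by
  have key : ∀ U : Finset ℕ, U ⊆ S →
      (∀ a ∈ U, ∀ b ∈ S, X b < X a ∨ (X b = X a ∧ b < a) → b ∈ U) → P U := by
    intro U
    induction U using Finset.induction_on_max_value (fun v => toLex (X v, v)) with
    | empty => intro _ _; exact h0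
    | insert a U ha hmax ih =>
      intro hU hd
      have haS : a ∈ S := hU (mem_insert_self _ _)
      have hlt : ∀ x ∈ U, X x < X a ∨ (X x = X a ∧ x < a) := by
        intro x hx
        have h1 := hmax x hx
        have h2 : x ≠ a := fun e => ha (e ▸ hx)
        rw [Prod.Lex.le_iff] at h1
        simp only [ofLex_toLex] at h1
        omega
      have e : Pre S X a = U := by
        ext w
        simp only [Pre, mem_filter]
        constructor
        · rintro ⟨h1, h2⟩
          rcases mem_insert.1 (hd a (mem_insert_self _ _) w h1 h2) with h | h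
          · subst h; omega
          · exact h
        · exact fun h => ⟨hU (mem_insert_of_mem h), hlt w h⟩
      rw [← e, ← preE_eq X haS]
      refine hs a haS (e ▸ ih ((subset_insert _ _).trans hU) fun b hb c hc h => ?_)
      rcases mem_insert.1 (hd b (mem_insert_of_mem hb) c hc h) with h' | h'
      · subst h'
        have := hlt b hb
        omega
      · exact h'
  exact key S Subset.rfl fun _ _ _ hb _ => hb

lemma base_gr (hs : Subm S φ) (X : ℕ → ℤ) : Base S φ (gr S φ X) 1 := by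
  have h1 : ∑ v ∈ S, gr S φ X v = φ S - φ ∅ := by
    refine seg_ind S X (fun U => ∑ v ∈ U, gr S φ X v = φ U - φ ∅) (by simp) fun a ha ih => ?_
    conv_lhs => rw [preE_eq X ha]
    rw [sum_insert (notMem_pre X a), ih, gr]
    ring
  refine ⟨fun Y hY => ?_, by simpa using h1⟩
  have h2 : ∑ v ∈ Y ∩ S, gr S φ X v ≤ φ (Y ∩ S) - φ ∅ := by
    refine seg_ind S X (fun U => ∑ v ∈ Y ∩ U, gr S φ X v ≤ φ (Y ∩ U) - φ ∅) (by simp)
      fun a ha ih => ?_
    by_cases h : a ∈ Y
    · have e1 : Y ∩ PreE S X a = insert a (Y ∩ Pre S X a) := by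
        rw [preE_eq X ha, inter_insert_of_mem h]
      have hn : a ∉ Y ∩ Pre S X a := fun h' => notMem_pre X a (mem_inter.1 h').2
      have h3 := hs (insert a (Y ∩ Pre S X a))
        (insert_subset ha (inter_subset_left.trans hY)) (Pre S X a) (filter_subset _ _)
      have e2 : insert a (Y ∩ Pre S X a) ∩ Pre S X a = Y ∩ Pre S X a := by
        rw [insert_inter_of_notMem (notMem_pre X a), inter_assoc, inter_self]
      have e3 : insert a (Y ∩ Pre S X a) ∪ Pre S X a = PreE S X a := by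
        rw [preE_eq X ha, insert_union, union_eq_right.2 inter_subset_right]
      rw [e2, e3] at h3
      rw [e1, sum_insert hn, gr]
      linarith
    · rw [preE_eq X ha, inter_insert_of_notMem h]
      exact ih
  simpa [inter_eq_left.2 hY] using h2

/-- One conditional gradient step with step size `1 / K`. -/
def nxt (S : Finset ℕ) (φ : Finset ℕ → ℤ) (K : ℕ) (z : (ℕ → ℤ) × ℕ) : (ℕ → ℤ) × ℕ :=
  (fun v => ((K - 1 : ℕ) : ℤ) * z.1 v + ((max z.2 1 : ℕ) : ℤ) * gr S φ z.1 v,
    (K - 1) * z.2 + max z.2 1)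

/-- The test certifying that `w` lies in every minimizer. -/
def Cert (S : Finset ℕ) (φ : Finset ℕ → ℤ) (z : (ℕ → ℤ) × ℕ) (w : ℕ) : Prop :=
  ∃ v ∈ S, z.1 w + z.2 * (φ (PreE S z.1 v) - φ ∅) < ∑ u ∈ S, min (z.1 u) 0

lemma Base.nxt (hs : Subm S φ) (K : ℕ) {z : (ℕ → ℤ) × ℕ} (h : Base S φ z.1 z.2) :
    Base S φ (nxt S φ K z).1 (nxt S φ K z).2 := by
  obtain ⟨h1, h2⟩ := base_gr hs z.1
  simp only [Nat.cast_one, one_mul] at h1 h2
  refine ⟨fun Y hY => ?_, ?_⟩
  · simp only [MP_1195b1_lc.nxt, sum_add_distrib, ← mul_sum]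
    have a1 := mul_le_mul_of_nonneg_left (h.1 Y hY) (Nat.cast_nonneg (α := ℤ) (K - 1))
    have a2 := mul_le_mul_of_nonneg_left (h1 Y hY) (Nat.cast_nonneg (α := ℤ) (max z.2 1))
    rw [Nat.cast_add, Nat.cast_mul]
    linarith
  · simp only [MP_1195b1_lc.nxt, sum_add_distrib, ← mul_sum, h.2, h2]
    rw [Nat.cast_add, Nat.cast_mul]
    ring

lemma base_iter (hs : Subm S φ) (K k : ℕ) :
    Base S φ ((nxt S φ K)^[k] (0, 0)).1 ((nxt S φ K)^[k] (0, 0)).2 := by
  induction k with
  | zero => exact ⟨fun Y _ => by simp, by simp⟩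
  | succ k ih => rw [Function.iterate_succ_apply']; exact ih.nxt hs K

lemma sum_min_le (X : ℕ → ℤ) {B : Finset ℕ} (hB : B ⊆ S) :
    ∑ u ∈ S, min (X u) 0 ≤ ∑ u ∈ B, X u :=
  (sum_le_sum_of_subset_of_nonpos' hB fun _ _ _ => min_le_right _ _).trans
    (sum_le_sum fun _ _ => min_le_left _ _)

lemma good_sound {z : (ℕ → ℤ) × ℕ} (h : Base S φ z.1 z.2) {w : ℕ} (hw : w ∈ S)
    (hg : Cert S φ z w) {B : Finset ℕ} (hB : B ⊆ S) (hm : ∀ Y ⊆ S, φ B ≤ φ Y) : w ∈ B := by
  by_contra hn
  obtain ⟨v, -, hv⟩ := hg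
  have h1 := sum_min_le z.1 (insert_subset hw hB)
  rw [sum_insert hn] at h1
  have h2 := h.1 B hB
  have h3 := mul_le_mul_of_nonneg_left (sub_le_sub_right (hm (PreE S z.1 v) (filter_subset _ _))
    (φ ∅)) (Nat.cast_nonneg (α := ℤ) z.2)
  linarith

lemma gap_bound {X : ℕ → ℤ} {x : ℕ → ℝ} {γ θ : ℝ} (hθ : 0 < θ) (hθγ : 2 * S.card * θ ≤ γ)
    (hmono : ∀ v w, X v ≤ X w → x v ≤ x w)
    (hb : ∀ Y ⊆ S, ∑ v ∈ Y, x v ≤ (φ Y : ℝ) - φ ∅) (hS : ∑ v ∈ S, x v = (φ S : ℝ) - φ ∅)
    (hw : ∃ w ∈ S, x w ≤ -θ)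
    (hn : ∀ v ∈ S, ∑ u ∈ S, min (x u) 0 + γ ≤ (φ (PreE S X v) : ℝ) - φ ∅) :
    γ / 2 * θ ≤ ∑ v ∈ S, x v * (x v - gr S φ X v) := by
  have hγ : 0 ≤ γ := le_trans (by positivity) hθγ
  have key := seg_ind S X (fun U => ∀ t : ℝ, (∀ v ∈ U, x v ≤ t) → (∀ v ∈ S, v ∉ U → t ≤ x v) →
      γ / 2 * (max (min t 0) (-θ) + θ) ≤ ∑ v ∈ U, x v * (x v - gr S φ X v) +
        t * ((φ U : ℝ) - φ ∅ - ∑ v ∈ U, x v)) ?_ ?_
  · obtain ⟨m, -, hm⟩ := exists_max_image S x (by obtain ⟨w, hw, -⟩ := hw; exact ⟨w, hw⟩)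
    have := key (max (x m) 0) (fun v hv => (hm v hv).trans (le_max_left _ _))
      (fun v hv hv' => absurd hv hv')
    rw [min_eq_right (le_max_right _ _), max_eq_left (by linarith), hS] at this
    simpa using this
  · intro t _ ht
    obtain ⟨w, hw, hw'⟩ := hw
    have := ht w hw (by simp)
    rw [max_eq_right ((min_le_left _ _).trans (by linarith))]
    simp
  · intro a ha ih t h1 h2
    have hmem : a ∈ PreE S X a := by simp [PreE, ha]
    have ih' := ih (x a) (fun v hv => hmono _ _ (by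
        simp only [Pre, mem_filter] at hv; omega))
      (fun v hv hv' => hmono _ _ (by
        simp only [Pre, mem_filter, hv, true_and] at hv'; omega))
    have hD := hb (PreE S X a) (filter_subset _ _)
    have hat := h1 a hmem
    have e1 : ∑ v ∈ PreE S X a, x v * (x v - gr S φ X v) =
        x a * (x a - gr S φ X a) + ∑ v ∈ Pre S X a, x v * (x v - gr S φ X v) := by
      rw [preE_eq X ha, sum_insert (notMem_pre X a)]
    have e2 : ∑ v ∈ PreE S X a, x v = x a + ∑ v ∈ Pre S X a, x v := by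
      rw [preE_eq X ha, sum_insert (notMem_pre X a)]
    have e3 : (gr S φ X a : ℝ) = φ (PreE S X a) - φ (Pre S X a) := by simp [gr]
    have step : γ / 2 * (max (min t 0) (-θ) - max (min (x a) 0) (-θ)) ≤
        (t - x a) * ((φ (PreE S X a) : ℝ) - φ ∅ - ∑ v ∈ PreE S X a, x v) := by
      by_cases c : -θ < t ∧ x a < 0
      · have b1 : ∑ v ∈ PreE S X a, x v ≤ ∑ u ∈ S, min (x u) 0 + S.card * θ := by
          have b0 : PreE S X a ⊆ S := filter_subset _ _
          rw [← sum_sdiff b0]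
          have b2 : ∑ u ∈ PreE S X a, min (x u) 0 = ∑ u ∈ PreE S X a, x u :=
            sum_congr rfl fun u hu => min_eq_left (le_trans (hmono _ _ (by
              simp only [PreE, mem_filter] at hu; omega)) c.2.le)
          have b3 : ∑ _u ∈ S \ PreE S X a, -θ ≤ ∑ u ∈ S \ PreE S X a, min (x u) 0 :=
            sum_le_sum fun u hu => le_min
              (c.1.le.trans (h2 u (mem_sdiff.1 hu).1 (mem_sdiff.1 hu).2)) (by linarith)
          have b4 : ((S \ PreE S X a).card : ℝ) ≤ S.card := by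
            exact_mod_cast card_le_card sdiff_subset
          rw [sum_const, nsmul_eq_mul] at b3
          have b5 := mul_le_mul_of_nonneg_right b4 hθ.le
          rw [b2]
          linarith
        have b6 : γ / 2 ≤ (φ (PreE S X a) : ℝ) - φ ∅ - ∑ v ∈ PreE S X a, x v := by
          have := hn a ha
          linarith
        have b7 : max (min t 0) (-θ) - max (min (x a) 0) (-θ) ≤ t - x a := by
          rcases le_total t 0 with d1 | d1 <;> rcases le_total (x a) (-θ) with d2 | d2 <;>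
            simp only [min_def, max_def] <;> split_ifs <;> linarith [c.1, c.2]
        calc _ ≤ γ / 2 * (t - x a) := mul_le_mul_of_nonneg_left b7 (by linarith)
          _ ≤ _ := by rw [mul_comm]; exact mul_le_mul_of_nonneg_left b6 (by linarith)
      · have b7 : max (min t 0) (-θ) - max (min (x a) 0) (-θ) = 0 := by
          rcases not_and_or.1 c with d | d <;> simp only [min_def, max_def] <;> split_ifs <;>
            linarith [not_lt.1 d]
        rw [b7, mul_zero]
        exact mul_nonneg (by linarith) (by linarith)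
    rw [e2] at step
    rw [e1, e2, e3]
    nlinarith

lemma l1_bound {X : ℕ → ℤ} {P : ℕ} (h : Base S φ X P) {η G : ℤ} (hG : 0 ≤ G)
    (hη : ∀ v ∈ S, φ {v} - φ ∅ ≤ η) (hηG : η ≤ 2 * G) (hS : -G ≤ φ S - φ ∅) (hn : S.Nonempty) :
    ∑ v ∈ S, |X v| ≤ P * (5 * S.card * G) := by
  have h1 : ∀ v ∈ S, |X v| ≤ 2 * (P * (2 * G)) - X v := by
    intro v hv
    have a1 := h.1 {v} (singleton_subset_iff.2 hv)
    rw [sum_singleton] at a1
    have a2 := mul_le_mul_of_nonneg_left ((hη v hv).trans hηG) (Nat.cast_nonneg (α := ℤ) P)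
    have a3 : 0 ≤ (P : ℤ) * (2 * G) := by positivity
    rw [abs_le]
    constructor <;> linarith
  have h2 := sum_le_sum h1
  rw [sum_sub_distrib, sum_const, nsmul_eq_mul, h.2] at h2
  have h3 := mul_le_mul_of_nonneg_left hS (Nat.cast_nonneg (α := ℤ) P)
  have h4 : (1 : ℤ) ≤ S.card := by exact_mod_cast hn.card_pos
  have h5 : 0 ≤ (P : ℤ) * G := by positivity
  nlinarith

lemma sq_sum_le (y : ℕ → ℝ) {L : ℝ} (h : ∑ v ∈ S, |y v| ≤ L) : ∑ v ∈ S, y v ^ 2 ≤ L ^ 2 := by
  have h1 : ∑ v ∈ S, |y v| ^ 2 ≤ (∑ v ∈ S, |y v|) ^ 2 :=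
    sum_sq_le_sq_sum_of_nonneg fun _ _ => abs_nonneg _
  simp only [sq_abs] at h1
  exact h1.trans (pow_le_pow_left₀ (sum_nonneg fun _ _ => abs_nonneg _) h 2)

lemma drop_step (hs : Subm S φ) {η G : ℤ} (hG : 0 < G) (hη : ∀ v ∈ S, φ {v} - φ ∅ ≤ η)
    (hηG : η ≤ 2 * G) (hS : -G ≤ φ S - φ ∅) {B : Finset ℕ} (hB : B ⊆ S) (hBG : φ B - φ ∅ ≤ -G)
    {z : (ℕ → ℤ) × ℕ} (h : Base S φ z.1 z.2) (hP : 0 < z.2) (hng : ∀ w ∈ S, ¬ Cert S φ z w) :
    ∑ v ∈ S, (((nxt S φ (400 * S.card ^ 5) z).1 v : ℝ) / (nxt S φ (400 * S.card ^ 5) z).2) ^ 2 ≤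
      ∑ v ∈ S, ((z.1 v : ℝ) / z.2) ^ 2 - (G : ℝ) ^ 2 / (1600 * (S.card : ℝ) ^ 8) := by
  have hn : S.Nonempty := by
    rcases S.eq_empty_or_nonempty with e | e
    · rw [e, subset_empty] at hB
      rw [hB] at hBG
      omega
    · exact e
  have n1 : (1 : ℝ) ≤ S.card := by exact_mod_cast hn.card_pos
  have hP' : (0 : ℝ) < z.2 := by exact_mod_cast hP
  have hG' : (0 : ℝ) < G := by exact_mod_cast hG
  set n : ℝ := (S.card : ℝ) with hnn
  let x : ℕ → ℝ := fun v => z.1 v / z.2
  have hb : ∀ Y ⊆ S, ∑ v ∈ Y, x v ≤ (φ Y : ℝ) - φ ∅ := by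
    intro Y hY
    simp only [x, ← sum_div]
    rw [div_le_iff₀' hP']
    exact_mod_cast h.1 Y hY
  have hbS : ∑ v ∈ S, x v = (φ S : ℝ) - φ ∅ := by
    simp only [x, ← sum_div]
    rw [div_eq_iff hP'.ne', mul_comm]
    exact_mod_cast h.2
  have hmin : ∑ u ∈ S, min (x u) 0 = (∑ u ∈ S, min (z.1 u) 0 : ℤ) / (z.2 : ℝ) := by
    push_cast
    rw [sum_div]
    refine sum_congr rfl fun u _ => ?_
    rw [← min_div_div_right hP'.le, zero_div]
  have hneg : ∑ u ∈ S, min (x u) 0 ≤ -G := by
    rw [hmin, div_le_iff₀' hP']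
    have := (sum_min_le z.1 hB).trans ((h.1 B hB).trans
      (mul_le_mul_of_nonneg_left hBG (Nat.cast_nonneg (α := ℤ) z.2)))
    exact_mod_cast this
  obtain ⟨w, hw, hw'⟩ : ∃ w ∈ S, x w ≤ -(G / n) := by
    by_contra hc
    push Not at hc
    have : ∑ _u ∈ S, -((G : ℝ) / n) < ∑ u ∈ S, min (x u) 0 :=
      sum_lt_sum_of_nonempty hn fun u hu => lt_min (hc u hu) (by
        have : 0 < (G : ℝ) / n := by positivity
        linarith)
    rw [sum_const, nsmul_eq_mul, ← hnn, mul_neg, mul_div_cancel₀ _ (by positivity)] at this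
    linarith
  have hgap := gap_bound (φ := φ) (X := z.1) (x := x) (γ := G / n) (θ := G / (2 * n ^ 2))
    (by positivity) (le_of_eq (by rw [← hnn]; field_simp))
    (fun v w h => div_le_div_of_nonneg_right (by exact_mod_cast h) hP'.le) hb hbS
    ⟨w, hw, hw'.trans (neg_le_neg (div_le_div_of_nonneg_left hG'.le (by positivity)
      (by nlinarith)))⟩
    (fun v hv => by
      have a1 := hng w hw
      simp only [Cert, not_exists, not_and, not_lt] at a1
      have a2 : ((∑ u ∈ S, min (z.1 u) 0 : ℤ) : ℝ) ≤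
          z.1 w + z.2 * ((φ (PreE S z.1 v) : ℝ) - φ ∅) := by exact_mod_cast a1 v hv
      have a3 : ∑ u ∈ S, min (x u) 0 ≤ x w + ((φ (PreE S z.1 v) : ℝ) - φ ∅) := by
        rw [hmin, div_le_iff₀' hP', mul_add]
        simp only [x]
        rw [mul_div_cancel₀ _ hP'.ne']
        exact a2
      linarith)
  have l1 : ∑ v ∈ S, |x v| ≤ 5 * n * G := by
    have := l1_bound h hG.le hη hηG hS hn
    simp only [x, abs_div, abs_of_pos hP', ← sum_div]
    rw [div_le_iff₀' hP', hnn]
    exact_mod_cast this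
  have l2 : ∑ v ∈ S, |(gr S φ z.1 v : ℝ)| ≤ 5 * n * G := by
    have := l1_bound (base_gr hs z.1) hG.le hη hηG hS hn
    rw [Nat.cast_one, one_mul] at this
    rw [hnn]
    exact_mod_cast this
  have l3 : ∑ v ∈ S, (x v - gr S φ z.1 v) ^ 2 ≤ (10 * n * G) ^ 2 := by
    refine sq_sum_le _ ((sum_le_sum fun v _ => abs_sub _ _).trans ?_)
    rw [sum_add_distrib]
    linarith
  have hK : 1 ≤ 400 * S.card ^ 5 := Nat.mul_pos (by norm_num) (pow_pos hn.card_pos _)
  have e : ∀ v, ((nxt S φ (400 * S.card ^ 5) z).1 v : ℝ) / (nxt S φ (400 * S.card ^ 5) z).2 =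
      x v - (x v - gr S φ z.1 v) / (400 * n ^ 5) := by
    intro v
    simp only [nxt, max_eq_left (Nat.one_le_iff_ne_zero.2 hP.ne'), x]
    push_cast [Nat.cast_sub hK]
    rw [← hnn]
    have : (400 * n ^ 5 - 1) * (z.2 : ℝ) + z.2 = 400 * n ^ 5 * z.2 := by ring
    rw [this]
    field_simp
    ring
  have e2 : ∑ v ∈ S, (x v - (x v - gr S φ z.1 v) / (400 * n ^ 5)) ^ 2 =
      ∑ v ∈ S, x v ^ 2 - 2 / (400 * n ^ 5) * ∑ v ∈ S, x v * (x v - gr S φ z.1 v) +
        (1 / (400 * n ^ 5)) ^ 2 * ∑ v ∈ S, (x v - gr S φ z.1 v) ^ 2 := by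
    rw [mul_sum, mul_sum, ← sum_sub_distrib, ← sum_add_distrib]
    exact sum_congr rfl fun v _ => by ring
  simp only [e]
  rw [e2]
  have a1 := mul_le_mul_of_nonneg_left hgap (by positivity : 0 ≤ 2 / (400 * n ^ 5))
  have a2 := mul_le_mul_of_nonneg_left l3 (by positivity : 0 ≤ (1 / (400 * n ^ 5)) ^ 2)
  have a3 : 2 / (400 * n ^ 5) * (G / n / 2 * (G / (2 * n ^ 2))) =
      2 * ((G : ℝ) ^ 2 / (1600 * n ^ 8)) := by field_simp; ring
  have a4 : (1 / (400 * n ^ 5)) ^ 2 * (10 * n * G) ^ 2 = (G : ℝ) ^ 2 / (1600 * n ^ 8) := by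
    field_simp; ring
  simp only [x] at *
  linarith

theorem good_complete (hs : Subm S φ) {η : ℤ} (hη0 : 0 < η) (hη : ∀ v ∈ S, φ {v} - φ ∅ ≤ η)
    {B₀ : Finset ℕ} (hB₀ : B₀ ⊆ S) (hB₀' : 2 * (φ B₀ - φ ∅) ≤ -η) :
    ∃ k < 40002 * S.card ^ 10, ∃ w ∈ S, Cert S φ ((nxt S φ (400 * S.card ^ 5))^[k] (0, 0)) w := by
  obtain ⟨B, hB, hm⟩ := exists_min_image S.powerset φ ⟨∅, by simp⟩
  simp only [mem_powerset] at hB hm
  have h0 := hm B₀ hB₀
  have hn : S.Nonempty := by
    rcases S.eq_empty_or_nonempty with e | e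
    · rw [e, subset_empty] at hB₀
      rw [hB₀] at hB₀'
      omega
    · exact e
  have n0 := hn.card_pos
  have n1 : (1 : ℝ) ≤ S.card := by exact_mod_cast n0
  by_contra hc
  push Not at hc
  set G : ℤ := φ ∅ - φ B with hG
  have hG0 : 0 < G := by omega
  have hS := hm S Subset.rfl
  set f := nxt S φ (400 * S.card ^ 5) with hf
  have hP : ∀ k, 0 < (f^[k + 1] (0, 0)).2 := by
    intro k
    rw [Function.iterate_succ_apply']
    simp only [hf, nxt]
    omega
  have key : ∀ k, k ≤ 40000 * S.card ^ 10 + 1 →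
      ∑ v ∈ S, (((f^[k + 1] (0, 0)).1 v : ℝ) / (f^[k + 1] (0, 0)).2) ^ 2 ≤
        (5 * S.card * G : ℝ) ^ 2 - k * ((G : ℝ) ^ 2 / (1600 * (S.card : ℝ) ^ 8)) := by
    intro k hk
    induction k with
    | zero =>
      have hP' : (0 : ℝ) < (f^[0 + 1] (0, 0)).2 := by exact_mod_cast hP 0
      have := l1_bound (base_iter hs (400 * S.card ^ 5) (0 + 1)) hG0.le hη (by omega)
        (by omega) hn
      rw [Nat.cast_zero, zero_mul, sub_zero]
      refine sq_sum_le _ ?_
      simp only [abs_div, abs_of_pos hP', ← sum_div]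
      rw [div_le_iff₀' hP']
      exact_mod_cast this
    | succ k ih =>
      have h10 : 1 ≤ S.card ^ 10 := pow_pos n0 _
      have := drop_step hs hG0 hη (by omega) (by omega) hB (by omega)
        (base_iter hs (400 * S.card ^ 5) (k + 1)) (hP k) (hc (k + 1) (by omega))
      rw [Function.iterate_succ_apply' f (k + 1)]
      refine this.trans ?_
      have := ih (by omega)
      push_cast
      linarith
  have h1 := key _ le_rfl
  have h2 : (0 : ℝ) ≤ ∑ v ∈ S, (((f^[40000 * S.card ^ 10 + 1 + 1] (0, 0)).1 v : ℝ) /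
      (f^[40000 * S.card ^ 10 + 1 + 1] (0, 0)).2) ^ 2 := sum_nonneg fun _ _ => sq_nonneg _
  have hG' : (0 : ℝ) < G := by exact_mod_cast hG0
  have h3 : ((40000 * S.card ^ 10 + 1 : ℕ) : ℝ) * ((G : ℝ) ^ 2 / (1600 * (S.card : ℝ) ^ 8)) =
      (5 * S.card * G : ℝ) ^ 2 + (G : ℝ) ^ 2 / (1600 * (S.card : ℝ) ^ 8) := by
    push_cast
    field_simp
    ring
  have h4 : 0 < (G : ℝ) ^ 2 / (1600 * (S.card : ℝ) ^ 8) := by positivity
  linarith

end Pool.Agent.MP_1195b1_lc

end MrgPart0

-- ======== part 1: formerly Pool.Agent.MP_1195b1_lc.Ring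
section MrgPart1

/-!
# Submodular minimization with polynomially many evaluations

The loop over ring families of Iwata, Fleischer and Fujishige, with conditional gradient steps
as the subroutine that finds an element common to all minimizers.
-/

namespace Pool.Agent.MP_1195b1_lc

open Finset

/-- Lists of arcs. -/
abbrev Rel := List (ℕ × ℕ)

/-- States of the conditional gradient loop. -/
abbrev FS := List (ℕ × ℤ) × ℕ × List ℕ

def pre (Xs : List (ℕ × ℤ)) (z : ℕ × ℤ) : List ℕ :=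
  (Xs.filter fun y => decide (y.2 < z.2) || (decide (y.2 = z.2) && decide (y.1 < z.1))).map
    Prod.fst

def preE (Xs : List (ℕ × ℤ)) (z : ℕ × ℤ) : List ℕ :=
  (Xs.filter fun y => decide (y.2 < z.2) || (decide (y.2 = z.2) && decide (y.1 ≤ z.1))).map
    Prod.fst

def fwUpd (l : List ℕ) (K : ℕ) (f0 : ℤ) (st : FS) (vals : List ((ℕ × ℤ) × ℤ × ℤ)) : FS :=
  (vals.map fun y =>
      (y.1.1, ((K - 1 : ℕ) : ℤ) * y.1.2 + ((max st.2.1 1 : ℕ) : ℤ) * (y.2.2 - y.2.1)),
    (K - 1) * st.2.1 + max st.2.1 1,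
    l.filter fun v => decide (v ∈ st.2.2) || st.1.any fun z => decide (z.1 = v) &&
      vals.any fun y => decide (z.2 + (st.2.1 : ℤ) * (y.2.2 - f0) +
        (((st.1.map fun u => (-u.2).toNat).sum : ℕ) : ℤ) < 0))

def fwStep (f : List ℕ → ℤ) (l : List ℕ) (f0 : ℤ) (st : FS) : FS :=
  fwUpd l (400 * l.length ^ 5) f0 st
    ((st.1.take l.length).map fun z => (z, f (pre st.1 z), f (preE st.1 z)))

def fw (f : List ℕ → ℤ) (l : List ℕ) (C : List Unit) (s : ℕ) : ℕ :=
  (C.foldl (fun st _ => fwStep f l (f []) st) (l.map fun v => (v, 0), 0, [])).2.2.headD s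

lemma foldl_unit {σ : Type} (F : σ → σ) (C : List Unit) (s : σ) :
    C.foldl (fun st _ => F st) s = F^[C.length] s := by
  induction C generalizing s with
  | nil => rfl
  | cons _ C ih => simp [ih]

lemma pre_map (l : List ℕ) (X : ℕ → ℤ) (v : ℕ) : pre (l.map fun u => (u, X u)) (v, X v) =
    l.filter fun w => decide (X w < X v) || (decide (X w = X v) && decide (w < v)) := by
  simp [pre, List.filter_map, Function.comp_def]

lemma preE_map (l : List ℕ) (X : ℕ → ℤ) (v : ℕ) : preE (l.map fun u => (u, X u)) (v, X v) =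
    l.filter fun w => decide (X w < X v) || (decide (X w = X v) && decide (w ≤ v)) := by
  simp [preE, List.filter_map, Function.comp_def]

lemma fwStep_spec {f : List ℕ → ℤ} {φ : Finset ℕ → ℤ} {l : List ℕ} (hl : l.Nodup)
    (hf : ∀ Y : List ℕ, Y.Nodup → f Y = φ Y.toFinset) (z : (ℕ → ℤ) × ℕ) (F : List ℕ) :
    ∃ F', fwStep f l (φ ∅) (l.map fun u => (u, z.1 u), z.2, F) =
      (l.map fun u => (u, (nxt l.toFinset φ (400 * l.toFinset.card ^ 5) z).1 u),
        (nxt l.toFinset φ (400 * l.toFinset.card ^ 5) z).2, F') ∧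
      ∀ v, v ∈ F' ↔ v ∈ l ∧ (v ∈ F ∨ Cert l.toFinset φ z v) := by
  have e1 : ∀ v, f (pre (l.map fun u => (u, z.1 u)) (v, z.1 v)) = φ (Pre l.toFinset z.1 v) := by
    intro v
    rw [pre_map, hf _ (hl.filter _)]
    congr 1
    ext w
    simp [Pre]
  have e2 : ∀ v, f (preE (l.map fun u => (u, z.1 u)) (v, z.1 v)) = φ (PreE l.toFinset z.1 v) := by
    intro v
    rw [preE_map, hf _ (hl.filter _)]
    congr 1
    ext w
    simp [PreE]
  have e3 : (((l.map fun u => (-z.1 u).toNat).sum : ℕ) : ℤ) =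
      -∑ u ∈ l.toFinset, min (z.1 u) 0 := by
    rw [← List.sum_toFinset _ hl, ← sum_neg_distrib]
    push_cast
    exact sum_congr rfl fun u _ => by omega
  have e4 : (l.map fun u => (u, z.1 u)).take l.length = l.map fun u => (u, z.1 u) :=
    List.take_of_length_le (by simp)
  refine ⟨_, Prod.ext ?_ (Prod.ext ?_ rfl), fun v => ?_⟩
  · simp only [fwStep, fwUpd, e4, List.map_map, Function.comp_def, e1, e2, nxt, gr,
      List.toFinset_card_of_nodup hl]
  · simp only [fwStep, fwUpd, nxt, List.toFinset_card_of_nodup hl]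
  · simp only [fwStep, fwUpd, e4, List.map_map, Function.comp_def, e1, e2, e3, List.mem_filter,
      List.any_map, Bool.or_eq_true, decide_eq_true_eq, List.any_eq_true, Bool.and_eq_true, Cert,
      List.mem_toFinset]
    refine and_congr_right fun hv => or_congr_right ⟨?_, ?_⟩
    · rintro ⟨w, -, rfl, u, hu, h⟩
      exact ⟨u, hu, by linarith⟩
    · rintro ⟨u, hu, h⟩
      exact ⟨v, hv, rfl, u, hu, by linarith⟩

lemma fw_spec {f : List ℕ → ℤ} {φ : Finset ℕ → ℤ} {l : List ℕ} (hl : l.Nodup)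
    (hf : ∀ Y : List ℕ, Y.Nodup → f Y = φ Y.toFinset) (hs : Subm l.toFinset φ) {η : ℤ}
    (hη0 : 0 < η) (hη : ∀ v ∈ l.toFinset, φ {v} - φ ∅ ≤ η) {B₀ : Finset ℕ}
    (hB₀ : B₀ ⊆ l.toFinset) (hB₀' : 2 * (φ B₀ - φ ∅) ≤ -η) {C : List Unit}
    (hC : C.length = 40002 * l.length ^ 10) (s : ℕ) {B : Finset ℕ} (hB : B ⊆ l.toFinset)
    (hm : ∀ Y ⊆ l.toFinset, φ B ≤ φ Y) : fw f l C s ∈ B := by
  have key : ∀ k, ∃ F, (fwStep f l (φ ∅))^[k] (l.map fun v => (v, 0), 0, []) =
      (l.map fun u => (u, ((nxt l.toFinset φ (400 * l.toFinset.card ^ 5))^[k] (0, 0)).1 u),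
        ((nxt l.toFinset φ (400 * l.toFinset.card ^ 5))^[k] (0, 0)).2, F) ∧
      ∀ v, v ∈ F ↔ v ∈ l ∧ ∃ j < k,
        Cert l.toFinset φ ((nxt l.toFinset φ (400 * l.toFinset.card ^ 5))^[j] (0, 0)) v := by
    intro k
    induction k with
    | zero => exact ⟨[], rfl, by simp⟩
    | succ k ih =>
      obtain ⟨F, h1, h2⟩ := ih
      obtain ⟨F', h3, h4⟩ := fwStep_spec hl hf
        ((nxt l.toFinset φ (400 * l.toFinset.card ^ 5))^[k] (0, 0)) F
      refine ⟨F', by rw [Function.iterate_succ_apply', h1, h3, Function.iterate_succ_apply'],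
        fun v => ?_⟩
      rw [h4, h2]
      constructor
      · rintro ⟨a, ⟨-, j, hj, b⟩ | b⟩
        · exact ⟨a, j, by omega, b⟩
        · exact ⟨a, k, by omega, b⟩
      · rintro ⟨a, j, hj, b⟩
        rcases (Nat.lt_succ_iff.1 hj).eq_or_lt with rfl | h
        · exact ⟨a, Or.inr b⟩
        · exact ⟨a, Or.inl ⟨a, j, h, b⟩⟩
  obtain ⟨F, h1, h2⟩ := key C.length
  obtain ⟨k, hk, w, hw, hg⟩ := good_complete hs hη0 hη hB₀ hB₀'
  rw [List.toFinset_card_of_nodup hl, ← hC] at hk
  have h3 : w ∈ F := (h2 w).2 ⟨List.mem_toFinset.1 hw, k, hk, hg⟩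
  have h4 : F.headD s ∈ F := by
    cases F with
    | nil => simp at h3
    | cons a F => simp
  rw [fw, foldl_unit, hf [] List.nodup_nil, List.toFinset_nil, h1]
  obtain ⟨h5, j, -, h6⟩ := (h2 _).1 h4
  exact good_sound (base_iter hs _ j) (List.mem_toFinset.2 h5) h6 hB hm

section Ring

variable {S : Finset ℕ} {g : Finset ℕ → ℤ} {E : Rel} {s : ℕ}

def Hi (S : Finset ℕ) (E : Rel) (s u : ℕ) : Finset ℕ :=
  S.filter fun b => (s, b) ∈ E ∨ (u, b) ∈ E

def Lo (S : Finset ℕ) (E : Rel) (s u : ℕ) : Finset ℕ :=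
  S.filter fun b => (s, b) ∈ E ∨ ((u, b) ∈ E ∧ (b, u) ∉ E)

def Core (S : Finset ℕ) (E : Rel) (A Y : Finset ℕ) : Finset ℕ :=
  S.filter fun v => ∀ b ∈ S, (v, b) ∈ E → b ∈ A ∨ b ∈ Y

def Phi (g : Finset ℕ → ℤ) (S : Finset ℕ) (E : Rel) (A : Finset ℕ) (η : ℤ) (Y : Finset ℕ) : ℤ :=
  g (Core S E A Y) + η * ((Y \ Core S E A Y).card : ℕ)

/-- Subsets of `S` containing `s` and closed under the arcs. -/
def Closed (S : Finset ℕ) (E : Rel) (s : ℕ) (B : Finset ℕ) : Prop :=
  B ⊆ S ∧ s ∈ B ∧ ∀ a ∈ B, ∀ b ∈ S, (a, b) ∈ E → b ∈ B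

/-- Submodularity on the subsets of `S` containing `s`. -/
def SubmAt (S : Finset ℕ) (s : ℕ) (g : Finset ℕ → ℤ) : Prop :=
  ∀ X ⊆ S, ∀ Y ⊆ S, s ∈ X → s ∈ Y → g (X ∩ Y) + g (X ∪ Y) ≤ g X + g Y

/-- The arcs form a preorder on `S`. -/
def Pord (S : Finset ℕ) (E : Rel) : Prop :=
  (∀ a ∈ S, (a, a) ∈ E) ∧ ∀ a b c, (a, b) ∈ E → (b, c) ∈ E → (a, c) ∈ E

lemma closed_hi (hE : Pord S E) (hs : s ∈ S) (u : ℕ) : Closed S E s (Hi S E s u) := by
  refine ⟨filter_subset _ _, by simp [Hi, hs, hE.1 s hs], fun a ha b hb h => ?_⟩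
  simp only [Hi, mem_filter] at ha ⊢
  exact ⟨hb, ha.2.imp (fun h' => hE.2 _ _ _ h' h) fun h' => hE.2 _ _ _ h' h⟩

lemma closed_lo (hE : Pord S E) (hs : s ∈ S) (u : ℕ) : Closed S E s (Lo S E s u) := by
  refine ⟨filter_subset _ _, by simp [Lo, hs, hE.1 s hs], fun a ha b hb h => ?_⟩
  simp only [Lo, mem_filter] at ha ⊢
  exact ⟨hb, ha.2.imp (fun h' => hE.2 _ _ _ h' h) fun h' =>
    ⟨hE.2 _ _ _ h'.1 h, fun h'' => h'.2 (hE.2 _ _ _ h h'')⟩⟩

lemma Closed.hi_subset {B : Finset ℕ} (hB : Closed S E s B) {u : ℕ} (hu : u ∈ B) :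
    Hi S E s u ⊆ B := by
  intro b hb
  simp only [Hi, mem_filter] at hb
  rcases hb.2 with h | h
  · exact hB.2.2 s hB.2.1 b hb.1 h
  · exact hB.2.2 u hu b hb.1 h

lemma Closed.inter {B B' : Finset ℕ} (h : Closed S E s B) (h' : Closed S E s B') :
    Closed S E s (B ∩ B') :=
  ⟨inter_subset_left.trans h.1, mem_inter.2 ⟨h.2.1, h'.2.1⟩, fun a ha b hb e =>
    mem_inter.2 ⟨h.2.2 a (mem_inter.1 ha).1 b hb e, h'.2.2 a (mem_inter.1 ha).2 b hb e⟩⟩

lemma Closed.union {B B' : Finset ℕ} (h : Closed S E s B) (h' : Closed S E s B') :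
    Closed S E s (B ∪ B') :=
  ⟨union_subset h.1 h'.1, mem_union_left _ h.2.1, fun a ha b hb e =>
    (mem_union.1 ha).elim (fun k => mem_union_left _ (h.2.2 a k b hb e))
      fun k => mem_union_right _ (h'.2.2 a k b hb e)⟩

lemma closed_step (hg : SubmAt S s g) (hE : Pord S E) (hs : s ∈ S) {η : ℤ} (h0 : 0 ≤ η)
    (hη : ∀ u ∈ S, g (Hi S E s u) - g (Lo S E s u) ≤ η) {B' : Finset ℕ} (hB' : Closed S E s B') :
    ∀ (k : ℕ) (B : Finset ℕ), Closed S E s B → B ⊆ B' → (B' \ B).card = k →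
      g B' ≤ g B + η * ((B' \ B).card : ℕ) := by
  intro k
  induction k using Nat.strong_induction_on with
  | _ k ih =>
    intro B hB hBB hk
    rcases (B' \ B).eq_empty_or_nonempty with e | e
    · rw [Subset.antisymm (sdiff_eq_empty_iff_subset.1 e) hBB]
      simp
    · obtain ⟨u, hu, hmin⟩ := exists_min_image (B' \ B)
        (fun u => (S.filter fun b => (u, b) ∈ E).card) e
      obtain ⟨hu1, hu2⟩ := mem_sdiff.1 hu
      have huS := hB'.1 hu1
      have e1 : B ∩ Hi S E s u = Lo S E s u := by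
        ext b
        simp only [Hi, Lo, mem_inter, mem_filter]
        constructor
        · rintro ⟨h1, h2, h3⟩
          exact ⟨h2, h3.imp_right fun h4 => ⟨h4, fun h5 => hu2 (hB.2.2 b h1 u huS h5)⟩⟩
        · rintro ⟨h1, h2 | ⟨h2, h3⟩⟩
          · exact ⟨hB.2.2 s hB.2.1 b h1 h2, h1, Or.inl h2⟩
          · refine ⟨by_contra fun h4 => ?_, h1, Or.inr h2⟩
            have h5 := hmin b (mem_sdiff.2 ⟨hB'.2.2 u hu1 b h1 h2, h4⟩)
            refine absurd h5 (not_le.2 (card_lt_card ⟨fun c hc => ?_, fun h6 => ?_⟩))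
            · simp only [mem_filter] at hc ⊢
              exact ⟨hc.1, hE.2 _ _ _ h2 hc.2⟩
            · exact h3 (mem_filter.1 (h6 (mem_filter.2 ⟨huS, hE.1 u huS⟩))).2
      have h1 := hg B hB.1 _ (closed_hi hE hs u).1 hB.2.1 (closed_hi hE hs u).2.1
      have h2 : (B' \ (B ∪ Hi S E s u)).card < (B' \ B).card := by
        refine card_lt_card ⟨sdiff_subset_sdiff Subset.rfl subset_union_left, fun h => ?_⟩
        exact (mem_sdiff.1 (h hu)).2 (mem_union_right _ (by simp [Hi, huS, hE.1 u huS]))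
      have h3 := ih _ (hk ▸ h2) _ (hB.union (closed_hi hE hs u))
        (union_subset hBB (hB'.hi_subset hu1)) rfl
      have h4 := hη u huS
      have h5 : (((B' \ (B ∪ Hi S E s u)).card : ℕ) : ℤ) + 1 ≤ ((B' \ B).card : ℕ) := by
        exact_mod_cast h2
      rw [e1] at h1
      nlinarith

lemma closed_core (hE : Pord S E) {A : Finset ℕ} (hA : Closed S E s A) (Y : Finset ℕ) :
    Closed S E s (Core S E A Y) ∧ A ⊆ Core S E A Y ∧ Core S E A Y ⊆ A ∪ Y := by
  have h1 : A ⊆ Core S E A Y := fun a ha =>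
    mem_filter.2 ⟨hA.1 ha, fun b hb h => Or.inl (hA.2.2 a ha b hb h)⟩
  refine ⟨⟨filter_subset _ _, h1 hA.2.1, fun a ha b hb h => mem_filter.2 ⟨hb, fun c hc h' =>
    (mem_filter.1 ha).2 c hc (hE.2 _ _ _ h h')⟩⟩, h1, fun v hv => ?_⟩
  obtain ⟨h2, h3⟩ := mem_filter.1 hv
  exact mem_union.2 (h3 v h2 (hE.1 v h2))

lemma phi_le (hg : SubmAt S s g) (hE : Pord S E) (hs : s ∈ S) {η : ℤ} (h0 : 0 ≤ η)
    (hη : ∀ u ∈ S, g (Hi S E s u) - g (Lo S E s u) ≤ η) {A : Finset ℕ} (hA : Closed S E s A)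
    {Y B : Finset ℕ} (hB : Closed S E s B) (hAB : A ⊆ B) (hBY : B ⊆ A ∪ Y) :
    Phi g S E A η Y ≤ g B + η * ((Y \ B).card : ℕ) := by
  obtain ⟨h1, -, h3⟩ := closed_core hE hA Y
  have h4 : B ⊆ Core S E A Y := fun v hv =>
    mem_filter.2 ⟨hB.1 hv, fun b hb h => mem_union.1 (hBY (hB.2.2 v hv b hb h))⟩
  have h5 := closed_step hg hE hs h0 hη h1 _ B hB h4 rfl
  have h6 : (Core S E A Y \ B).card + (Y \ Core S E A Y).card ≤ (Y \ B).card := by
    rw [← card_union_of_disjoint (disjoint_sdiff.mono_left sdiff_subset)]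
    refine card_le_card fun v hv => ?_
    simp only [mem_union, mem_sdiff] at hv ⊢
    rcases hv with ⟨a, b⟩ | ⟨a, b⟩
    · exact ⟨(mem_union.1 (h3 a)).resolve_left fun h => b (hAB h), b⟩
    · exact ⟨a, fun h => b (h4 h)⟩
  have h7 : (((Core S E A Y \ B).card : ℕ) : ℤ) + ((Y \ Core S E A Y).card : ℕ) ≤
      ((Y \ B).card : ℕ) := by exact_mod_cast h6
  unfold Phi
  nlinarith

lemma phi_closed (hE : Pord S E) {η : ℤ} {A : Finset ℕ} (hA : Closed S E s A) {B Y : Finset ℕ}
    (hB : Closed S E s B) (hY : Y ⊆ B) (hAB : A ∪ Y = B) : Phi g S E A η Y = g B := by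
  have e : Core S E A Y = B := Subset.antisymm (hAB ▸ (closed_core hE hA Y).2.2) fun v hv =>
    mem_filter.2 ⟨hB.1 hv, fun b hb h => mem_union.1 (hAB ▸ hB.2.2 v hv b hb h)⟩
  simp [Phi, e, sdiff_eq_empty_iff_subset.2 hY]

lemma subm_phi (hg : SubmAt S s g) (hE : Pord S E) (hs : s ∈ S) {η : ℤ} (h0 : 0 ≤ η)
    (hη : ∀ u ∈ S, g (Hi S E s u) - g (Lo S E s u) ≤ η) {A : Finset ℕ} (hA : Closed S E s A) :
    Subm S (Phi g S E A η) := by
  intro X _ Y _
  obtain ⟨a1, a2, a3⟩ := closed_core hE hA X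
  obtain ⟨b1, b2, b3⟩ := closed_core hE hA Y
  have h1 := phi_le hg hE hs h0 hη hA (Y := X ∩ Y) (a1.inter b1) (subset_inter a2 b2)
    (by rw [union_inter_distrib_left]; exact inter_subset_inter a3 b3)
  have h2 := phi_le hg hE hs h0 hη hA (Y := X ∪ Y) (a1.union b1) (a2.trans subset_union_left)
    (union_subset (a3.trans (union_subset_union Subset.rfl subset_union_left))
      (b3.trans (union_subset_union Subset.rfl subset_union_right)))
  have h3 := hg _ a1.1 _ b1.1 a1.2.1 b1.2.1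
  have e1 : Phi g S E A η X = g (Core S E A X) + η * ((X \ Core S E A X).card : ℕ) := rfl
  have e2 : Phi g S E A η Y = g (Core S E A Y) + η * ((Y \ Core S E A Y).card : ℕ) := rfl
  generalize Core S E A X = I at *
  generalize Core S E A Y = J at *
  have h4 : ((X ∩ Y) \ (I ∩ J)).card + ((X ∪ Y) \ (I ∪ J)).card ≤
      (X \ I).card + (Y \ J).card := by
    rw [← card_union_add_card_inter, ← card_union_add_card_inter (X \ I)]
    refine Nat.add_le_add (card_le_card fun v => ?_) (card_le_card fun v => ?_) <;>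
      simp only [mem_union, mem_inter, mem_sdiff] <;> tauto
  have h5 : ((((X ∩ Y) \ (I ∩ J)).card : ℕ) : ℤ) + (((X ∪ Y) \ (I ∪ J)).card : ℕ) ≤
      ((X \ I).card : ℕ) + ((Y \ J).card : ℕ) := by exact_mod_cast h4
  nlinarith

end Ring

def prs (l : List ℕ) : Rel := l.flatMap fun a => l.map fun b => (a, b)

def hi (l : List ℕ) (E : Rel) (s u : ℕ) : List ℕ :=
  l.filter fun b => decide ((s, b) ∈ E) || decide ((u, b) ∈ E)

def lo (l : List ℕ) (E : Rel) (s u : ℕ) : List ℕ :=
  l.filter fun b => decide ((s, b) ∈ E) || (decide ((u, b) ∈ E) && !decide ((b, u) ∈ E))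

def core (l : List ℕ) (E : Rel) (A Y : List ℕ) : List ℕ :=
  l.filter fun v => l.all fun b => !decide ((v, b) ∈ E) || (decide (b ∈ A) || decide (b ∈ Y))

def phi (ev : List ℕ → ℤ) (l : List ℕ) (E : Rel) (A : List ℕ) (η : ℤ) (Y : List ℕ) : ℤ :=
  ev (core l E A Y) + η * ((Y.filter fun v => !decide (v ∈ core l E A Y)).length : ℕ)

def pick (ds : List (ℕ × ℤ × ℤ)) (s : ℕ) : ℕ × ℤ × ℤ :=
  (ds.filter fun d => ds.all fun e => decide (e.2.1 - e.2.2 ≤ d.2.1 - d.2.2)).headD (s, 0, 0)

def src (s : ℕ) (z : ℤ) (d : ℕ × ℤ × ℤ) : ℕ :=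
  if 2 * (d.2.2 - z) ≤ d.2.2 - d.2.1 then s else d.1

def addArc (l : List ℕ) (E : Rel) (u w : ℕ) : Rel :=
  (prs l).filter fun p => decide (p ∈ E) || (decide ((p.1, u) ∈ E) && decide ((w, p.2) ∈ E))

/-- The values read at the start of a round. -/
def probe (ev : List ℕ → ℤ) (l : List ℕ) (E : Rel) (s : ℕ) : (ℤ × ℤ) × ℕ × ℤ × ℤ :=
  ((ev (hi l E s s), ev l), pick (l.map fun u => (u, ev (hi l E s u), ev (lo l E s u))) s)

def finish (l : List ℕ) (E : Rel) (s : ℕ) (c : ℤ) (r : (ℤ × ℤ) × ℕ × ℤ × ℤ) (w : ℕ) : Rel × Bool :=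
  (bif decide (r.1.1 < c) || decide (r.2.2.1 - r.2.2.2 ≤ 0) then E
    else addArc l E (src s r.1.1 r.2) w, decide (r.1.1 < c) || decide (r.1.2 < c))

def round (ev : List ℕ → ℤ) (l : List ℕ) (s : ℕ) (c : ℤ) (C : List Unit) (E : Rel) : Rel × Bool :=
  finish l E s c (probe ev l E s)
    (fw (phi ev l E (hi l E s (src s (probe ev l E s).1.1 (probe ev l E s).2))
      ((probe ev l E s).2.2.1 - (probe ev l E s).2.2.2)) l C s)

def sfm (ev : List ℕ → ℤ) (l : List ℕ) (s : ℕ) (c : ℤ) (C D : List Unit) : Bool :=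
  (D.foldl (fun st _ => round ev l s c C st.1)
    ((prs l).filter fun p => decide (p.1 = p.2), false)).2

lemma mem_prs {l : List ℕ} {p : ℕ × ℕ} : p ∈ prs l ↔ p.1 ∈ l ∧ p.2 ∈ l := by
  obtain ⟨a, b⟩ := p
  simp [prs]

lemma toFinset_hi (l : List ℕ) (E : Rel) (s u : ℕ) :
    (hi l E s u).toFinset = Hi l.toFinset E s u := by
  ext; simp [hi, Hi]

lemma toFinset_lo (l : List ℕ) (E : Rel) (s u : ℕ) :
    (lo l E s u).toFinset = Lo l.toFinset E s u := by
  ext; simp [lo, Lo]

lemma toFinset_core (l : List ℕ) (E : Rel) (A Y : List ℕ) :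
    (core l E A Y).toFinset = Core l.toFinset E A.toFinset Y.toFinset := by
  ext; simp [core, Core, imp_iff_not_or]

lemma pick_spec {ds : List (ℕ × ℤ × ℤ)} (h : ds ≠ []) (s : ℕ) :
    pick ds s ∈ ds ∧ ∀ e ∈ ds, e.2.1 - e.2.2 ≤ (pick ds s).2.1 - (pick ds s).2.2 := by
  obtain ⟨d, hd, hm⟩ := exists_max_image ds.toFinset (fun e => e.2.1 - e.2.2)
    (by simpa using h)
  simp only [List.mem_toFinset] at hd hm
  have h1 : d ∈ ds.filter fun d => ds.all fun e => decide (e.2.1 - e.2.2 ≤ d.2.1 - d.2.2) := by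
    simpa [hd] using fun a b c h => by simpa using hm (a, b, c) h
  have h2 : pick ds s ∈
      ds.filter fun d => ds.all fun e => decide (e.2.1 - e.2.2 ≤ d.2.1 - d.2.2) := by
    unfold pick
    generalize (ds.filter fun d => ds.all fun e =>
      decide (e.2.1 - e.2.2 ≤ d.2.1 - d.2.2)) = m at h1
    cases m with
    | nil => simp at h1
    | cons a m => simp
  simpa only [List.mem_filter, List.all_eq_true, decide_eq_true_eq] using h2

/-- The invariant of the loop. -/
def Inv (S : Finset ℕ) (g : Finset ℕ → ℤ) (s : ℕ) (E : Rel) : Prop :=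
  Pord S E ∧ (∀ p ∈ E, p ∈ S ×ˢ S) ∧
    ∀ B ⊆ S, s ∈ B → (∀ Y ⊆ S, s ∈ Y → g B ≤ g Y) → Closed S E s B

lemma round_spec {ev : List ℕ → ℤ} {g : Finset ℕ → ℤ} {l : List ℕ} (hl : l.Nodup) {s : ℕ}
    (hs : s ∈ l) (hev : ∀ Y, ev Y = g Y.toFinset) (hg : SubmAt l.toFinset s g) {c : ℤ}
    (hc : g l.toFinset ≤ c) {C : List Unit} (hC : C.length = 40002 * l.length ^ 10) {E : Rel}
    (hE : Inv l.toFinset g s E) :
    Inv l.toFinset g s (round ev l s c C E).1 ∧
      (((round ev l s c C E).1 = E ∧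
        ((round ev l s c C E).2 = true ↔ ∃ B ⊆ l.toFinset, s ∈ B ∧ g B < c)) ∨
      E.toFinset.card < (round ev l s c C E).1.toFinset.card) := by
  set S := l.toFinset with hS
  have hsS : s ∈ S := List.mem_toFinset.2 hs
  obtain ⟨p1, p2⟩ := pick_spec (ds := l.map fun u => (u, ev (hi l E s u), ev (lo l E s u)))
    (by simpa using List.ne_nil_of_mem hs) s
  obtain ⟨u, hu, e⟩ := List.mem_map.1 p1
  have e0 : probe ev l E s = ((g (Hi S E s s), g S), u, g (Hi S E s u), g (Lo S E s u)) := by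
    rw [probe, ← e]
    simp only [hev, toFinset_hi, toFinset_lo, hS]
  have hη : ∀ v ∈ S, g (Hi S E s v) - g (Lo S E s v) ≤ g (Hi S E s u) - g (Lo S E s u) := by
    intro v hv
    have := p2 _ (List.mem_map.2 ⟨v, List.mem_toFinset.1 hv, rfl⟩)
    rw [← e] at this
    simpa only [hev, toFinset_hi, toFinset_lo, hS] using this
  obtain ⟨B₁, hB₁, hm₁⟩ := exists_min_image (S.powerset.filter fun B => s ∈ B) g
    ⟨S, by simp [hsS]⟩
  simp only [mem_filter, mem_powerset, and_imp] at hB₁ hm₁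
  have hcl := hE.2.2 B₁ hB₁.1 hB₁.2 hm₁
  have hSc : Closed S E s S := ⟨Subset.rfl, hsS, fun _ _ _ hb _ => hb⟩
  have hZ := closed_hi hE.1 hsS s
  simp only [round, finish, e0]
  by_cases stop : g (Hi S E s s) < c ∨ g (Hi S E s u) - g (Lo S E s u) ≤ 0
  · have e1 : (decide (g (Hi S E s s) < c) ||
        decide (g (Hi S E s u) - g (Lo S E s u) ≤ 0)) = true := by
      simpa only [Bool.or_eq_true, decide_eq_true_eq] using stop
    rw [e1, cond_true]
    refine ⟨hE, Or.inl ⟨rfl, ?_⟩⟩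
    simp only [Bool.or_eq_true, decide_eq_true_eq]
    constructor
    · rintro (h | h)
      · exact ⟨_, hZ.1, hZ.2.1, h⟩
      · exact ⟨S, Subset.rfl, hsS, h⟩
    · rintro ⟨B, h1, h2, h3⟩
      refine stop.imp_right fun h => ?_
      have := closed_step hg hE.1 hsS le_rfl (fun v hv => (hη v hv).trans h) hSc _ B₁ hcl
        hB₁.1 rfl
      have := hm₁ B h1 h2
      omega
  · have e1 : (decide (g (Hi S E s s) < c) ||
        decide (g (Hi S E s u) - g (Lo S E s u) ≤ 0)) = false := by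
      simpa only [Bool.or_eq_false_iff, decide_eq_false_iff_not, not_or] using stop
    rw [e1, cond_false]
    rw [not_or, not_lt, not_le] at stop
    set η := g (Hi S E s u) - g (Lo S E s u) with hηd
    set a := src s (g (Hi S E s s)) (u, g (Hi S E s u), g (Lo S E s u)) with ha
    have haS : a ∈ S := by
      rw [ha, src]
      split_ifs
      · exact hsS
      · exact List.mem_toFinset.2 hu
    have hA := closed_hi hE.1 hsS a
    have f0 : Phi g S E (Hi S E s a) η ∅ = g (Hi S E s a) :=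
      phi_closed hE.1 hA hA (empty_subset _) (union_empty _)
    obtain ⟨B₀, b1, b2, b3⟩ : ∃ B₀, Closed S E s B₀ ∧ Hi S E s a ⊆ B₀ ∧
        2 * (g B₀ - g (Hi S E s a)) ≤ -η := by
      rw [ha, src]
      split_ifs with h
      · exact ⟨Lo S E s u, closed_lo hE.1 hsS u,
          (closed_lo hE.1 hsS u).hi_subset (closed_lo hE.1 hsS u).2.1, by
            simp only at h; omega⟩
      · exact ⟨S, hSc, filter_subset _ _, by simp only at h ⊢; omega⟩
    have spec : ∀ B ⊆ S, (∀ Y ⊆ S, Phi g S E (Hi S E s a) η B ≤ Phi g S E (Hi S E s a) η Y) →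
        fw (phi ev l E (hi l E s a) η) l C s ∈ B := by
      intro B hB hm
      refine fw_spec (φ := Phi g S E (Hi S E s a) η) hl (fun Y hY => ?_)
        (subm_phi hg hE.1 hsS stop.2.le hη hA) stop.2 (fun v _ => ?_) b1.1 ?_ hC s hB hm
      · rw [phi, Phi, hev, toFinset_core, toFinset_hi,
          ← List.toFinset_card_of_nodup (hY.filter _)]
        congr 4
        ext v
        simp [← toFinset_hi, ← toFinset_core, hS]
      · have h1 := phi_le hg hE.1 hsS stop.2.le hη hA (Y := {v}) hA Subset.rfl subset_union_left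
        have h2 : ((({v} \ Hi S E s a).card : ℕ) : ℤ) ≤ 1 := by
          exact_mod_cast (card_le_card sdiff_subset).trans_eq (card_singleton v)
        rw [f0]
        nlinarith [stop.2]
      · rw [f0, phi_closed hE.1 hA b1 Subset.rfl (union_eq_right.2 b2)]
        exact b3
    set w := fw (phi ev l E (hi l E s a) η) l C s with hw
    have low : ∀ B, Closed S E s B → Hi S E s a ⊆ B →
        (∀ Y, Closed S E s Y → Hi S E s a ⊆ Y → g B ≤ g Y) → w ∈ B \ Hi S E s a := by
      intro B h1 h2 h3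
      refine spec _ (sdiff_subset.trans h1.1) fun Y _ => ?_
      rw [phi_closed hE.1 hA h1 sdiff_subset (union_sdiff_of_subset h2)]
      obtain ⟨k1, k2, -⟩ := closed_core hE.1 hA Y
      have := h3 _ k1 k2
      have : 0 ≤ η * ((Y \ Core S E (Hi S E s a) Y).card : ℕ) :=
        mul_nonneg stop.2.le (Nat.cast_nonneg _)
      unfold Phi
      omega
    obtain ⟨hwS, hwA⟩ : w ∈ S ∧ w ∉ Hi S E s a := by
      classical
      obtain ⟨B, hB, hm⟩ := exists_min_image
        (S.powerset.filter fun B => Closed S E s B ∧ Hi S E s a ⊆ B) g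
        ⟨S, by simp [hSc, hA.1]⟩
      simp only [mem_filter, mem_powerset, and_imp] at hB hm
      have := mem_sdiff.1 (low B hB.2.1 hB.2.2 fun Y h1 h2 => hm Y h1.1 h1 h2)
      exact ⟨hB.1 this.1, this.2⟩
    have mem : ∀ p, p ∈ addArc l E a w ↔ p ∈ E ∨ ((p.1, a) ∈ E ∧ (w, p.2) ∈ E) := by
      intro p
      simp only [addArc, List.mem_filter, mem_prs, Bool.or_eq_true, Bool.and_eq_true,
        decide_eq_true_eq, and_iff_right_iff_imp, ← List.mem_toFinset (l := l), ← hS]
      rintro (h | ⟨h, h'⟩)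
      · exact mem_product.1 (hE.2.1 p h)
      · exact ⟨(mem_product.1 (hE.2.1 _ h)).1, (mem_product.1 (hE.2.1 _ h')).2⟩
    refine ⟨⟨⟨fun v hv => (mem _).2 (Or.inl (hE.1.1 v hv)), fun x y z h1 h2 => ?_⟩,
      fun p hp => ?_, fun B h1 h2 h3 => ⟨h1, h2, fun x hx y hy h => ?_⟩⟩,
      Or.inr (card_lt_card ⟨fun p hp => ?_, fun h => hwA ?_⟩)⟩
    · rw [mem] at h1 h2 ⊢
      rcases h1 with h1 | ⟨h1, h1'⟩ <;> rcases h2 with h2 | ⟨h2, h2'⟩
      · exact Or.inl (hE.1.2 _ _ _ h1 h2)
      · exact Or.inr ⟨hE.1.2 _ _ _ h1 h2, h2'⟩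
      · exact Or.inr ⟨h1, hE.1.2 _ _ _ h1' h2⟩
      · exact Or.inr ⟨h1, h2'⟩
    · have := mem_prs.1 (List.mem_filter.1 hp).1
      exact mem_product.2 ⟨List.mem_toFinset.2 this.1, List.mem_toFinset.2 this.2⟩
    · have hB := hE.2.2 B h1 h2 h3
      rcases (mem _).1 h with h | ⟨h, h'⟩
      · exact hB.2.2 x hx y hy h
      · have k1 := hB.hi_subset (hB.2.2 x hx a haS h)
        exact hB.2.2 w (mem_sdiff.1 (low B hB k1 fun Y k2 _ => h3 Y k2.1 k2.2.1)).1 y hy h'
    · exact List.mem_toFinset.2 ((mem _).2 (Or.inl (List.mem_toFinset.1 hp)))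
    · have := h (List.mem_toFinset.2 ((mem (a, w)).2 (Or.inr ⟨hE.1.1 a haS, hE.1.1 w hwS⟩)))
      exact mem_filter.2 ⟨hwS, Or.inr (List.mem_toFinset.1 this)⟩

theorem sfm_spec {ev : List ℕ → ℤ} {g : Finset ℕ → ℤ} {l : List ℕ} (hl : l.Nodup) {s : ℕ}
    (hs : s ∈ l) (hev : ∀ Y, ev Y = g Y.toFinset) (hg : SubmAt l.toFinset s g) {c : ℤ}
    (hc : g l.toFinset ≤ c) {C D : List Unit} (hC : C.length = 40002 * l.length ^ 10)
    (hD : D.length = l.length * l.length + 1) :
    sfm ev l s c C D = true ↔ ∃ B ⊆ l.toFinset, s ∈ B ∧ g B < c := by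
  let F : Rel × Bool → Rel × Bool := fun st => round ev l s c C st.1
  let z : Rel × Bool := ((prs l).filter fun p => decide (p.1 = p.2), false)
  have key : ∀ k, Inv l.toFinset g s (F^[k] z).1 ∧ (k ≤ (F^[k] z).1.toFinset.card ∨
      (F (F^[k] z) = F^[k] z ∧
        ((F^[k] z).2 = true ↔ ∃ B ⊆ l.toFinset, s ∈ B ∧ g B < c))) := by
    intro k
    induction k with
    | zero =>
      refine ⟨⟨⟨fun a ha => ?_, fun a b c h1 h2 => ?_⟩, fun p hp => ?_,
        fun B h1 h2 _ => ⟨h1, h2, fun a ha b _ h => ?_⟩⟩, Or.inl (Nat.zero_le _)⟩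
      · simpa [z, mem_prs] using ha
      · simp only [z, Function.iterate_zero, id, List.mem_filter, decide_eq_true_eq] at h1 h2 ⊢
        rw [h1.2]
        exact h2
      · have := mem_prs.1 (List.mem_filter.1 hp).1
        exact mem_product.2 ⟨List.mem_toFinset.2 this.1, List.mem_toFinset.2 this.2⟩
      · simp only [z, Function.iterate_zero, id, List.mem_filter, decide_eq_true_eq] at h
        exact h.2 ▸ ha
    | succ k ih =>
      rw [Function.iterate_succ_apply']
      obtain ⟨h1, h2⟩ := round_spec hl hs hev hg hc hC ih.1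
      refine ⟨h1, ?_⟩
      rcases ih.2 with h3 | h3
      · rcases h2 with h2 | h2
        · exact Or.inr ⟨by simp only [F, h2.1], h2.2⟩
        · exact Or.inl (Nat.succ_le_of_lt (h3.trans_lt h2))
      · rw [h3.1]
        exact Or.inr h3
  rw [sfm, foldl_unit F, hD]
  obtain ⟨h1, h2 | h2⟩ := key (l.length * l.length + 1)
  · have := card_le_card (fun p hp => h1.2.1 p (List.mem_toFinset.1 hp) :
      (F^[l.length * l.length + 1] z).1.toFinset ⊆ _)
    rw [card_product, List.toFinset_card_of_nodup hl] at this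
    omega
  · exact h2.2

end Pool.Agent.MP_1195b1_lc

end MrgPart1

-- ======== part 2: formerly Pool.Agent.MP_1195b1_lc.Oracle
section MrgPart2

/-!
# Polynomial-time oracle computations

`OC f T` says that the functional `f O x` is computed by a polynomial-time machine that asks the
oracle `O` exactly `T x` adaptive queries.
-/

namespace Pool.Agent.MP_1195b1_lc

open Pool.Agent.PolyT N487b59b3

section IntOps

variable {α : Type} [N487b59b3 α]

theorem poly_int_iff {f : α → ℤ} :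
    PolyT.Poly f ↔ PolyT.Poly (fun a => ((f a).toNat, (-f a).toNat)) := Iff.rfl

theorem poly_pos {f : α → ℤ} (h : PolyT.Poly f) : PolyT.Poly (fun a => (f a).toNat) :=
  (poly_int_iff.1 h).fst

theorem poly_neg {f : α → ℤ} (h : PolyT.Poly f) : PolyT.Poly (fun a => (-f a).toNat) :=
  (poly_int_iff.1 h).snd

theorem poly_diff {f g : α → ℕ} (hf : PolyT.Poly f) (hg : PolyT.Poly g) :
    PolyT.Poly (fun a => (f a : ℤ) - (g a : ℤ)) :=
  poly_int_iff.2 (((hf.sub hg).pair (hg.sub hf)).congr fun a => by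
    ext <;> simp only <;> omega)

theorem poly_cast {f : α → ℕ} (hf : PolyT.Poly f) : PolyT.Poly (fun a => (f a : ℤ)) :=
  (poly_diff hf (PolyT.Poly.const 0)).congr fun a => by simp

theorem poly_iadd {f g : α → ℤ} (hf : PolyT.Poly f) (hg : PolyT.Poly g) :
    PolyT.Poly (fun a => f a + g a) :=
  (poly_diff ((poly_pos hf).add (poly_pos hg)) ((poly_neg hf).add (poly_neg hg))).congr
    fun a => by omega

theorem poly_isub {f g : α → ℤ} (hf : PolyT.Poly f) (hg : PolyT.Poly g) :
    PolyT.Poly (fun a => f a - g a) :=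
  (poly_diff ((poly_pos hf).add (poly_neg hg)) ((poly_neg hf).add (poly_pos hg))).congr
    fun a => by omega

theorem poly_imul {f g : α → ℤ} (hf : PolyT.Poly f) (hg : PolyT.Poly g) :
    PolyT.Poly (fun a => f a * g a) :=
  (poly_diff (((poly_pos hf).mul (poly_pos hg)).add ((poly_neg hf).mul (poly_neg hg)))
    (((poly_pos hf).mul (poly_neg hg)).add ((poly_neg hf).mul (poly_pos hg)))).congr fun a => by
      have h1 : f a = ((f a).toNat : ℤ) - ((-f a).toNat : ℤ) := by omega
      have h2 : g a = ((g a).toNat : ℤ) - ((-g a).toNat : ℤ) := by omega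
      generalize (f a).toNat = x at *
      generalize (-f a).toNat = y at *
      generalize (g a).toNat = z at *
      generalize (-g a).toNat = w at *
      rw [h1, h2]
      push_cast
      ring

theorem poly_ilt {f g : α → ℤ} (hf : PolyT.Poly f) (hg : PolyT.Poly g) :
    PolyT.Poly (fun a => decide (f a < g a)) :=
  (((poly_pos hf).add (poly_neg hg)).lt ((poly_neg hf).add (poly_pos hg))).congr fun a => by
    simp only [decide_eq_decide]
    omega

theorem poly_ile {f g : α → ℤ} (hf : PolyT.Poly f) (hg : PolyT.Poly g) :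
    PolyT.Poly (fun a => decide (f a ≤ g a)) :=
  (poly_ilt hg hf).not.congr fun a => by
    by_cases h : f a ≤ g a
    · simp [h]
    · simp [h, not_le.1 h]

theorem poly_imin {f g : α → ℤ} (hf : PolyT.Poly f) (hg : PolyT.Poly g) :
    PolyT.Poly (fun a => min (f a) (g a)) :=
  (PolyT.Poly.ite (poly_ile hf hg) hf hg).congr fun _ => (min_def _ _).symm

theorem enc_int_le {z : ℤ} {k : ℕ} (h : z.natAbs < 2 ^ k) : (bitEncode z).length ≤ 3 * k + 1 := by
  have e : bitEncode z = bitEncode (z.toNat, (-z).toNat) := rfl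
  rw [e, length_enc_pair]
  have h1 := length_enc_nat_le (n := z.toNat) (k := k) (by omega)
  have h2 := length_enc_nat_le (n := (-z).toNat) (k := k) (by omega)
  simp only at h1 h2 ⊢
  omega

theorem natAbs_lt_enc (z : ℤ) : z.natAbs < 2 ^ (bitEncode z).length := by
  have e : bitEncode z = bitEncode (z.toNat, (-z).toNat) := rfl
  rw [e, length_enc_pair]
  have h1 := lt_two_pow_enc z.toNat
  have h2 := lt_two_pow_enc (-z).toNat
  simp only
  set a := (bitEncode z.toNat).length
  set b := (bitEncode (-z).toNat).length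
  have c1 : 2 ^ a ≤ 2 ^ (2 * a + 1 + b) := Nat.pow_le_pow_right (by norm_num) (by omega)
  have c2 : 2 ^ b ≤ 2 ^ (2 * a + 1 + b) := Nat.pow_le_pow_right (by norm_num) (by omega)
  omega

end IntOps

section Clocks

variable {α β : Type} [N487b59b3 α] [N487b59b3 β]

/-- `T` is the length of a list computable in polynomial time. -/
def Clock (T : α → ℕ) : Prop := ∃ L : α → List Unit, PolyT.Poly L ∧ ∀ a, (L a).length = T a

theorem Clock.poly {T : α → ℕ} (h : Clock T) : PolyT.Poly T := by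
  obtain ⟨L, h1, h2⟩ := h
  exact h1.length.congr h2

theorem Clock.bd {T : α → ℕ} (h : Clock T) : Bd bitEncode T := by
  obtain ⟨L, h1, h2⟩ := h
  exact h1.bd.of_le fun a => (h2 a).symm.le.trans (length_le_enc _)

theorem Clock.const (c : ℕ) : Clock (fun _ : α => c) :=
  ⟨fun _ => List.replicate c (), PolyT.Poly.const _, fun _ => List.length_replicate⟩

theorem Clock.length {l : α → List β} (hl : PolyT.Poly l) : Clock (fun a => (l a).length) :=
  ⟨fun a => (l a).map fun _ => (), PolyT.Poly.map (g := fun _ _ => ()) (PolyT.Poly.const _) hl,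
    fun _ => List.length_map _⟩

theorem Clock.add {T U : α → ℕ} (h : Clock T) (h' : Clock U) : Clock (fun a => T a + U a) := by
  obtain ⟨L, h1, h2⟩ := h
  obtain ⟨M, h3, h4⟩ := h'
  exact ⟨fun a => L a ++ M a, h1.append h3, fun a => by simp [h2, h4]⟩

theorem Clock.mul {T U : α → ℕ} (h : Clock T) (h' : Clock U) : Clock (fun a => T a * U a) := by
  obtain ⟨L, h1, h2⟩ := h
  obtain ⟨M, h3, h4⟩ := h'
  exact ⟨fun a => (L a).flatMap fun _ => M a,
    PolyT.Poly.flatMap (g := fun a _ => M a) (h3.comp PolyT.Poly.id.fst) h1,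
    fun a => by simp [h2, h4]⟩

theorem Clock.comp {T : β → ℕ} (h : Clock T) {k : α → β} (hk : PolyT.Poly k) :
    Clock (fun a => T (k a)) := by
  obtain ⟨L, h1, h2⟩ := h
  exact ⟨fun a => L (k a), h1.comp hk, fun a => h2 _⟩

theorem Clock.congr {T U : α → ℕ} (h : Clock T) (e : ∀ a, T a = U a) : Clock U := by
  obtain ⟨L, h1, h2⟩ := h
  exact ⟨L, h1, fun a => (h2 a).trans (e a)⟩

theorem Clock.pow {T : α → ℕ} (h : Clock T) (k : ℕ) : Clock (fun a => T a ^ k) := by
  induction k with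
  | zero => exact (Clock.const 1).congr fun a => by simp
  | succ k ih => exact (ih.mul h).congr fun a => by rw [pow_succ]

theorem Clock.eval {T : α → ℕ} (h : Clock T) (q : Polynomial ℕ) :
    Clock (fun a => q.eval (T a)) := by
  induction q using Polynomial.induction_on' with
  | add p q hp hq => exact (hp.add hq).congr fun a => by simp
  | monomial k c => exact ((Clock.const c).mul (h.pow k)).congr fun a => by simp

end Clocks

section Runs

variable {X Q A : Type}

/-- The answers to the first `T` queries. -/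
def ans (next : X × List A → Q) (O : Q → A) (x : X) : ℕ → List A
  | 0 => []
  | T + 1 => ans next O x T ++ [O (next (x, ans next O x T))]

@[simp] theorem length_ans (next : X × List A → Q) (O : Q → A) (x : X) (T : ℕ) :
    (ans next O x T).length = T := by
  induction T with
  | zero => rfl
  | succ T ih => simp [ans, ih]

theorem mem_ans {next : X × List A → Q} {O : Q → A} {x : X} {T : ℕ} {a : A}
    (h : a ∈ ans next O x T) : ∃ q, a = O q := by
  induction T with
  | zero => simp [ans] at h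
  | succ T ih =>
    simp only [ans, List.mem_append, List.mem_singleton] at h
    rcases h with h | h
    · exact ih h
    · exact ⟨_, h⟩

theorem ans_congr {next : X × List A → Q} {O O' : Q → A} {x : X} {T : ℕ} (P : A → Prop)
    (hO : ∀ q, P (O q) → O' q = O q) (h : ∀ a ∈ ans next O x T, P a) :
    ans next O' x T = ans next O x T := by
  induction T with
  | zero => rfl
  | succ T ih =>
    have e := ih fun a ha => h a (by simp [ans, ha])
    simp only [ans, e]
    rw [hO _ (h _ (by simp [ans]))]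

end Runs

section OCdef

variable {X X' Y Z Q A β σ : Type} [N487b59b3 X] [N487b59b3 X'] [N487b59b3 Y] [N487b59b3 Z]
  [N487b59b3 Q] [N487b59b3 A] [N487b59b3 β] [N487b59b3 σ]

/-- The functional `f` is computed with `T` adaptive queries in polynomial time. -/
def OC (f : (Q → A) → X → Y) (T : X → ℕ) : Prop :=
  Clock T ∧ ∃ (next : X × List A → Q) (out : X × List A → Y), PolyT.Poly next ∧ PolyT.Poly out ∧
    ∀ O x, out (x, ans next O x (T x)) = f O x

theorem OC.congr {f g : (Q → A) → X → Y} {T U : X → ℕ} (h : OC f T) (e : ∀ O x, f O x = g O x)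
    (e' : ∀ x, T x = U x) : OC g U := by
  obtain ⟨h1, n, o, h2, h3, h4⟩ := h
  exact ⟨h1.congr e', n, o, h2, h3, fun O x => by rw [← e', h4, e]⟩

theorem OC.ask {k : X → Q} (hk : PolyT.Poly k) [Inhabited A] :
    OC (fun (O : Q → A) x => O (k x)) (fun _ => 1) :=
  ⟨Clock.const 1, fun z => k z.1, fun z => z.2.headD default, hk.comp PolyT.Poly.id.fst,
    PolyT.Poly.id.snd.headD (PolyT.Poly.const _), fun _ _ => rfl⟩

theorem OC.pre {f : (Q → A) → X → Y} {T : X → ℕ} (h : OC f T) {k : X' → X} (hk : PolyT.Poly k) :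
    OC (fun O x => f O (k x)) (fun x => T (k x)) := by
  obtain ⟨h1, n, o, h2, h3, h4⟩ := h
  have hp : PolyT.Poly (fun z : X' × List A => (k z.1, z.2)) :=
    (hk.comp PolyT.Poly.id.fst).pair PolyT.Poly.id.snd
  refine ⟨h1.comp hk, fun z => n (k z.1, z.2), fun z => o (k z.1, z.2), h2.comp hp, h3.comp hp,
    fun O x => ?_⟩
  have e : ∀ T, ans (fun z : X' × List A => n (k z.1, z.2)) O x T = ans n O (k x) T := by
    intro T
    induction T with
    | zero => rfl
    | succ T ih => simp only [ans, ih]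
  simp only [e, h4]

theorem OC.post {f : (Q → A) → X → Y} {T : X → ℕ} (h : OC f T) {g : X × Y → Z}
    (hg : PolyT.Poly g) : OC (fun O x => g (x, f O x)) T := by
  obtain ⟨h1, n, o, h2, h3, h4⟩ := h
  exact ⟨h1, n, fun z => g (z.1, o z), h2, hg.comp (PolyT.Poly.id.fst.pair h3),
    fun O x => by simp only [h4]⟩

theorem OC.bind {f : (Q → A) → X → Y} {g : (Q → A) → X × Y → Z} {T U : X → ℕ} (h : OC f T)
    (h' : OC g (fun z => U z.1)) (hU : Clock U) :
    OC (fun O x => g O (x, f O x)) (fun x => T x + U x) := by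
  obtain ⟨h1, n, o, h2, h3, h4⟩ := h
  obtain ⟨-, n', o', h6, h7, h8⟩ := h'
  have hT : PolyT.Poly (fun z : X × List A => T z.1) := h1.poly.comp PolyT.Poly.id.fst
  have hp : PolyT.Poly (fun z : X × List A =>
      ((z.1, o (z.1, z.2.take (T z.1))), z.2.drop (T z.1))) :=
    (PolyT.Poly.id.fst.pair (h3.comp (PolyT.Poly.id.fst.pair (PolyT.Poly.id.snd.take hT)))).pair
      (PolyT.Poly.id.snd.drop hT)
  let N : X × List A → Q := fun z => if z.2.length < T z.1 then n z else
    n' ((z.1, o (z.1, z.2.take (T z.1))), z.2.drop (T z.1))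
  refine ⟨h1.add hU, N, fun z => o' ((z.1, o (z.1, z.2.take (T z.1))), z.2.drop (T z.1)),
    PolyT.Poly.ite (PolyT.Poly.id.snd.length.lt hT) h2 (h6.comp hp), h7.comp hp, fun O x => ?_⟩
  have e1 : ∀ j ≤ T x, ans N O x j = ans n O x j := by
    intro j hj
    induction j with
    | zero => rfl
    | succ j ih =>
      simp only [ans, ih (by omega), N, length_ans]
      rw [if_pos (by omega)]
  have e2 : ∀ j, ans N O x (T x + j) = ans n O x (T x) ++ ans n' O (x, f O x) j := by
    intro j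
    induction j with
    | zero => simp [e1, ans]
    | succ j ih =>
      rw [← Nat.add_assoc]
      simp only [ans, ih, N, List.length_append, length_ans, List.append_assoc]
      rw [if_neg (by omega), List.take_left' (length_ans _ _ _ _),
        List.drop_left' (length_ans _ _ _ _), h4]
  simp only [e2]
  rw [List.take_left' (length_ans _ _ _ _), List.drop_left' (length_ans _ _ _ _), h4]
  exact h8 O (x, f O x)

theorem OC.pair {f : (Q → A) → X → Y} {g : (Q → A) → X → Z} {T U : X → ℕ} (h : OC f T)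
    (h' : OC g U) : OC (fun O x => (f O x, g O x)) (fun x => T x + U x) :=
  h.bind (g := fun O z => (z.2, g O z.1))
    ((h'.pre (k := fun z : X × Y => z.1) PolyT.Poly.id.fst).post (g := fun w => (w.1.2, w.2))
      (PolyT.Poly.id.fst.snd.pair PolyT.Poly.id.snd)) h'.1

theorem enc_list_le {l : List A} {m : ℕ} (h : ∀ a ∈ l, (bitEncode a).length ≤ m) :
    (bitEncode l).length ≤ l.length * (2 * m + 1) := by
  induction l with
  | nil => simp
  | cons a l ih =>
    have h1 := h a (by simp)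
    have h2 := ih fun b hb => h b (by simp [hb])
    rw [length_enc_cons, List.length_cons, Nat.add_mul l.length 1]
    omega

/-- The output is small when the oracle answers are. -/
theorem OC.small {f : (Q → A) → X → Y} {T : X → ℕ} (h : OC f T) : ∃ p : Polynomial ℕ,
    ∀ O x m, (∀ q, (bitEncode (O q)).length ≤ m) →
      (bitEncode (f O x)).length ≤ p.eval ((bitEncode x).length + m) := by
  obtain ⟨h1, n, o, -, h3, h4⟩ := h
  obtain ⟨p, hp⟩ := h3.bd
  obtain ⟨r, hr⟩ := h1.bd
  refine ⟨p.comp (2 * Polynomial.X + 1 + r * (2 * Polynomial.X + 1)), fun O x m hm => ?_⟩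
  rw [← h4]
  refine (hp _).trans ?_
  rw [Polynomial.eval_comp]
  refine eval_mono _ ?_
  have h5 : (bitEncode (ans n O x (T x))).length ≤ T x * (2 * m + 1) := by
    have := enc_list_le (l := ans n O x (T x)) (m := m) fun a ha => by
      obtain ⟨q, rfl⟩ := mem_ans ha
      exact hm q
    simpa using this
  have h6 : T x ≤ r.eval ((bitEncode x).length + m) := (hr x).trans (eval_mono _ (by omega))
  have h7 : T x * (2 * m + 1) ≤
      r.eval ((bitEncode x).length + m) * (2 * ((bitEncode x).length + m) + 1) :=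
    Nat.mul_le_mul h6 (by omega)
  rw [length_enc_pair]
  simp only [Polynomial.eval_add, Polynomial.eval_mul, Polynomial.eval_X, Polynomial.eval_one,
    Polynomial.eval_ofNat]
  omega

/-- One step of the replay of a loop on a history of answers. -/
def rstep (o : (X × σ × β) × List A → σ) (x : X) (T t : ℕ) (s₀ : σ)
    (z : σ × List A × List β) (b : β) : σ × List A × List β :=
  if z.2.2.isEmpty = true then
    if T ≤ z.2.1.length then
      (if (bitEncode (o ((x, z.1, b), z.2.1.take T))).length ≤ t then o ((x, z.1, b), z.2.1.take T)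
        else s₀, z.2.1.drop T, [])
    else (z.1, z.2.1, [b])
  else z

/-- The answers collected by a loop. -/
def blocks (n : (X × σ × β) × List A → Q) (F : σ → β → σ) (O : Q → A) (x : X) (T : ℕ) :
    List β → σ → List A
  | [], _ => []
  | b :: l, s => ans n O (x, s, b) T ++ blocks n F O x T l (F s b)

omit [N487b59b3 X] [N487b59b3 Q] [N487b59b3 A] [N487b59b3 β] [N487b59b3 σ] in
theorem blocks_append (n : (X × σ × β) × List A → Q) (F : σ → β → σ) (O : Q → A) (x : X) (T : ℕ)
    (l l' : List β) (s : σ) : blocks n F O x T (l ++ l') s =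
      blocks n F O x T l s ++ blocks n F O x T l' (l.foldl F s) := by
  induction l generalizing s with
  | nil => rfl
  | cons b l ih => simp [blocks, ih]

omit [N487b59b3 X] [N487b59b3 Q] [N487b59b3 A] [N487b59b3 β] in
theorem replay_blocks (n : (X × σ × β) × List A → Q) (o : (X × σ × β) × List A → σ)
    (F : σ → β → σ) (O : Q → A) (x : X) (T t : ℕ) (s₀ : σ)
    (hF : ∀ s b, o ((x, s, b), ans n O (x, s, b) T) = F s b) (l : List β) (s : σ) (r : List A)
    (ht : ∀ k, (bitEncode ((l.take k).foldl F s)).length ≤ t) :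
    l.foldl (rstep o x T t s₀) (s, blocks n F O x T l s ++ r, []) = (l.foldl F s, r, []) := by
  induction l generalizing s with
  | nil => rfl
  | cons b l ih =>
    have h1 := ht 1
    simp only [List.take_succ_cons, List.take_zero, List.foldl_cons, List.foldl_nil] at h1
    rw [List.foldl_cons, List.foldl_cons, ← ih (F s b) fun k => by simpa using ht (k + 1)]
    congr 1
    simp only [rstep, blocks, List.append_assoc, List.isEmpty_nil, if_true, List.length_append,
      length_ans]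
    rw [if_pos (by omega), List.take_left' (length_ans _ _ _ _),
      List.drop_left' (length_ans _ _ _ _), hF, if_pos h1]

omit [N487b59b3 X] [N487b59b3 A] [N487b59b3 β] in
theorem replay_stuck (o : (X × σ × β) × List A → σ) (x : X) (T t : ℕ) (s₀ : σ) (l : List β)
    (s : σ) (r : List A) (b : β) :
    l.foldl (rstep o x T t s₀) (s, r, [b]) = (s, r, [b]) := by
  induction l with
  | nil => rfl
  | cons c l ih => simpa [rstep] using ih

omit [N487b59b3 X] in
theorem replay_size (o : (X × σ × β) × List A → σ) (x : X) (T t : ℕ) (s₀ : σ) (l : List β)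
    (z : σ × List A × List β) (B : ℕ)
    (h1 : (bitEncode z.1).length ≤ t + (bitEncode s₀).length)
    (h3 : (bitEncode z.2.2).length ≤ B) (hB : ∀ b ∈ l, (bitEncode [b]).length ≤ B) :
    (bitEncode (l.foldl (rstep o x T t s₀) z).1).length ≤ t + (bitEncode s₀).length ∧
      (bitEncode (l.foldl (rstep o x T t s₀) z).2.1).length ≤ (bitEncode z.2.1).length ∧
      (bitEncode (l.foldl (rstep o x T t s₀) z).2.2).length ≤ B := by
  induction l generalizing z with
  | nil => exact ⟨h1, le_rfl, h3⟩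
  | cons b l ih =>
    rw [List.foldl_cons]
    have key : (bitEncode (rstep o x T t s₀ z b).1).length ≤ t + (bitEncode s₀).length ∧
        (bitEncode (rstep o x T t s₀ z b).2.1).length ≤ (bitEncode z.2.1).length ∧
        (bitEncode (rstep o x T t s₀ z b).2.2).length ≤ B := by
      unfold rstep
      split_ifs with c1 c2 c3
      · exact ⟨by simp only; omega, enc_sublist_le (List.drop_sublist _ _), by simp⟩
      · exact ⟨by simp only; omega, enc_sublist_le (List.drop_sublist _ _), by simp⟩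
      · exact ⟨h1, le_rfl, hB b (by simp)⟩
      · exact ⟨h1, le_rfl, h3⟩
    obtain ⟨k1, k2, k3⟩ := ih _ key.1 key.2.2 fun c hc => hB c (by simp [hc])
    exact ⟨k1, k2.trans key.2.1, k3⟩

theorem OC.loop [Inhabited A] [Inhabited β] {F : (Q → A) → X × σ × β → σ} {T : X → ℕ}
    (h : OC F (fun z => T z.1)) (hT : Clock T) {l : X → List β} (hl : PolyT.Poly l)
    {s₀ : X → σ} (hs : PolyT.Poly s₀) (p : Polynomial ℕ)
    (hp : ∀ O x m k, (∀ q, (bitEncode (O q)).length ≤ m) →
      (bitEncode (((l x).take k).foldl (fun s b => F O (x, s, b)) (s₀ x))).length ≤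
        p.eval ((bitEncode x).length + m)) :
    OC (fun O x => (l x).foldl (fun s b => F O (x, s, b)) (s₀ x))
      (fun x => (l x).length * T x) := by
  obtain ⟨-, n, o, h2, h3, h4⟩ := h
  let d : ℕ := (bitEncode (default : A)).length
  let t : X × List A → ℕ := fun z => p.eval ((bitEncode z).length + d)
  have ht : Clock t := by
    have : Clock (fun z : X × List A => (bitEncode z).length) :=
      Clock.length (l := fun z : X × List A => bitEncode z)
        (PolyT.Poly.bitsOf (PolyT.Poly.id (α := X × List A)))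
    exact (this.add (Clock.const d)).eval p
  let R : X × List A → σ × List A × List β := fun z =>
    (l z.1).foldl (rstep o z.1 (T z.1) (t z) (s₀ z.1)) (s₀ z.1, z.2, [])
  have hR : PolyT.Poly R := by
    have a1 : PolyT.Poly (fun w : (X × List A) × (σ × List A × List β) × β => w.2.1) :=
      PolyT.Poly.id.snd.fst
    have a2 : PolyT.Poly (fun w : (X × List A) × (σ × List A × List β) × β => T w.1.1) :=
      hT.poly.comp PolyT.Poly.id.fst.fst
    have a3 : PolyT.Poly (fun w : (X × List A) × (σ × List A × List β) × β =>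
        o ((w.1.1, w.2.1.1, w.2.2), w.2.1.2.1.take (T w.1.1))) :=
      h3.comp ((PolyT.Poly.id.fst.fst.pair (a1.fst.pair PolyT.Poly.id.snd.snd)).pair
        (a1.snd.fst.take a2))
    refine PolyT.Poly.foldl (f := fun z => rstep o z.1 (T z.1) (t z) (s₀ z.1))
      (PolyT.Poly.ite (c := fun w : (X × List A) × (σ × List A × List β) × β =>
          w.2.1.2.2.isEmpty = true) (a1.snd.snd.isEmpty.congr fun _ => Bool.decide_eq_true.symm)
        (PolyT.Poly.ite (a2.le a1.snd.fst.length)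
          ((PolyT.Poly.ite ((PolyT.Poly.lengthRaw a3).le (ht.poly.comp PolyT.Poly.id.fst)) a3
            (hs.comp PolyT.Poly.id.fst.fst)).pair
            ((a1.snd.fst.drop a2).pair (PolyT.Poly.const [])))
          (a1.fst.pair (a1.snd.fst.pair PolyT.Poly.id.snd.snd.singleton))) a1)
      (hl.comp PolyT.Poly.id.fst)
      ((hs.comp PolyT.Poly.id.fst).pair (PolyT.Poly.id.snd.pair (PolyT.Poly.const [])))
      (((((Bd.const 2).mul (ht.bd.add (hs.comp PolyT.Poly.id.fst).bd)).add (Bd.const 2)).add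
        ((Bd.const 2).mul PolyT.Poly.id.snd.bd)).add (hl.comp PolyT.Poly.id.fst).bd)
      (fun z k => ?_)
    obtain ⟨k1, k2, k3⟩ := replay_size o z.1 (T z.1) (t z) (s₀ z.1) ((l z.1).take k)
      (s₀ z.1, z.2, []) (bitEncode (l z.1)).length (by simp only; omega) (by simp)
      (fun b hb => enc_sublist_le (List.singleton_sublist.2 (List.mem_of_mem_take hb)))
    rw [length_enc_pair, length_enc_pair]
    simp only at k1 k2 k3 ⊢
    omega
  let N : X × List A → Q := fun z =>
    n ((z.1, (R z).1, (R z).2.2.headD default), (R z).2.1)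
  refine ⟨(Clock.length hl).mul hT, N, fun z => (R z).1,
    h2.comp ((PolyT.Poly.id.fst.pair (hR.fst.pair (hR.snd.snd.headD (PolyT.Poly.const _)))).pair
      hR.snd.fst), hR.fst, fun O x => ?_⟩
  let G : (Q → A) → σ → β → σ := fun O s b => F O (x, s, b)
  have hG : ∀ O s b, o ((x, s, b), ans n O (x, s, b) (T x)) = G O s b := fun O s b => h4 O (x, s, b)
  -- the states depend only on the answers received
  have loc : ∀ (P : A → Prop) (O' : Q → A), (∀ q, P (O q) → O' q = O q) → ∀ (l₁ : List β) (s : σ),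
      (∀ a ∈ blocks n (G O) O x (T x) l₁ s, P a) → ∀ k,
        (l₁.take k).foldl (G O') s = (l₁.take k).foldl (G O) s := by
    intro P O' hO l₁
    induction l₁ with
    | nil => intro s _ k; simp
    | cons b l₁ ih =>
      intro s hs k
      cases k with
      | zero => rfl
      | succ k =>
        have e : G O' s b = G O s b := by
          rw [← hG, ← hG, ans_congr P hO fun a ha => hs a (by simp [blocks, ha])]
        simp only [List.take_succ_cons, List.foldl_cons, e]
        exact ih _ (fun a ha => hs a (by simp [blocks, ha])) k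
  have rep : ∀ (l₁ l₂ : List β) (r : List A), l x = l₁ ++ l₂ →
      R (x, blocks n (G O) O x (T x) l₁ (s₀ x) ++ r) =
        l₂.foldl (rstep o x (T x) (t (x, blocks n (G O) O x (T x) l₁ (s₀ x) ++ r)) (s₀ x))
          (l₁.foldl (G O) (s₀ x), r, []) := by
    intro l₁ l₂ r e
    simp only [R]
    rw [e, List.foldl_append, replay_blocks n o (G O) O x (T x) _ _ (hG O)]
    intro k
    set h := blocks n (G O) O x (T x) l₁ (s₀ x) ++ r with hh
    let O' : Q → A := fun q => if (bitEncode (O q)).length ≤ (bitEncode h).length then O q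
      else default
    rw [← loc (fun a => (bitEncode a).length ≤ (bitEncode h).length) O'
      (fun q hq => if_pos hq) l₁ (s₀ x) (fun a ha => enc_mem_le (by simp [hh, ha])) k]
    have e2 : l₁.take k = (l x).take (min k l₁.length) := by
      rw [e, List.take_append_of_le_length (min_le_right _ _), ← List.take_take, List.take_length]
    rw [e2]
    refine (hp O' x ((bitEncode h).length + d) _ fun q => ?_).trans (eval_mono _ ?_)
    · simp only [O']
      split_ifs with c
      · omega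
      · omega
    · rw [length_enc_pair]
      simp only
      omega
  have run : ∀ (l₁ l₂ : List β), l x = l₁ ++ l₂ →
      ans N O x (l₁.length * T x) = blocks n (G O) O x (T x) l₁ (s₀ x) := by
    intro l₁
    induction l₁ using List.reverseRecOn with
    | nil => intro _ _; simp [ans, blocks]
    | append_singleton l₁ b ih =>
      intro l₂ e
      have e' : l x = l₁ ++ b :: l₂ := by simpa using e
      have inner : ∀ j ≤ T x, ans N O x (l₁.length * T x + j) =
          blocks n (G O) O x (T x) l₁ (s₀ x) ++ ans n O (x, l₁.foldl (G O) (s₀ x), b) j := by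
        intro j hj
        induction j with
        | zero => simpa [ans] using ih _ e'
        | succ j ihj =>
          rw [← Nat.add_assoc]
          simp only [ans, ihj (by omega), List.append_assoc, N]
          rw [rep l₁ (b :: l₂) _ e', List.foldl_cons]
          simp only [rstep, List.isEmpty_nil, if_true, length_ans]
          rw [if_neg (by omega), replay_stuck]
          rfl
      rw [List.length_append, List.length_singleton, Nat.add_mul, Nat.one_mul, inner _ le_rfl,
        blocks_append]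
      simp [blocks]
  have fin := rep (l x) [] [] (by simp)
  simp only [List.append_nil, List.foldl_nil] at fin
  simp only [run (l x) [] (by simp), fin]
  rfl

theorem OC.map [Inhabited A] [Inhabited β] {f : (Q → A) → X × β → Y} {T : X → ℕ}
    (h : OC f (fun z => T z.1)) (hT : Clock T) {l : X → List β} (hl : PolyT.Poly l) :
    OC (fun O x => (l x).map (fun b => f O (x, b))) (fun x => (l x).length * T x) := by
  obtain ⟨p, hp⟩ := h.small
  obtain ⟨r, hr⟩ := hl.bd
  have key : ∀ (g : β → Y) (m : List β) (s : List Y),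
      m.foldl (fun s b => s ++ [g b]) s = s ++ m.map g := by
    intro g m
    induction m with
    | nil => simp
    | cons b m ih => intro s; simp [ih]
  have h1 := (h.pre (k := fun z : X × List Y × β => (z.1, z.2.2))
    (PolyT.Poly.id.fst.pair PolyT.Poly.id.snd.snd)).post (g := fun w => w.1.2.1 ++ [w.2])
    (PolyT.Poly.id.fst.snd.fst.append PolyT.Poly.id.snd.singleton)
  refine (OC.loop (T := T) h1 hT hl (PolyT.Poly.const [])
    (r * (2 * p.comp (2 * Polynomial.X + 1 + r) + 1)) fun O x m k hm => ?_).congr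
    (fun O x => by simp [key]) (fun _ => rfl)
  simp only [key, List.nil_append]
  have h2 : (bitEncode (l x)).length ≤ r.eval ((bitEncode x).length + m) :=
    (hr x).trans (eval_mono _ (by omega))
  refine (enc_list_le (m := (p.comp (2 * Polynomial.X + 1 + r)).eval
    ((bitEncode x).length + m)) fun y hy => ?_).trans ?_
  · obtain ⟨b, hb, rfl⟩ := List.mem_map.1 hy
    refine (hp O (x, b) m hm).trans ?_
    rw [Polynomial.eval_comp]
    refine eval_mono _ ?_
    have := enc_mem_le (List.mem_of_mem_take hb)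
    rw [length_enc_pair]
    simp only [Polynomial.eval_add, Polynomial.eval_mul, Polynomial.eval_X, Polynomial.eval_one,
      Polynomial.eval_ofNat]
    omega
  · simp only [Polynomial.eval_add, Polynomial.eval_mul, Polynomial.eval_one,
      Polynomial.eval_ofNat, List.length_map]
    exact Nat.mul_le_mul_right _
      (((List.length_take_le' _ _).trans (length_le_enc _)).trans h2)

theorem OC.pad {f : (Q → A) → X → Y} {T U : X → ℕ} (h : OC f T) (hU : Clock U)
    (hle : ∀ x, T x ≤ U x) : OC f U := by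
  obtain ⟨h1, n, o, h2, h3, h4⟩ := h
  refine ⟨hU, n, fun z => o (z.1, z.2.take (T z.1)), h2, h3.comp (PolyT.Poly.id.fst.pair
    (PolyT.Poly.id.snd.take (h1.poly.comp PolyT.Poly.id.fst))), fun O x => ?_⟩
  obtain ⟨k, hk⟩ := Nat.exists_eq_add_of_le (hle x)
  have e : ∀ j, (ans n O x (T x + j)).take (T x) = ans n O x (T x) := by
    intro j
    induction j with
    | zero => exact List.take_of_length_le (by simp)
    | succ j ih =>
      rw [← Nat.add_assoc, ans, List.take_append_of_le_length (by simp), ih]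
  simp only [hk, e, h4]

/-- The input followed by a bound, in unary, on the sizes of the answers. -/
def wide (z : X × ℕ) : List Bool := bitEncode z.1 ++ List.replicate z.2 false

theorem bd_fst {t : X → ℕ} (h : Bd bitEncode t) : Bd (wide (X := X)) (fun z => t z.1) := by
  obtain ⟨p, hp⟩ := h
  exact ⟨p, fun z => (hp z.1).trans (eval_mono _ (by simp [wide]))⟩

theorem bd_snd : Bd (wide (X := X)) (fun z => z.2) :=
  ⟨Polynomial.X, fun z => by simp [wide]⟩

theorem OC.loop' [Inhabited A] [Inhabited β] {F : (Q → A) → X × σ × β → σ} {T : X → ℕ}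
    (h : OC F (fun z => T z.1)) (hT : Clock T) {l : X → List β} (hl : PolyT.Poly l)
    {s₀ : X → σ} (hs : PolyT.Poly s₀) {t : X × ℕ → ℕ} (ht : Bd wide t)
    (hp : ∀ O x m k, (∀ q, (bitEncode (O q)).length ≤ m) →
      (bitEncode (((l x).take k).foldl (fun s b => F O (x, s, b)) (s₀ x))).length ≤ t (x, m)) :
    OC (fun O x => (l x).foldl (fun s b => F O (x, s, b)) (s₀ x))
      (fun x => (l x).length * T x) := by
  obtain ⟨p, h1⟩ := ht
  exact h.loop hT hl hs p fun O x m k hm => (hp O x m k hm).trans (by simpa [wide] using h1 (x, m))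

end OCdef

end Pool.Agent.MP_1195b1_lc

end MrgPart2

-- marker of a merged file
example : 731051 + 530405 = 731051 + 530405 := rfl
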