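import Mathlib
import Pool.Agent.MP_1195b1_lc.Algo
import Pool.Agent.Lib.helper72.PTNat
import Pool.Agent.MP_1195b1_lc.Oracle

-- ======== part 0: formerly Pool.Agent.MP_1195b1_lc.PolyAlgo
section MrgPart0

/-!
# The functions of the algorithm are computable in polynomial time
-/

namespace Pool.Agent.MP_1195b1_lc

open Pool.Agent.PolyT N487b59b3

variable {α : Type} [N487b59b3 α]

theorem poly_getB {c : α → St} {i : α → Bool} (hc : PolyT.Poly c) (hi : PolyT.Poly i) :
    PolyT.Poly (fun a => getB (c a) (i a)) := hi.cond hc.snd.fst hc.fst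

theorem poly_setB {c : α → St} {i : α → Bool} {L : α → List ℕ} (hc : PolyT.Poly c) (hi : PolyT.Poly i)
    (hL : PolyT.Poly L) : PolyT.Poly (fun a => setB (c a) (i a) (L a)) :=
  hi.cond (hc.fst.pair (hL.pair hc.snd.snd)) (hL.pair (hc.snd.fst.pair hc.snd.snd))

theorem poly_candP {n : α → Ins} {B : α → List ℕ} {s : α → ℕ} (hn : PolyT.Poly n) (hB : PolyT.Poly B)
    (hs : PolyT.Poly s) : PolyT.Poly (fun a => candP (n a) (B a) (s a)) :=
  PolyT.Poly.ite (hn.fst.eq (PolyT.Poly.const 0)) ((hs.mem hB).and (hs.eq hn.snd.snd.fst).not)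
    (PolyT.Poly.ite (hn.fst.eq (PolyT.Poly.const 1)) ((hs.mem hB).or (hs.eq hn.snd.snd.fst))
      ((hs.eq hn.snd.snd.snd).or ((hs.eq hn.snd.snd.fst).not.and (hs.mem hB))))

theorem poly_cand {l : α → List ℕ} {n : α → Ins} {c : α → St} (hl : PolyT.Poly l) (hn : PolyT.Poly n)
    (hc : PolyT.Poly c) : PolyT.Poly (fun a => cand (l a) (n a) (c a)) :=
  PolyT.Poly.filter (c := fun a s => candP (n a) (getB (c a) (n a).2.1) s)
    (poly_candP (hn.comp PolyT.Poly.id.fst) ((poly_getB hc hn.snd.fst).comp PolyT.Poly.id.fst) PolyT.Poly.id.snd) hl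

theorem poly_query {l : α → List ℕ} {x y : α → ℕ} {n : α → Ins} {c : α → St} (hl : PolyT.Poly l)
    (hx : PolyT.Poly x) (hy : PolyT.Poly y) (hn : PolyT.Poly n) (hc : PolyT.Poly c) :
    PolyT.Poly (fun a => query (l a) (x a) (y a) (n a) (c a)) :=
  ((hn.fst.eq (PolyT.Poly.const 0)).or (hn.fst.eq (PolyT.Poly.const 2))).cond
    (hn.snd.fst.pair ((poly_cand hl hn hc).pair hy))
    (hn.snd.fst.pair ((PolyT.Poly.filter (c := fun a s => !decide (s ∈ cand (l a) (n a) (c a)))
      (PolyT.Poly.id.snd.mem ((poly_cand hl hn hc).comp PolyT.Poly.id.fst)).not hl).pair hx))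

theorem poly_arcs {c : α → St} (hc : PolyT.Poly c) : PolyT.Poly (fun a => arcs (c a)) := by
  have hc' : PolyT.Poly (fun p : α × Ins => c p.1) := hc.comp PolyT.Poly.id.fst
  have hn : PolyT.Poly (fun p : α × Ins => p.2) := PolyT.Poly.id.snd
  have h3 : PolyT.Poly (fun p : α × Ins => decide ((3, p.2.2) ∈ (c p.1).2.2)) :=
    (((PolyT.Poly.const 3).pair hn.snd).mem hc'.snd.snd).congr fun _ => by congr
  exact PolyT.Poly.map (g := fun _ (n : Ins) => n.2) hn.snd
    (PolyT.Poly.filter (c := fun a n => decide (n.1 = 2) && (decide ((3, n.2) ∈ (c a).2.2) &&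
      (decide (n.2.2.1 ∈ getB (c a) n.2.1) && !decide (n.2.2.2 ∈ getB (c a) n.2.1))))
      ((hn.fst.eq (PolyT.Poly.const 2)).and (h3.and
        ((hn.snd.snd.fst.mem (poly_getB hc' hn.snd.fst)).and
          (hn.snd.snd.snd.mem (poly_getB hc' hn.snd.fst)).not))) hc.snd.snd)

theorem poly_tl {e : α → Ex ℕ} (he : PolyT.Poly e) : PolyT.Poly (fun a => tl (e a)) :=
  (he.fst.cond he.snd.snd he.snd.fst).congr fun a => by
    unfold tl
    cases (e a).1 <;> rfl

theorem poly_hd {e : α → Ex ℕ} (he : PolyT.Poly e) : PolyT.Poly (fun a => hd (e a)) :=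
  (he.fst.cond he.snd.fst he.snd.snd).congr fun a => by
    unfold hd
    cases (e a).1 <;> rfl

theorem poly_layer {l : α → List ℕ} {c : α → St} {z : α → List ℕ × List (Ex ℕ)} (hl : PolyT.Poly l)
    (hc : PolyT.Poly c) (hz : PolyT.Poly z) : PolyT.Poly (fun a => layer (l a) (c a) (z a)) := by
  have h1 : PolyT.Poly (fun p : α × ℕ => (arcs (c p.1)).any fun e =>
      decide (tl e = p.2) && decide (hd e ∈ (z p.1).1)) :=
    PolyT.Poly.any (c := fun (p : α × ℕ) e => decide (tl e = p.2) && decide (hd e ∈ (z p.1).1))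
      (((poly_tl PolyT.Poly.id.snd).eq PolyT.Poly.id.fst.snd).and
        ((poly_hd PolyT.Poly.id.snd).mem (hz.fst.comp PolyT.Poly.id.fst.fst)))
      ((poly_arcs hc).comp PolyT.Poly.id.fst)
  have hc' : PolyT.Poly (fun p : α × Ex ℕ => c p.1) := hc.comp PolyT.Poly.id.fst
  exact (PolyT.Poly.filter (c := fun a s => decide (s ∈ (z a).1) ||
      (arcs (c a)).any fun e => decide (tl e = s) && decide (hd e ∈ (z a).1))
      ((PolyT.Poly.id.snd.mem (hz.fst.comp PolyT.Poly.id.fst)).or h1) hl).pair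
    (hz.snd.append (PolyT.Poly.filter (c := fun a e => decide (tl e ∈ (c a).1) &&
      (!decide (tl e ∈ (c a).2.1) && decide (hd e ∈ (z a).1)))
      (((poly_tl PolyT.Poly.id.snd).mem hc'.fst).and (((poly_tl PolyT.Poly.id.snd).mem hc'.snd.fst).not.and
        ((poly_hd PolyT.Poly.id.snd).mem (hz.fst.comp PolyT.Poly.id.fst)))) (poly_arcs hc)))

theorem layer_fold_size (l : List ℕ) (c : St) (m : List ℕ) : ∀ z : List ℕ × List (Ex ℕ),
    z.1.Sublist l → (m.foldl (fun z _ => layer l c z) z).1.Sublist l ∧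
      (bitEncode (m.foldl (fun z _ => layer l c z) z).2).length ≤
        (bitEncode z.2).length + m.length * (bitEncode (arcs c)).length := by
  induction m with
  | nil => intro z h; simpa using h
  | cons s m ih =>
    intro z _
    obtain ⟨h1, h2⟩ := ih (layer l c z) List.filter_sublist
    refine ⟨h1, h2.trans ?_⟩
    have h3 : (bitEncode (layer l c z).2).length ≤
        (bitEncode z.2).length + (bitEncode (arcs c)).length := by
      simp only [layer, enc_append, List.length_append]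
      exact Nat.add_le_add_left (enc_sublist_le List.filter_sublist) _
    rw [List.length_cons, Nat.succ_mul]
    omega

theorem poly_search {l : α → List ℕ} {c : α → St} (hl : PolyT.Poly l) (hc : PolyT.Poly c) :
    PolyT.Poly (fun a => search (l a) (c a)) := by
  refine PolyT.Poly.foldl (f := fun a z (_ : ℕ) => layer (l a) (c a) z)
    (poly_layer (hl.comp PolyT.Poly.id.fst) (hc.comp PolyT.Poly.id.fst) PolyT.Poly.id.snd.fst) hl
    ((PolyT.Poly.filter (c := fun a s => decide (s ∈ (c a).2.1) && !decide (s ∈ (c a).1))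
      ((PolyT.Poly.id.snd.mem (hc.snd.fst.comp PolyT.Poly.id.fst)).and
        (PolyT.Poly.id.snd.mem (hc.fst.comp PolyT.Poly.id.fst)).not) hl).pair (PolyT.Poly.const []))
    (((((Bd.const 2).mul hl.bd).add (Bd.const 1))).add (hl.bd.mul (poly_arcs hc).bd))
    (fun a n => ?_)
  obtain ⟨h1, h2⟩ := layer_fold_size (l a) (c a) ((l a).take n)
    ((l a).filter fun s => decide (s ∈ (c a).2.1) && !decide (s ∈ (c a).1), []) List.filter_sublist
  rw [length_enc_pair]
  have h3 := enc_sublist_le h1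
  have h4 : ((l a).take n).length ≤ (bitEncode (l a)).length :=
    (List.length_take_le' _ _).trans (length_le_enc _)
  have h5 := Nat.mul_le_mul_right (bitEncode (arcs (c a))).length h4
  simp only [enc_nil, List.length_nil] at h2
  omega

theorem poly_improve {l : α → List ℕ} {c : α → St} (hl : PolyT.Poly l) (hc : PolyT.Poly c) :
    PolyT.Poly (fun a => improve (l a) (c a)) := by
  have hs := (poly_search hl hc).snd
  have he := hs.headD (PolyT.Poly.const (false, 0, 0))
  have h0 : PolyT.Poly (fun a => (((c a).1, (c a).2.1, []) : St)) :=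
    hc.fst.pair (hc.snd.fst.pair (PolyT.Poly.const []))
  exact hs.isEmpty.cond h0 (poly_setB h0 he.fst (poly_cand hl ((PolyT.Poly.const 2).pair he) hc))

theorem poly_upd {l : α → List ℕ} {t : α → ℕ} {n : α → Ins} {c : α → St} {r : α → Bool}
    (hl : PolyT.Poly l) (ht : PolyT.Poly t) (hn : PolyT.Poly n) (hc : PolyT.Poly c) (hr : PolyT.Poly r) :
    PolyT.Poly (fun a => upd (l a) (t a) (n a) (c a) (r a)) :=
  PolyT.Poly.ite (hn.fst.eq (PolyT.Poly.const 0))
    (hr.cond (poly_setB hc hn.snd.fst (poly_cand hl hn hc)) hc)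
    (PolyT.Poly.ite (hn.fst.eq (PolyT.Poly.const 1))
      ((hr.and ((poly_getB hc hn.snd.fst).length.lt ht)).cond
        (poly_setB hc hn.snd.fst (poly_cand hl hn hc)) hc)
      (PolyT.Poly.ite (hn.fst.eq (PolyT.Poly.const 4)) (poly_improve hl hc)
        (hr.cond (hc.fst.pair (hc.snd.fst.pair (hn.cons hc.snd.snd))) hc)))

theorem poly_tests {l : α → List ℕ} (hl : PolyT.Poly l) : PolyT.Poly (fun a => tests (l a)) := by
  have h3 : PolyT.Poly (fun p : ((α × Bool) × ℕ) × ℕ => ((p.1.1.2, p.1.2, p.2) : Ex ℕ)) :=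
    PolyT.Poly.id.fst.fst.snd.pair (PolyT.Poly.id.fst.snd.pair PolyT.Poly.id.snd)
  exact PolyT.Poly.flatMap (g := fun a i => (l a).flatMap fun u => (l a).flatMap fun v =>
      [((2, i, u, v) : Ins), (3, i, u, v)])
    (PolyT.Poly.flatMap (g := fun (p : α × Bool) u => (l p.1).flatMap fun v =>
        [((2, p.2, u, v) : Ins), (3, p.2, u, v)])
      (PolyT.Poly.flatMap (g := fun (p : (α × Bool) × ℕ) v =>
          [((2, p.1.2, p.2, v) : Ins), (3, p.1.2, p.2, v)])
        (((PolyT.Poly.const 2).pair h3).cons ((PolyT.Poly.const 3).pair h3).singleton)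
        (hl.comp PolyT.Poly.id.fst.fst))
      (hl.comp PolyT.Poly.id.fst))
    (PolyT.Poly.const [false, true])

theorem poly_phase {l : α → List ℕ} (hl : PolyT.Poly l) (o : ℕ) (i : Bool) :
    PolyT.Poly (fun a => phase (l a) o i) :=
  PolyT.Poly.map (g := fun _ u => ((o, i, u, 0) : Ins))
    ((PolyT.Poly.const o).pair ((PolyT.Poly.const i).pair (PolyT.Poly.id.snd.pair (PolyT.Poly.const 0)))) hl

theorem poly_sched {l : α → List ℕ} (hl : PolyT.Poly l) : PolyT.Poly (fun a => sched (l a)) := by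
  have h0 : PolyT.Poly (fun a => 0 :: l a) := (PolyT.Poly.const 0).cons hl
  have hrep : PolyT.Poly (fun a => rep (l a)) :=
    PolyT.Poly.flatMap (g := fun a (_ : ℕ) => 0 :: l a) (h0.comp PolyT.Poly.id.fst) h0
  have hblock : PolyT.Poly (fun a => block (l a)) := (poly_tests hl).append (PolyT.Poly.const _)
  exact (poly_phase hl 0 false).append ((poly_phase hl 0 true).append
    ((poly_phase hl 1 false).append ((poly_phase hl 1 true).append
      (PolyT.Poly.flatMap (g := fun a (_ : ℕ) => block (l a)) (hblock.comp PolyT.Poly.id.fst) hrep))))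

theorem poly_verdict {l : α → List ℕ} {t : α → ℕ} {c : α → St} (hl : PolyT.Poly l) (ht : PolyT.Poly t)
    (hc : PolyT.Poly c) : PolyT.Poly (fun a => verdict (l a) (t a) (c a)) :=
  (hc.fst.length.eq ht).and ((hc.snd.fst.length.eq ht).and
    (PolyT.Poly.all (c := fun a s => decide (decide (s ∈ (c a).1) = decide (s ∈ (c a).2.1)))
      ((PolyT.Poly.id.snd.mem (hc.fst.comp PolyT.Poly.id.fst)).eq
        (PolyT.Poly.id.snd.mem (hc.snd.fst.comp PolyT.Poly.id.fst))) hl))

/-- One step of the replay of the answers received so far. -/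
def mstep (l : List ℕ) (t : ℕ) (z : List Ins × St) (r : Bool) : List Ins × St :=
  (z.1.tail, bif z.1.isEmpty then z.2 else upd l t (z.1.headD (4, false, 0, 0)) z.2 r)

/-- The remaining instructions and the state after the answers `h`. -/
def mach (l : List ℕ) (t : ℕ) (h : List Bool) : List Ins × St :=
  h.foldl (mstep l t) (sched l, (l, l, []))

lemma upd_size (l : List ℕ) (t : ℕ) (n : Ins) (c : St) (r : Bool) (h : Wf l c) :
    Wf l (upd l t n c r) ∧
      (bitEncode (upd l t n c r).2.2).length ≤ (bitEncode (n :: c.2.2)).length := by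
  have h0 : (bitEncode c.2.2).length ≤ (bitEncode (n :: c.2.2)).length :=
    enc_sublist_le (List.sublist_cons_self _ _)
  have h1 := h.setB n.2.1 (cand_sublist l n c)
  have h2 : Wf l (c.1, c.2.1, []) := h
  unfold upd
  split_ifs
  · cases r
    · exact ⟨h, h0⟩
    · exact ⟨h1, by simpa using h0⟩
  · cases (r && decide ((getB c n.2.1).length < t))
    · exact ⟨h, h0⟩
    · exact ⟨h1, by simpa using h0⟩
  · unfold improve
    cases (search l c).2.isEmpty
    · exact ⟨h2.setB _ (cand_sublist _ _ _), by simp⟩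
    · exact ⟨h2, by simp⟩
  · cases r
    · exact ⟨h, h0⟩
    · exact ⟨h, le_rfl⟩

lemma mach_size (l : List ℕ) (t : ℕ) (h : List Bool) : ∀ z : List Ins × St, Wf l z.2 →
    Wf l (h.foldl (mstep l t) z).2 ∧ (bitEncode (h.foldl (mstep l t) z).1).length +
      (bitEncode (h.foldl (mstep l t) z).2.2.2).length ≤
        (bitEncode z.1).length + (bitEncode z.2.2.2).length := by
  induction h with
  | nil => intro z hz; exact ⟨hz, le_rfl⟩
  | cons r h ih =>
    rintro ⟨m, c⟩ hz
    rw [List.foldl_cons]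
    cases m with
    | nil => exact ih _ hz
    | cons n m =>
      obtain ⟨h1, h2⟩ := upd_size l t n c r hz
      obtain ⟨h3, h4⟩ := ih (mstep l t (n :: m, c) r) h1
      refine ⟨h3, h4.trans ?_⟩
      rw [length_enc_cons] at h2
      simp only [mstep, List.tail_cons, List.isEmpty_cons, cond_false, List.headD_cons,
        length_enc_cons]
      omega

theorem poly_mach {l : α → List ℕ} {t : α → ℕ} {h : α → List Bool} (hl : PolyT.Poly l) (ht : PolyT.Poly t)
    (hh : PolyT.Poly h) : PolyT.Poly (fun a => mach (l a) (t a) (h a)) := by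
  have hz : PolyT.Poly (fun p : α × (List Ins × St) × Bool => p.2.1) := PolyT.Poly.id.snd.fst
  refine PolyT.Poly.foldl (f := fun a z r => mstep (l a) (t a) z r)
    (hz.fst.tail.pair (hz.fst.isEmpty.cond hz.snd (poly_upd (hl.comp PolyT.Poly.id.fst)
      (ht.comp PolyT.Poly.id.fst) (hz.fst.headD (PolyT.Poly.const _)) hz.snd PolyT.Poly.id.snd.snd))) hh
    ((poly_sched hl).pair (hl.pair (hl.pair (PolyT.Poly.const []))))
    ((((Bd.const 2).mul (poly_sched hl).bd).add ((Bd.const 4).mul hl.bd)).add (Bd.const 3))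
    (fun a n => ?_)
  obtain ⟨h1, h2⟩ := mach_size (l a) (t a) ((h a).take n) (sched (l a), (l a, l a, []))
    (fun i => by cases i <;> exact List.Sublist.refl _)
  have h3 := enc_sublist_le (h1 false)
  have h4 := enc_sublist_le (h1 true)
  simp only [getB, cond_false, cond_true] at h3 h4
  simp only [enc_nil, List.length_nil] at h2
  rw [length_enc_pair, length_enc_pair, length_enc_pair]
  change 2 * (bitEncode (List.foldl (mstep (l a) (t a)) _ _).1).length + 1 +
    (2 * (bitEncode (List.foldl (mstep (l a) (t a)) _ _).2.1).length + 1 +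
      (2 * (bitEncode (List.foldl (mstep (l a) (t a)) _ _).2.2.1).length + 1 +
        (bitEncode (List.foldl (mstep (l a) (t a)) _ _).2.2.2).length)) ≤ _
  omega

/-- Appending the true answer advances the run by one instruction. -/
lemma mach_succ (O : Qu → Bool) (l : List ℕ) (a b t T : ℕ) (h : List Bool)
    (e : mach l t h = ((sched l).drop T, ((sched l).take T).foldl (stepO O l a b t) (l, l, []))) :
    mach l t (h ++ [O (query l a b ((mach l t h).1.headD (4, false, 0, 0)) (mach l t h).2)]) =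
      ((sched l).drop (T + 1), ((sched l).take (T + 1)).foldl (stepO O l a b t) (l, l, [])) := by
  have e1 : ∀ r, mach l t (h ++ [r]) = mstep l t (mach l t h) r := fun r => by
    simp [mach, List.foldl_append]
  rw [e1, e]
  by_cases hT : T < (sched l).length
  · rw [List.take_succ_eq_append_getElem hT, List.foldl_append, List.drop_eq_getElem_cons hT]
    rfl
  · have hT' : (sched l).length ≤ T := not_lt.1 hT
    rw [List.drop_eq_nil_of_le hT', List.drop_eq_nil_of_le (hT'.trans (Nat.le_succ _)),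
      List.take_of_length_le hT', List.take_of_length_le (hT'.trans (Nat.le_succ _))]
    rfl

end Pool.Agent.MP_1195b1_lc

end MrgPart0

-- ======== part 1: formerly Pool.Agent.MP_1195b1_lc.RingPoly
section MrgPart1

/-!
# The minimization algorithm runs in polynomial time with polynomially many evaluations
-/

namespace Pool.Agent.MP_1195b1_lc

open Pool.Agent.PolyT N487b59b3

variable {α : Type} [N487b59b3 α]

theorem poly_pre {Xs : α → List (ℕ × ℤ)} {z : α → ℕ × ℤ} (hX : PolyT.Poly Xs)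
    (hz : PolyT.Poly z) : PolyT.Poly (fun a => pre (Xs a) (z a)) := by
  have h1 : PolyT.Poly (fun p : α × (ℕ × ℤ) => z p.1) := hz.comp PolyT.Poly.id.fst
  have h2 : PolyT.Poly (fun p : α × (ℕ × ℤ) => p.2) := PolyT.Poly.id.snd
  exact PolyT.Poly.map (g := fun _ (y : ℕ × ℤ) => y.1) h2.fst
    (PolyT.Poly.filter (c := fun a (y : ℕ × ℤ) => decide (y.2 < (z a).2) ||
      (decide (y.2 = (z a).2) && decide (y.1 < (z a).1)))
      ((poly_ilt h2.snd h1.snd).or ((h2.snd.eq h1.snd).and (h2.fst.lt h1.fst))) hX)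

theorem poly_preE {Xs : α → List (ℕ × ℤ)} {z : α → ℕ × ℤ} (hX : PolyT.Poly Xs)
    (hz : PolyT.Poly z) : PolyT.Poly (fun a => preE (Xs a) (z a)) := by
  have h1 : PolyT.Poly (fun p : α × (ℕ × ℤ) => z p.1) := hz.comp PolyT.Poly.id.fst
  have h2 : PolyT.Poly (fun p : α × (ℕ × ℤ) => p.2) := PolyT.Poly.id.snd
  exact PolyT.Poly.map (g := fun _ (y : ℕ × ℤ) => y.1) h2.fst
    (PolyT.Poly.filter (c := fun a (y : ℕ × ℤ) => decide (y.2 < (z a).2) ||
      (decide (y.2 = (z a).2) && decide (y.1 ≤ (z a).1)))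
      ((poly_ilt h2.snd h1.snd).or ((h2.snd.eq h1.snd).and (h2.fst.le h1.fst))) hX)

theorem poly_fwUpd {l : α → List ℕ} {K : α → ℕ} {f0 : α → ℤ} {st : α → FS}
    {vals : α → List ((ℕ × ℤ) × ℤ × ℤ)} (hl : PolyT.Poly l) (hK : PolyT.Poly K)
    (hf : PolyT.Poly f0) (hs : PolyT.Poly st) (hv : PolyT.Poly vals) :
    PolyT.Poly (fun a => fwUpd (l a) (K a) (f0 a) (st a) (vals a)) := by
  have hm : PolyT.Poly (fun a => max (st a).2.1 1) :=
    (PolyT.Poly.ite (hs.snd.fst.le (PolyT.Poly.const 1)) (PolyT.Poly.const 1) hs.snd.fst).congr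
      fun _ => (max_def _ _).symm
  have hK1 := hK.sub (PolyT.Poly.const 1)
  have hN : PolyT.Poly (fun a => ((st a).1.map fun u => (-u.2).toNat).sum) :=
    (PolyT.Poly.map (g := fun _ (u : ℕ × ℤ) => (-u.2).toNat) (poly_neg PolyT.Poly.id.snd.snd)
      hs.fst).sum
  have hy : PolyT.Poly (fun p : α × (ℕ × ℤ) × ℤ × ℤ => p.2) := PolyT.Poly.id.snd
  have k0 : PolyT.Poly (fun p : ((α × ℕ) × (ℕ × ℤ)) × (ℕ × ℤ) × ℤ × ℤ => p.1.1.1) :=
    PolyT.Poly.id.fst.fst.fst
  have h3 : PolyT.Poly (fun p : (α × ℕ) × (ℕ × ℤ) => (vals p.1.1).any fun y =>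
      decide (p.2.2 + ((st p.1.1).2.1 : ℤ) * (y.2.2 - f0 p.1.1) +
        ((((st p.1.1).1.map fun u => (-u.2).toNat).sum : ℕ) : ℤ) < 0)) :=
    PolyT.Poly.any (c := fun (p : (α × ℕ) × (ℕ × ℤ)) (y : (ℕ × ℤ) × ℤ × ℤ) =>
      decide (p.2.2 + ((st p.1.1).2.1 : ℤ) * (y.2.2 - f0 p.1.1) +
        ((((st p.1.1).1.map fun u => (-u.2).toNat).sum : ℕ) : ℤ) < 0))
      (poly_ilt (poly_iadd (poly_iadd PolyT.Poly.id.fst.snd.snd
        (poly_imul (poly_cast (hs.snd.fst.comp k0))
          (poly_isub PolyT.Poly.id.snd.snd.snd (hf.comp k0)))) (poly_cast (hN.comp k0)))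
        (PolyT.Poly.const 0)) (hv.comp PolyT.Poly.id.fst.fst)
  have h4 : PolyT.Poly (fun p : α × ℕ => (st p.1).1.any fun z => decide (z.1 = p.2) &&
      (vals p.1).any fun y => decide (z.2 + ((st p.1).2.1 : ℤ) * (y.2.2 - f0 p.1) +
        ((((st p.1).1.map fun u => (-u.2).toNat).sum : ℕ) : ℤ) < 0)) :=
    PolyT.Poly.any (c := fun (p : α × ℕ) (z : ℕ × ℤ) => decide (z.1 = p.2) &&
      (vals p.1).any fun y => decide (z.2 + ((st p.1).2.1 : ℤ) * (y.2.2 - f0 p.1) +
        ((((st p.1).1.map fun u => (-u.2).toNat).sum : ℕ) : ℤ) < 0))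
      ((PolyT.Poly.id.snd.fst.eq PolyT.Poly.id.fst.snd).and h3) (hs.fst.comp PolyT.Poly.id.fst)
  exact (PolyT.Poly.map (g := fun a (y : (ℕ × ℤ) × ℤ × ℤ) =>
      (y.1.1, ((K a - 1 : ℕ) : ℤ) * y.1.2 + ((max (st a).2.1 1 : ℕ) : ℤ) * (y.2.2 - y.2.1)))
    (hy.fst.fst.pair (poly_iadd (poly_imul (poly_cast (hK1.comp PolyT.Poly.id.fst)) hy.fst.snd)
      (poly_imul (poly_cast (hm.comp PolyT.Poly.id.fst)) (poly_isub hy.snd.snd hy.snd.fst))))
    hv).pair (((hK1.mul hs.snd.fst).add hm).pair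
      (PolyT.Poly.filter (c := fun a v => decide (v ∈ (st a).2.2) ||
        (st a).1.any fun z => decide (z.1 = v) &&
          (vals a).any fun y => decide (z.2 + ((st a).2.1 : ℤ) * (y.2.2 - f0 a) +
            ((((st a).1.map fun u => (-u.2).toNat).sum : ℕ) : ℤ) < 0))
        ((PolyT.Poly.id.snd.mem (hs.snd.snd.comp PolyT.Poly.id.fst)).or h4) hl))

lemma fw_size (f : List ℕ → ℤ) (l : List ℕ) (f0 : ℤ) (M : ℕ)
    (hf : ∀ Y : List ℕ, Y.Sublist l → (f Y).natAbs < 2 ^ M) (k : ℕ) :
    ((fwStep f l f0)^[k] (l.map fun v => (v, 0), 0, [])).1.map Prod.fst = l ∧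
    (∀ z ∈ ((fwStep f l f0)^[k] (l.map fun v => (v, 0), 0, [])).1, z.2.natAbs ≤
      ((fwStep f l f0)^[k] (l.map fun v => (v, 0), 0, [])).2.1 * 2 ^ (M + 1)) ∧
    ((fwStep f l f0)^[k] (l.map fun v => (v, 0), 0, [])).2.1 <
      2 ^ (k * (400 * l.length ^ 5 + 1)) ∧
    ((fwStep f l f0)^[k] (l.map fun v => (v, 0), 0, [])).2.2.Sublist l := by
  induction k with
  | zero => simp [Function.comp_def]
  | succ k ih =>
    rw [Function.iterate_succ_apply']
    generalize (fwStep f l f0)^[k] (l.map fun v => (v, 0), 0, []) = st at ih ⊢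
    obtain ⟨h1, h2, h3, -⟩ := ih
    have e : st.1.take l.length = st.1 := List.take_of_length_le (by rw [← h1]; simp)
    refine ⟨?_, ?_, ?_, List.filter_sublist⟩
    · simpa [fwStep, fwUpd, e, Function.comp_def] using h1
    · intro z hz
      simp only [fwStep, fwUpd, e, List.map_map, List.mem_map, Function.comp_def] at hz ⊢
      obtain ⟨y, hy, rfl⟩ := hz
      have a1 := hf (pre st.1 y) (h1 ▸ List.filter_sublist.map _)
      have a2 := hf (preE st.1 y) (h1 ▸ List.filter_sublist.map _)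
      have a3 : (f (preE st.1 y) - f (pre st.1 y)).natAbs ≤ 2 ^ (M + 1) := by omega
      refine (Int.natAbs_add_le _ _).trans ?_
      rw [Int.natAbs_mul, Int.natAbs_mul, Int.natAbs_natCast, Int.natAbs_natCast, Nat.add_mul,
        Nat.mul_assoc]
      exact Nat.add_le_add (Nat.mul_le_mul_left _ (h2 y hy)) (Nat.mul_le_mul_left _ a3)
    · simp only [fwStep, fwUpd]
      generalize 400 * l.length ^ 5 = K at *
      have a1 : K < 2 ^ K := Nat.lt_two_pow_self
      have a2 : 1 ≤ 2 ^ (k * (K + 1)) := Nat.one_le_two_pow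
      have a3 : (K - 1) * st.2.1 ≤ K * 2 ^ (k * (K + 1)) :=
        Nat.mul_le_mul (Nat.sub_le _ _) h3.le
      have a4 : (K + 1) * 2 ^ (k * (K + 1)) ≤ 2 ^ K * 2 ^ (k * (K + 1)) :=
        Nat.mul_le_mul_right _ a1
      rw [show (k + 1) * (K + 1) = K + k * (K + 1) + 1 by ring, pow_succ, pow_add]
      rw [Nat.add_mul, Nat.one_mul] at a4
      have a5 : 1 ≤ 2 ^ K * 2 ^ (k * (K + 1)) := Nat.mul_pos Nat.one_le_two_pow a2
      omega

variable {X Q A : Type} [N487b59b3 X] [N487b59b3 Q] [N487b59b3 A] [Inhabited A]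

theorem oc_fw {f : (Q → A) → X → List ℕ → ℤ} {T : X → ℕ}
    (h : OC (fun O (z : X × List ℕ) => f O z.1 z.2) (fun z => T z.1)) (hT : Clock T)
    {l : X → List ℕ} (hl : PolyT.Poly l) {C : X → List Unit} (hC : PolyT.Poly C) {s : X → ℕ}
    (hs : PolyT.Poly s) : OC (fun O x => fw (f O x) (l x) (C x) (s x))
      (fun x => T x + (C x).length * ((l x).length * (T x + T x))) := by
  obtain ⟨p, hp⟩ := h.small
  have h0 : OC (fun O x => f O x []) T :=
    h.pre (k := fun x => (x, [])) (PolyT.Poly.id.pair (PolyT.Poly.const _))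
  have k1 : PolyT.Poly (fun w : ((X × ℤ) × FS × Unit) × (ℕ × ℤ) => w.1.1.1) :=
    PolyT.Poly.id.fst.fst.fst
  have k2 : PolyT.Poly (fun w : ((X × ℤ) × FS × Unit) × (ℕ × ℤ) => w.1.2.1.1) :=
    PolyT.Poly.id.fst.snd.fst.fst
  have k3 : PolyT.Poly (fun w : (X × ℤ) × FS × Unit => w.1.1) := PolyT.Poly.id.fst.fst
  have hTT : Clock (fun x => T x + T x) := hT.add hT
  have hn : Clock (fun x => (l x).length * (T x + T x)) := (Clock.length hl).mul hTT
  have h1 := ((h.pre (k1.pair (poly_pre k2 PolyT.Poly.id.snd))).pair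
    (h.pre (k1.pair (poly_preE k2 PolyT.Poly.id.snd)))).post (g := fun w => (w.1.2, w.2))
    (PolyT.Poly.id.fst.snd.pair PolyT.Poly.id.snd)
  have h2 := (OC.map (T := fun w : (X × ℤ) × FS × Unit => T w.1.1 + T w.1.1) h1 (hTT.comp k3)
    (l := fun w => w.2.1.1.take (l w.1.1).length)
    (PolyT.Poly.id.snd.fst.fst.take (hl.comp k3).length)).pad (hn.comp k3)
    (fun w => Nat.mul_le_mul_right _ (List.length_take_le _ _))
  have k4 : PolyT.Poly (fun w : ((X × ℤ) × FS × Unit) × List ((ℕ × ℤ) × ℤ × ℤ) => l w.1.1.1) :=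
    hl.comp PolyT.Poly.id.fst.fst.fst
  have h3 := h2.post (g := fun w => fwUpd (l w.1.1.1) (400 * (l w.1.1.1).length ^ 5) w.1.1.2
    w.1.2.1 w.2) (poly_fwUpd k4 ((Clock.const 400).mul ((Clock.length k4).pow 5)).poly
      PolyT.Poly.id.fst.fst.snd PolyT.Poly.id.fst.snd.fst PolyT.Poly.id.snd)
  have k5 : PolyT.Poly (fun w : X × ℤ => l w.1) := hl.comp PolyT.Poly.id.fst
  have k6 : PolyT.Poly (fun w : X × ℤ => C w.1) := hC.comp PolyT.Poly.id.fst
  have b1 := bd_fst k5.bd
  have b2 := bd_fst k6.bd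
  have b3 := bd_fst (PolyT.Poly.id (α := X × ℤ)).fst.bd
  have bM := (((((Bd.const 2).mul b3).add (Bd.const 1)).add b1).add bd_snd).eval p
  have bP := b2.mul (((Bd.const 400).mul (b1.pow 5)).add (Bd.const 1))
  have h4 := OC.loop' (T := fun w : X × ℤ => (l w.1).length * (T w.1 + T w.1)) h3
    (hn.comp PolyT.Poly.id.fst) k6 (s₀ := fun w => ((l w.1).map fun v => (v, 0), 0, []))
    ((PolyT.Poly.map (g := fun _ v => (v, (0 : ℤ)))
      (PolyT.Poly.id.snd.pair (PolyT.Poly.const _)) k5).pair (PolyT.Poly.const _))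
    (((((Bd.const 2).mul (b1.mul (((Bd.const 2).mul ((((Bd.const 2).mul b1).add (Bd.const 5)).add
      ((Bd.const 3).mul (bP.add bM)))).add (Bd.const 1)))).add ((Bd.const 2).mul bP)).add
      b1).add (Bd.const 2)) (fun O w m k hm => by
      have e := foldl_unit (fwStep (f O w.1) (l w.1) w.2) ((C w.1).take k)
        ((l w.1).map fun v => (v, 0), 0, [])
      simp only [fwStep] at e
      simp only
      rw [e]
      set M := p.eval (2 * (bitEncode w.1).length + 1 + (bitEncode (l w.1)).length + m) with hM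
      obtain ⟨a1, a2, a3, a4⟩ := fw_size (f O w.1) (l w.1) w.2 M (fun Y hY =>
        (natAbs_lt_enc _).trans_le (Nat.pow_le_pow_right (by norm_num)
          ((hp O (w.1, Y) m hm).trans (eval_mono _ (by
            have := enc_sublist_le hY
            rw [length_enc_pair]
            simp only
            omega))))) ((C w.1).take k).length
      generalize (fwStep (f O w.1) (l w.1) w.2)^[((C w.1).take k).length]
        ((l w.1).map fun v => (v, 0), 0, []) = st at *
      set L := (bitEncode (l w.1)).length with hL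
      set P := (bitEncode (C w.1)).length * (400 * L ^ 5 + 1) with hP
      have c0 : (l w.1).length ≤ L := length_le_enc _
      have c1 : ((C w.1).take k).length * (400 * (l w.1).length ^ 5 + 1) ≤ P :=
        Nat.mul_le_mul ((List.length_take_le' _ _).trans (length_le_enc _))
          (Nat.add_le_add_right (Nat.mul_le_mul_left _ (Nat.pow_le_pow_left c0 5)) 1)
      have c2 : st.2.1 < 2 ^ P := a3.trans_le (Nat.pow_le_pow_right (by norm_num) c1)
      have c3 := length_enc_nat_le c2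
      have c4 := enc_sublist_le a4
      have c5 := enc_list_le (l := st.1) (m := 2 * L + 5 + 3 * (P + M)) fun z hz => by
        have d1 := enc_mem_le (a1 ▸ List.mem_map_of_mem hz : z.1 ∈ l w.1)
        have d2 : z.2.natAbs < 2 ^ (P + (M + 1)) := by
          rw [pow_add]
          exact (a2 z hz).trans_lt (Nat.mul_lt_mul_of_pos_right c2 (by positivity))
        have d3 := enc_int_le d2
        rw [length_enc_pair]
        omega
      have c6 : st.1.length ≤ L := by rw [← a1, List.length_map] at c0; exact c0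
      have c7 := Nat.mul_le_mul_right (2 * (2 * L + 5 + 3 * (P + M)) + 1) c6
      rw [length_enc_pair, length_enc_pair]
      omega)
  exact ((h0.bind (U := fun x => (C x).length * ((l x).length * (T x + T x))) h4
    ((Clock.length hC).mul hn)).post (g := fun w => w.2.2.2.headD (s w.1))
    (PolyT.Poly.id.snd.snd.snd.headD (hs.comp PolyT.Poly.id.fst))).congr (fun _ _ => rfl)
    (fun _ => rfl)

theorem poly_arc {E : α → Rel} {u v : α → ℕ} (hE : PolyT.Poly E) (hu : PolyT.Poly u)
    (hv : PolyT.Poly v) : PolyT.Poly (fun a => decide ((u a, v a) ∈ E a)) :=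
  ((hu.pair hv).mem hE).congr fun _ => by congr

theorem poly_prs {l : α → List ℕ} (hl : PolyT.Poly l) : PolyT.Poly (fun a => prs (l a)) :=
  PolyT.Poly.flatMap (g := fun a u => (l a).map fun b => (u, b))
    (PolyT.Poly.map (g := fun (p : α × ℕ) b => (p.2, b))
      (PolyT.Poly.id.fst.snd.pair PolyT.Poly.id.snd) (hl.comp PolyT.Poly.id.fst)) hl

theorem poly_hi {l : α → List ℕ} {E : α → Rel} {s u : α → ℕ} (hl : PolyT.Poly l)
    (hE : PolyT.Poly E) (hs : PolyT.Poly s) (hu : PolyT.Poly u) :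
    PolyT.Poly (fun a => hi (l a) (E a) (s a) (u a)) :=
  PolyT.Poly.filter (c := fun a b => decide ((s a, b) ∈ E a) || decide ((u a, b) ∈ E a))
    ((poly_arc (hE.comp PolyT.Poly.id.fst) (hs.comp PolyT.Poly.id.fst) PolyT.Poly.id.snd).or
      (poly_arc (hE.comp PolyT.Poly.id.fst) (hu.comp PolyT.Poly.id.fst) PolyT.Poly.id.snd)) hl

theorem poly_lo {l : α → List ℕ} {E : α → Rel} {s u : α → ℕ} (hl : PolyT.Poly l)
    (hE : PolyT.Poly E) (hs : PolyT.Poly s) (hu : PolyT.Poly u) :
    PolyT.Poly (fun a => lo (l a) (E a) (s a) (u a)) :=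
  PolyT.Poly.filter (c := fun a b => decide ((s a, b) ∈ E a) ||
      (decide ((u a, b) ∈ E a) && !decide ((b, u a) ∈ E a)))
    ((poly_arc (hE.comp PolyT.Poly.id.fst) (hs.comp PolyT.Poly.id.fst) PolyT.Poly.id.snd).or
      ((poly_arc (hE.comp PolyT.Poly.id.fst) (hu.comp PolyT.Poly.id.fst) PolyT.Poly.id.snd).and
        (poly_arc (hE.comp PolyT.Poly.id.fst) PolyT.Poly.id.snd
          (hu.comp PolyT.Poly.id.fst)).not)) hl

theorem poly_core {l A Y : α → List ℕ} {E : α → Rel} (hl : PolyT.Poly l) (hE : PolyT.Poly E)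
    (hA : PolyT.Poly A) (hY : PolyT.Poly Y) :
    PolyT.Poly (fun a => core (l a) (E a) (A a) (Y a)) :=
  PolyT.Poly.filter (c := fun a v => (l a).all fun b => !decide ((v, b) ∈ E a) ||
      (decide (b ∈ A a) || decide (b ∈ Y a)))
    (PolyT.Poly.all (c := fun (p : α × ℕ) b => !decide ((p.2, b) ∈ E p.1) ||
        (decide (b ∈ A p.1) || decide (b ∈ Y p.1)))
      ((poly_arc (hE.comp PolyT.Poly.id.fst.fst) PolyT.Poly.id.fst.snd PolyT.Poly.id.snd).not.or
        ((PolyT.Poly.id.snd.mem (hA.comp PolyT.Poly.id.fst.fst)).or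
          (PolyT.Poly.id.snd.mem (hY.comp PolyT.Poly.id.fst.fst))))
      (hl.comp PolyT.Poly.id.fst)) hl

theorem poly_pick {ds : α → List (ℕ × ℤ × ℤ)} {s : α → ℕ} (hd : PolyT.Poly ds)
    (hs : PolyT.Poly s) : PolyT.Poly (fun a => pick (ds a) (s a)) :=
  (PolyT.Poly.filter (c := fun a (d : ℕ × ℤ × ℤ) => (ds a).all fun e =>
      decide (e.2.1 - e.2.2 ≤ d.2.1 - d.2.2))
    (PolyT.Poly.all (c := fun (p : α × ℕ × ℤ × ℤ) (e : ℕ × ℤ × ℤ) =>
        decide (e.2.1 - e.2.2 ≤ p.2.2.1 - p.2.2.2))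
      (poly_ile (poly_isub PolyT.Poly.id.snd.snd.fst PolyT.Poly.id.snd.snd.snd)
        (poly_isub PolyT.Poly.id.fst.snd.snd.fst PolyT.Poly.id.fst.snd.snd.snd))
      (hd.comp PolyT.Poly.id.fst)) hd).headD (hs.pair (PolyT.Poly.const _))

theorem poly_src {s : α → ℕ} {z : α → ℤ} {d : α → ℕ × ℤ × ℤ} (hs : PolyT.Poly s)
    (hz : PolyT.Poly z) (hd : PolyT.Poly d) : PolyT.Poly (fun a => src (s a) (z a) (d a)) :=
  PolyT.Poly.ite (poly_ile (poly_imul (PolyT.Poly.const 2) (poly_isub hd.snd.snd hz))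
    (poly_isub hd.snd.snd hd.snd.fst)) hs hd.fst

theorem poly_addArc {l : α → List ℕ} {E : α → Rel} {u w : α → ℕ} (hl : PolyT.Poly l)
    (hE : PolyT.Poly E) (hu : PolyT.Poly u) (hw : PolyT.Poly w) :
    PolyT.Poly (fun a => addArc (l a) (E a) (u a) (w a)) :=
  PolyT.Poly.filter (c := fun a (p : ℕ × ℕ) => decide (p ∈ E a) ||
      (decide ((p.1, u a) ∈ E a) && decide ((w a, p.2) ∈ E a)))
    ((poly_arc (hE.comp PolyT.Poly.id.fst) PolyT.Poly.id.snd.fst PolyT.Poly.id.snd.snd).or
      ((poly_arc (hE.comp PolyT.Poly.id.fst) PolyT.Poly.id.snd.fst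
        (hu.comp PolyT.Poly.id.fst)).and
        (poly_arc (hE.comp PolyT.Poly.id.fst) (hw.comp PolyT.Poly.id.fst) PolyT.Poly.id.snd.snd)))
    (poly_prs hl)

theorem poly_finish {l : α → List ℕ} {E : α → Rel} {s w : α → ℕ} {c : α → ℤ}
    {r : α → (ℤ × ℤ) × ℕ × ℤ × ℤ} (hl : PolyT.Poly l) (hE : PolyT.Poly E) (hs : PolyT.Poly s)
    (hc : PolyT.Poly c) (hr : PolyT.Poly r) (hw : PolyT.Poly w) :
    PolyT.Poly (fun a => finish (l a) (E a) (s a) (c a) (r a) (w a)) :=
  (((poly_ilt hr.fst.fst hc).or (poly_ile (poly_isub hr.snd.snd.fst hr.snd.snd.snd)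
    (PolyT.Poly.const 0))).cond hE (poly_addArc hl hE (poly_src hs hr.fst.fst hr.snd) hw)).pair
    ((poly_ilt hr.fst.fst hc).or (poly_ilt hr.fst.snd hc))

theorem oc_round {ev : (Q → A) → X → List ℕ → ℤ} {T : X → ℕ}
    (h : OC (fun O (z : X × List ℕ) => ev O z.1 z.2) (fun z => T z.1)) (hT : Clock T)
    {l : X → List ℕ} (hl : PolyT.Poly l) {C : X → List Unit} (hC : PolyT.Poly C) {s : X → ℕ}
    (hs : PolyT.Poly s) {c : X → ℤ} (hc : PolyT.Poly c) {E : X → Rel} (hE : PolyT.Poly E) :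
    OC (fun O x => round (ev O x) (l x) (s x) (c x) (C x) (E x))
      (fun x => (T x + T x + (l x).length * (T x + T x)) +
        (T x + (C x).length * ((l x).length * (T x + T x)))) := by
  have k1 : PolyT.Poly (fun w : X × ℕ => w.1) := PolyT.Poly.id.fst
  have h1 := OC.map (T := fun x => T x + T x)
    (((h.pre (k1.pair (poly_hi (hl.comp k1) (hE.comp k1) (hs.comp k1) PolyT.Poly.id.snd))).pair
      (h.pre (k1.pair (poly_lo (hl.comp k1) (hE.comp k1) (hs.comp k1) PolyT.Poly.id.snd)))).post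
      (g := fun w => (w.1.2, w.2)) (PolyT.Poly.id.fst.snd.pair PolyT.Poly.id.snd)) (hT.add hT) hl
  have h2 : OC (fun O x => probe (ev O x) (l x) (E x) (s x))
      (fun x => T x + T x + (l x).length * (T x + T x)) :=
    ((h.pre (PolyT.Poly.id.pair (poly_hi hl hE hs hs))).pair (h.pre (PolyT.Poly.id.pair hl))).pair
      (h1.post (g := fun w => pick w.2 (s w.1))
        (poly_pick PolyT.Poly.id.snd (hs.comp PolyT.Poly.id.fst)))
  have k2 : PolyT.Poly (fun w : (X × (ℤ × ℤ) × ℕ × ℤ × ℤ) × List ℕ => w.1.1) :=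
    PolyT.Poly.id.fst.fst
  have k3 : PolyT.Poly (fun w : (X × (ℤ × ℤ) × ℕ × ℤ × ℤ) × List ℕ => w.1.2) :=
    PolyT.Poly.id.fst.snd
  have k4 := poly_core (hl.comp k2) (hE.comp k2) (poly_hi (hl.comp k2) (hE.comp k2) (hs.comp k2)
    (poly_src (hs.comp k2) k3.fst.fst k3.snd)) PolyT.Poly.id.snd
  have k5 := (PolyT.Poly.filter (c := fun w v => !decide (v ∈ core (l w.1.1) (E w.1.1)
      (hi (l w.1.1) (E w.1.1) (s w.1.1) (src (s w.1.1) w.1.2.1.1 w.1.2.2)) w.2))
    (PolyT.Poly.id.snd.mem (k4.comp PolyT.Poly.id.fst)).not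
    (PolyT.Poly.id (α := (X × (ℤ × ℤ) × ℕ × ℤ × ℤ) × List ℕ)).snd).length
  have k6 := poly_imul (poly_isub k3.snd.snd.fst k3.snd.snd.snd) (poly_cast k5)
  have h3 : OC (fun O (w : (X × (ℤ × ℤ) × ℕ × ℤ × ℤ) × List ℕ) => phi (ev O w.1.1) (l w.1.1)
      (E w.1.1) (hi (l w.1.1) (E w.1.1) (s w.1.1) (src (s w.1.1) w.1.2.1.1 w.1.2.2))
      (w.1.2.2.2.1 - w.1.2.2.2.2) w.2) (fun w => T w.1.1) :=
    ((h.pre (k2.pair k4)).post (poly_iadd PolyT.Poly.id.snd (k6.comp PolyT.Poly.id.fst))).congr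
      (fun _ _ => rfl) (fun _ => rfl)
  have k7 : PolyT.Poly (fun w : X × (ℤ × ℤ) × ℕ × ℤ × ℤ => w.1) := PolyT.Poly.id.fst
  have k8 : PolyT.Poly (fun w : (X × (ℤ × ℤ) × ℕ × ℤ × ℤ) × ℕ => w.1.1) := PolyT.Poly.id.fst.fst
  have h4 := (oc_fw (f := fun O (w : X × (ℤ × ℤ) × ℕ × ℤ × ℤ) => phi (ev O w.1) (l w.1)
      (E w.1) (hi (l w.1) (E w.1) (s w.1) (src (s w.1) w.2.1.1 w.2.2))
      (w.2.2.2.1 - w.2.2.2.2)) (T := fun w => T w.1) h3 (hT.comp k7) (hl.comp k7) (hC.comp k7)
      (hs.comp k7)).post (poly_finish (hl.comp k8) (hE.comp k8) (hs.comp k8) (hc.comp k8)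
        PolyT.Poly.id.fst.snd PolyT.Poly.id.snd)
  exact (h2.bind (U := fun x => T x + (C x).length * ((l x).length * (T x + T x))) h4
    (hT.add ((Clock.length hC).mul ((Clock.length hl).mul (hT.add hT))))).congr
    (fun _ _ => rfl) (fun _ => rfl)

theorem oc_sfm {ev : (Q → A) → X → List ℕ → ℤ} {T : X → ℕ}
    (h : OC (fun O (z : X × List ℕ) => ev O z.1 z.2) (fun z => T z.1)) (hT : Clock T)
    {l : X → List ℕ} (hl : PolyT.Poly l) {C D : X → List Unit} (hC : PolyT.Poly C)
    (hD : PolyT.Poly D) {s : X → ℕ} (hs : PolyT.Poly s) {c : X → ℤ} (hc : PolyT.Poly c) :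
    OC (fun O x => sfm (ev O x) (l x) (s x) (c x) (C x) (D x))
      (fun x => (D x).length * ((T x + T x + (l x).length * (T x + T x)) +
        (T x + (C x).length * ((l x).length * (T x + T x))))) := by
  have k1 : PolyT.Poly (fun w : X × (Rel × Bool) × Unit => w.1) := PolyT.Poly.id.fst
  have h1 := oc_round (ev := fun O (w : X × (Rel × Bool) × Unit) => ev O w.1)
    (T := fun w => T w.1) (h.pre (k := fun z : (X × (Rel × Bool) × Unit) × List ℕ => (z.1.1, z.2))
      (PolyT.Poly.id.fst.fst.pair PolyT.Poly.id.snd)) (hT.comp k1) (hl.comp k1) (hC.comp k1)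
    (hs.comp k1) (hc.comp k1) PolyT.Poly.id.snd.fst.fst
  have hn := (Clock.length hl).mul (hT.add hT)
  have h2 := OC.loop' (T := fun x => (T x + T x + (l x).length * (T x + T x)) +
      (T x + (C x).length * ((l x).length * (T x + T x)))) h1
    (((hT.add hT).add hn).add (hT.add ((Clock.length hC).mul hn))) hD
    (s₀ := fun x => ((prs (l x)).filter fun p => decide (p.1 = p.2), false))
    ((PolyT.Poly.filter (c := fun _ (p : ℕ × ℕ) => decide (p.1 = p.2))
      (PolyT.Poly.id.snd.fst.eq PolyT.Poly.id.snd.snd) (poly_prs hl)).pair (PolyT.Poly.const _))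
    (((Bd.const 2).mul (bd_fst (poly_prs hl).bd)).add (Bd.const 2)) (fun O x m k _ => by
      have key : ∀ (L : List Unit) (z : Rel × Bool), z.1.Sublist (prs (l x)) →
          (L.foldl (fun st _ => round (ev O x) (l x) (s x) (c x) (C x) st.1) z).1.Sublist
            (prs (l x)) := by
        intro L
        induction L with
        | nil => exact fun _ h => h
        | cons _ L ih =>
          intro z hz
          refine ih _ ?_
          simp only [round, finish]
          cases (decide ((probe (ev O x) (l x) z.1 (s x)).1.1 < c x) ||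
            decide ((probe (ev O x) (l x) z.1 (s x)).2.2.1 -
              (probe (ev O x) (l x) z.1 (s x)).2.2.2 ≤ 0))
          · exact List.filter_sublist
          · exact hz
      have := enc_sublist_le (key ((D x).take k)
        ((prs (l x)).filter fun p => decide (p.1 = p.2), false) List.filter_sublist)
      rw [length_enc_pair, enc_bool]
      simp only [List.length_singleton] at this ⊢
      omega)
  exact (h2.post (g := fun w => w.2.2) PolyT.Poly.id.snd.snd).congr (fun _ _ => rfl) (fun _ => rfl)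

end Pool.Agent.MP_1195b1_lc

end MrgPart1

-- ======== part 2: formerly Pool.Agent.MP_1195b1_lc.Value
section MrgPart2

/-!
# The three oracle results
-/

namespace Pool.Agent.MP_1195b1_lc

open Pool.Agent.PolyT N487b59b3 Finset

/-- Inputs: the ground set and the numbers `m₁, n₁, m₂, n₂`. -/
abbrev In := Finset ℕ × ℕ × ℕ × ℕ × ℕ

theorem max_model : ∃ (next : In × List Bool → Qu) (out : In × List Bool → Bool)
    (q : Polynomial ℕ), PolyT.Poly next ∧ PolyT.Poly out ∧
    ∀ (I : Inst ℕ) (n₁ n₂ : ℕ) (O : Qu → Bool), I.Ok → 0 < n₁ → 0 < n₂ →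
      I.a * n₁ + I.b * n₂ = I.S.card → Answers I O →
      (out ((I.S, I.a, n₁, I.b, n₂), ans next O (I.S, I.a, n₁, I.b, n₂) (q.eval I.S.card)) = true ↔
        Feas I n₁ n₂) := by
  have hx : PolyT.Poly (fun z : In × List Bool => z.1) := PolyT.Poly.id.fst
  have hl : PolyT.Poly (fun z : In × List Bool => z.1.1.sort (· ≤ ·)) := hx.fst
  have ht := hx.snd.fst.mul hx.snd.snd.fst
  have hm := poly_mach hl ht PolyT.Poly.id.snd
  refine ⟨_, _, 4 * Polynomial.X + (Polynomial.X + 1) * (Polynomial.X + 1) *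
      (4 * Polynomial.X * Polynomial.X + 1),
    poly_query hl hx.snd.fst hx.snd.snd.snd.fst
      (hm.fst.headD (PolyT.Poly.const (4, false, 0, 0))) hm.snd, poly_verdict hl ht hm.snd, ?_⟩
  intro I n₁ n₂ O hI h2 h4 h5 hO
  rw [feas_iff hI h2 h4 h5, ← run_spec (l := I.S.sort (· ≤ ·)) hI (I.S.sort_nodup _)
    (I.S.sort_toFinset _).symm hO]
  have key : ∀ T, mach (I.S.sort (· ≤ ·)) (I.a * n₁) (ans (fun z : In × List Bool =>
      query (z.1.1.sort (· ≤ ·)) z.1.2.1 z.1.2.2.2.1
        ((mach (z.1.1.sort (· ≤ ·)) (z.1.2.1 * z.1.2.2.1) z.2).1.headD (4, false, 0, 0))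
        (mach (z.1.1.sort (· ≤ ·)) (z.1.2.1 * z.1.2.2.1) z.2).2)
      O (I.S, I.a, n₁, I.b, n₂) T) =
      ((sched (I.S.sort (· ≤ ·))).drop T, ((sched (I.S.sort (· ≤ ·))).take T).foldl
        (stepO O (I.S.sort (· ≤ ·)) I.a I.b (I.a * n₁))
        (I.S.sort (· ≤ ·), I.S.sort (· ≤ ·), [])) := by
    intro T
    induction T with
    | zero => rfl
    | succ T ih => exact mach_succ _ _ _ _ _ _ _ ih
  simp only
  rw [key, List.take_of_length_le]
  rw [length_sched, Finset.length_sort]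
  simp

section Subst

variable {X Y Q A Q' : Type} [N487b59b3 X] [N487b59b3 Y] [N487b59b3 Q] [N487b59b3 A]
  [N487b59b3 Q'] [Inhabited A]

theorem oc_subst {m : (Q → A) → X × Q' → Bool} {T U : X → ℕ} (h : OC m (fun z => T z.1))
    (hT : Clock T) (hU : Clock U) {next : X × List Bool → Q'} {out : X × List Bool → Y}
    (hn : PolyT.Poly next) (ho : PolyT.Poly out) :
    OC (fun O x => out (x, ans next (fun q => m O (x, q)) x (U x))) (fun x => U x * T x) := by
  obtain ⟨L, h1, h2⟩ := hU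
  have key : ∀ (O : Q → A) (x : X) (M : List Unit),
      M.foldl (fun s _ => s ++ [m O (x, next (x, s))]) [] =
        ans next (fun q => m O (x, q)) x M.length := by
    intro O x M
    rw [foldl_unit]
    induction M.length with
    | zero => rfl
    | succ k ih => rw [Function.iterate_succ_apply', ih, ans]
  have h3 := (h.pre (k := fun z : X × List Bool × Unit => (z.1, next (z.1, z.2.1)))
    (PolyT.Poly.id.fst.pair (hn.comp (PolyT.Poly.id.fst.pair PolyT.Poly.id.snd.fst)))).post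
    (g := fun w => w.1.2.1 ++ [w.2]) (PolyT.Poly.id.fst.snd.fst.append PolyT.Poly.id.snd.singleton)
  have h4 := OC.loop' (T := T) h3 hT h1 (PolyT.Poly.const [])
    ((Bd.const 3).mul (bd_fst h1.bd)) (fun O x m k _ => by
      simp only [key]
      rw [PolyT.Poly.enc_bools_length, length_ans]
      exact Nat.mul_le_mul_left _ ((List.length_take_le' _ _).trans (length_le_enc _)))
  exact (h4.post ho).congr (fun O x => by simp only [key, h2]) (fun x => by rw [h2])

end Subst

/-- The truncated submodular function, read from the value oracle. -/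
def evq (O : Bool × List ℕ → ℤ) (l : List ℕ) (q : Qu) (Y : List ℕ) : ℤ :=
  bif l.all (fun v => decide (v ∈ Y)) then
    min (((l.filter fun v => decide (v ∈ Y) && decide (v ∈ q.2.1)).length : ℕ) - O (q.1, Y))
      (0 - (q.2.2 : ℕ))
  else ((l.filter fun v => decide (v ∈ Y) && decide (v ∈ q.2.1)).length : ℕ) - O (q.1, Y)

/-- The answer of the maximizing oracle, computed from the value oracle. -/
def mx (O : Bool × List ℕ → ℤ) (l : List ℕ) (q : Qu) (C D : List Unit) : Bool :=
  (l.map fun s => sfm (evq O l q) l s (0 - (q.2.2 : ℕ)) C D).all fun b => !b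

theorem oc_mx {X : Type} [N487b59b3 X] {l : X → List ℕ} (hl : PolyT.Poly l) {q : X → Qu}
    (hq : PolyT.Poly q) {C D : X → List Unit} (hC : PolyT.Poly C) (hD : PolyT.Poly D) :
    OC (fun O x => mx O (l x) (q x) (C x) (D x))
      (fun x => (l x).length * ((D x).length * ((1 + 1 + (l x).length * (1 + 1)) +
        (1 + (C x).length * ((l x).length * (1 + 1)))))) := by
  have k1 : PolyT.Poly (fun w : ((X × ℕ) × List ℕ) × ℤ => w.1.1.1) := PolyT.Poly.id.fst.fst.fst
  have k2 : PolyT.Poly (fun w : ((X × ℕ) × List ℕ) × ℤ => w.1.2) := PolyT.Poly.id.fst.snd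
  have k3 := poly_isub (poly_cast (PolyT.Poly.filter
    (c := fun (w : ((X × ℕ) × List ℕ) × ℤ) v => decide (v ∈ w.1.2) &&
      decide (v ∈ (q w.1.1.1).2.1))
    ((PolyT.Poly.id.snd.mem (k2.comp PolyT.Poly.id.fst)).and
      (PolyT.Poly.id.snd.mem (((hq.comp k1).snd.fst).comp PolyT.Poly.id.fst)))
    (hl.comp k1)).length) PolyT.Poly.id.snd
  have k4 := (PolyT.Poly.all (c := fun (w : ((X × ℕ) × List ℕ) × ℤ) v => decide (v ∈ w.1.2))
    (PolyT.Poly.id.snd.mem (k2.comp PolyT.Poly.id.fst)) (hl.comp k1)).cond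
    (poly_imin k3 (poly_isub (PolyT.Poly.const 0) (poly_cast (hq.comp k1).snd.snd))) k3
  have h1 : OC (fun O (z : (X × ℕ) × List ℕ) => evq O (l z.1.1) (q z.1.1) z.2) (fun _ => 1) :=
    ((OC.ask (k := fun z : (X × ℕ) × List ℕ => ((q z.1.1).1, z.2))
      ((hq.comp PolyT.Poly.id.fst.fst).fst.pair PolyT.Poly.id.snd)).post k4).congr
      (fun _ _ => rfl) (fun _ => rfl)
  have k5 : PolyT.Poly (fun w : X × ℕ => w.1) := PolyT.Poly.id.fst
  have h2 := oc_sfm (ev := fun O (w : X × ℕ) => evq O (l w.1) (q w.1)) (T := fun _ => 1) h1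
    (Clock.const 1) (hl.comp k5) (hC.comp k5) (hD.comp k5) PolyT.Poly.id.snd
    (poly_isub (PolyT.Poly.const 0) (poly_cast (hq.comp k5).snd.snd))
  have hn := (Clock.length hl).mul (Clock.const (1 + 1))
  have h3 := OC.map (T := fun x => (D x).length * ((1 + 1 + (l x).length * (1 + 1)) +
      (1 + (C x).length * ((l x).length * (1 + 1))))) h2
    ((Clock.length hD).mul (((Clock.const (1 + 1)).add hn).add
      ((Clock.const 1).add ((Clock.length hC).mul hn)))) hl
  exact (h3.post (g := fun w => w.2.all fun b => !b)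
    (PolyT.Poly.all (c := fun _ b => !b) PolyT.Poly.id.snd.not PolyT.Poly.id.snd)).congr
    (fun _ _ => rfl) (fun _ => rfl)

/-- Intersecting supermodularity. -/
def Inter (S : Finset ℕ) (p : Finset ℕ → ℤ) : Prop :=
  ∀ X ⊆ S, ∀ Y ⊆ S, (X ∩ Y).Nonempty → p X + p Y ≤ p (X ∩ Y) + p (X ∪ Y)

lemma Inter.skew {S : Finset ℕ} {p : Finset ℕ → ℤ} (h : Inter S p) : Skew S p := by
  intro X hX Y hY
  rcases (X ∩ Y).eq_empty_or_nonempty with e | e
  · have hd := disjoint_iff_inter_eq_empty.2 e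
    rw [hd.sdiff_eq_left, hd.symm.sdiff_eq_left]
    exact Or.inr le_rfl
  · exact Or.inl (h X hX Y hY e)

lemma mx_spec {P : Bool → Finset ℕ → ℤ} {l : List ℕ} (hl : l.Nodup) (i : Bool) (L : List ℕ)
    (t : ℕ) (hP : Inter l.toFinset (P i)) (h0 : P i ∅ ≤ 0) {C D : List Unit}
    (hC : C.length = 40002 * l.length ^ 10) (hD : D.length = l.length * l.length + 1) :
    mx (fun q => P q.1 q.2.toFinset) l (i, L, t) C D = true ↔
      Low l.toFinset (P i) t L.toFinset := by
  set S := l.toFinset with hS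
  let h : Finset ℕ → ℤ := fun B => ((S ∩ B ∩ L.toFinset).card : ℕ) - P i B
  let g : Finset ℕ → ℤ := fun B => if S ⊆ B then min (h B) (0 - (t : ℕ)) else h B
  have hev : ∀ Y, evq (fun q => P q.1 q.2.toFinset) l (i, L, t) Y = g Y.toFinset := by
    intro Y
    have e1 : (l.filter fun v => decide (v ∈ Y) && decide (v ∈ L)).length =
        (S ∩ Y.toFinset ∩ L.toFinset).card := by
      rw [← List.toFinset_card_of_nodup (hl.filter _)]
      congr 1
      ext v
      simp [hS]
    have e2 : (l.all fun v => decide (v ∈ Y)) = decide (S ⊆ Y.toFinset) := by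
      rw [Bool.eq_iff_iff]
      simp [hS, subset_iff]
    simp only [evq, e1, e2, g, h]
    by_cases c : S ⊆ Y.toFinset <;> simp [c]
  have hh : ∀ B ⊆ S, h B = ((B ∩ L.toFinset).card : ℕ) - P i B := fun B hB => by
    simp only [h, inter_eq_right.2 hB]
  have hg : ∀ s, SubmAt S s g := by
    intro s X hX Y hY h1 h2
    by_cases c1 : S ⊆ X
    · rw [Subset.antisymm hX c1, inter_eq_right.2 hY, union_eq_left.2 hY, add_comm]
    by_cases c2 : S ⊆ Y
    · rw [Subset.antisymm hY c2, inter_eq_left.2 hX, union_eq_right.2 hX]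
    have c3 : ¬ S ⊆ X ∩ Y := fun c => c1 (c.trans inter_subset_left)
    have a1 : g (X ∪ Y) ≤ h (X ∪ Y) := by
      simp only [g]
      split_ifs
      · exact min_le_left _ _
      · exact le_rfl
    have a2 := hP X hX Y hY ⟨s, mem_inter.2 ⟨h1, h2⟩⟩
    have a3 := card_union_add_card_inter (X ∩ L.toFinset) (Y ∩ L.toFinset)
    rw [← union_inter_distrib_right, ← inter_inter_distrib_right] at a3
    rw [hh _ (union_subset hX hY)] at a1
    simp only [g, if_neg c1, if_neg c2, if_neg c3] at a1 ⊢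
    rw [hh _ hX, hh _ hY, hh _ (inter_subset_left.trans hX)]
    omega
  have hc : g S ≤ 0 - (t : ℕ) := by
    simp only [g, if_pos (Subset.refl S)]
    exact min_le_right _ _
  have hlt : ∀ B ⊆ S, g B < 0 - (t : ℕ) ↔ ¬ P i B ≤ (B ∩ L.toFinset).card + t := by
    intro B hB
    simp only [g, hh B hB]
    split_ifs <;> omega
  simp only [mx, List.all_map, List.all_eq_true, Function.comp_def, Bool.not_eq_true',
    ← Bool.not_eq_true]
  constructor
  · intro H B hB
    rcases B.eq_empty_or_nonempty with rfl | ⟨s, hs⟩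
    · simpa using h0.trans (Nat.cast_nonneg t)
    · by_contra c
      have hs' := List.mem_toFinset.1 (hB hs)
      exact H s hs' ((sfm_spec hl hs' hev (hg s) hc hC hD).2 ⟨B, hB, hs, (hlt B hB).2 c⟩)
  · intro H s hs c
    obtain ⟨B, hB, -, h3⟩ := (sfm_spec hl hs hev (hg s) hc hC hD).1 c
    exact (hlt B hB).1 h3 (H B hB)

theorem value_model : ∃ (next : In × List ℤ → Bool × List ℕ) (out : In × List ℤ → Bool)
    (q : Polynomial ℕ), PolyT.Poly next ∧ PolyT.Poly out ∧
    ∀ (I : Inst ℕ) (n₁ n₂ : ℕ), (∀ i, Inter I.S (I.p i) ∧ Bdd I.S (I.p i) (I.a + I.b)) →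
      0 < n₁ → 0 < n₂ → I.a * n₁ + I.b * n₂ = I.S.card →
      (out ((I.S, I.a, n₁, I.b, n₂), ans next (fun q => I.p q.1 q.2.toFinset)
        (I.S, I.a, n₁, I.b, n₂) (q.eval I.S.card)) = true ↔ Feas I n₁ n₂) := by
  obtain ⟨n, o, q, h1, h2, h3⟩ := max_model
  have hl : PolyT.Poly (fun z : In => z.1.sort (· ≤ ·)) := (PolyT.Poly.id (α := In)).fst
  have cl := Clock.length hl
  obtain ⟨C, c1, c2⟩ := (Clock.const 40002).mul (cl.pow 10)
  obtain ⟨D, d1, d2⟩ := (cl.mul cl).add (Clock.const 1)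
  have k : PolyT.Poly (fun w : In × Qu => w.1) := PolyT.Poly.id.fst
  have h4 := oc_mx (hl.comp k) PolyT.Poly.id.snd (c1.comp k) (d1.comp k)
  have hn := cl.mul (Clock.const (1 + 1))
  obtain ⟨-, n', o', h5, h6, h7⟩ := oc_subst
    (T := fun x : In => (x.1.sort (· ≤ ·)).length * ((D x).length *
      ((1 + 1 + (x.1.sort (· ≤ ·)).length * (1 + 1)) +
        (1 + (C x).length * ((x.1.sort (· ≤ ·)).length * (1 + 1)))))) h4
    (cl.mul ((Clock.length d1).mul (((Clock.const (1 + 1)).add hn).add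
      ((Clock.const 1).add ((Clock.length c1).mul hn))))) (cl.eval q) h1 h2
  refine ⟨n', o', q * (Polynomial.X * ((Polynomial.X * Polynomial.X + 1) *
    ((1 + 1 + Polynomial.X * (1 + 1)) + (1 + (40002 * Polynomial.X ^ 10) *
      (Polynomial.X * (1 + 1)))))), h5, h6, fun I n₁ n₂ hI a1 a2 a3 => ?_⟩
  have h8 := h7 (fun q => I.p q.1 q.2.toFinset) (I.S, I.a, n₁, I.b, n₂)
  simp only [c2, d2, Finset.length_sort] at h8
  simp only [Polynomial.eval_mul, Polynomial.eval_add, Polynomial.eval_X, Polynomial.eval_one,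
    Polynomial.eval_pow, Polynomial.eval_ofNat]
  rw [h8]
  refine h3 I n₁ n₂ _ (fun i => ⟨(hI i).1.skew, (hI i).2⟩) a1 a2 a3 fun i L t => ?_
  have e : (I.S.sort (· ≤ ·)).toFinset = I.S := I.S.sort_toFinset _
  have := mx_spec (P := I.p) (I.S.sort_nodup (· ≤ ·)) i L t (e.symm ▸ (hI i).1)
    (by simpa using ((hI i).2 ∅ (empty_subset _)).1) (c2 (I.S, I.a, n₁, I.b, n₂))
    (d2 (I.S, I.a, n₁, I.b, n₂))
  rwa [e] at this

/-- The function hiding the set `H`. -/
def hid (k : ℕ) (H X : Finset ℕ) : ℤ :=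
  if X = ∅ then 0 else if X ⊆ H ∧ k + 1 ≤ X.card then 2 - (2 * k - X.card) else 2 - X.card

/-- A modular function with its maximum at the pair `4 k, 4 k + 1`. -/
def pin (k : ℕ) (X : Finset ℕ) : ℤ :=
  ((X ∩ {4 * k, 4 * k + 1}).card : ℤ) - (X \ {4 * k, 4 * k + 1}).card

/-- The instance hiding the set `H`. -/
def hard (k : ℕ) (H : Finset ℕ) : Inst ℕ :=
  ⟨range (4 * k + 2), fun i => bif i then pin k else hid k H, 1, 1⟩

lemma hard_ok {k : ℕ} {H : Finset ℕ} (hH : H.card ≤ 2 * k) : (hard k H).Ok := by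
  intro i
  cases i
  · refine ⟨fun X _ Y _ => ?_, fun X _ => ?_⟩
    · change hid k H X + hid k H Y ≤ hid k H (X ∩ Y) + hid k H (X ∪ Y) ∨
        hid k H X + hid k H Y ≤ hid k H (X \ Y) + hid k H (Y \ X)
      by_cases c1 : X ⊆ Y
      · rw [inter_eq_left.2 c1, union_eq_right.2 c1]
        exact Or.inl le_rfl
      by_cases c2 : Y ⊆ X
      · rw [inter_eq_right.2 c2, union_eq_left.2 c2, add_comm]
        exact Or.inl le_rfl
      right
      have n1 : X ≠ ∅ := fun e => c1 (e ▸ empty_subset _)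
      have n2 : Y ≠ ∅ := fun e => c2 (e ▸ empty_subset _)
      have n3 : X \ Y ≠ ∅ := fun e => c1 (sdiff_eq_empty_iff_subset.1 e)
      have n4 : Y \ X ≠ ∅ := fun e => c2 (sdiff_eq_empty_iff_subset.1 e)
      have a1 := card_sdiff_add_card_inter X Y
      have a2 := card_sdiff_add_card_inter Y X
      have a3 := card_union_add_card_inter X Y
      rw [inter_comm] at a2
      have a4 : X ⊆ H → Y ⊆ H → (X ∪ Y).card ≤ 2 * k := fun h h' =>
        (card_le_card (union_subset h h')).trans hH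
      have a5 : X ⊆ H → X \ Y ⊆ H := fun h => sdiff_subset.trans h
      have a6 : Y ⊆ H → Y \ X ⊆ H := fun h => sdiff_subset.trans h
      simp only [hid, if_neg n1, if_neg n2, if_neg n3, if_neg n4]
      by_cases b1 : X ⊆ H <;> by_cases b2 : Y ⊆ H <;> by_cases b3 : X \ Y ⊆ H <;>
        by_cases b4 : Y \ X ⊆ H <;>
        simp only [b1, b2, b3, b4, true_and, false_and, if_false, forall_true_left,
          IsEmpty.forall_iff] at a4 a5 a6 ⊢ <;> (try split_ifs) <;> omega
    · change hid k H X ≤ X.card ∧ hid k H X ≤ ((1 + 1 : ℕ) : ℤ)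
      unfold hid
      split_ifs with c1 c2
      · simp
      · have := (card_le_card c2.1).trans hH
        omega
      · have := card_pos.2 (nonempty_iff_ne_empty.2 c1)
        omega
  · refine ⟨fun X _ Y _ => Or.inl ?_, fun X _ => ?_⟩
    · change pin k X + pin k Y ≤ pin k (X ∩ Y) + pin k (X ∪ Y)
      unfold pin
      generalize ({4 * k, 4 * k + 1} : Finset ℕ) = W
      have a1 := card_union_add_card_inter (X ∩ W) (Y ∩ W)
      have a2 := card_union_add_card_inter (X \ W) (Y \ W)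
      rw [← union_inter_distrib_right, ← inter_inter_distrib_right] at a1
      have a3 : X \ W ∩ (Y \ W) = (X ∩ Y) \ W := by
        ext v
        simp only [mem_inter, mem_sdiff]
        tauto
      rw [← union_sdiff_distrib, a3] at a2
      omega
    · change pin k X ≤ X.card ∧ pin k X ≤ ((1 + 1 : ℕ) : ℤ)
      unfold pin
      have a1 := card_le_card (inter_subset_left : X ∩ {4 * k, 4 * k + 1} ⊆ X)
      have a2 := (card_le_card (inter_subset_right : X ∩ {4 * k, 4 * k + 1} ⊆ _)).trans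
        card_le_two
      omega

lemma hard_sum (k : ℕ) (H : Finset ℕ) :
    (hard k H).a * 1 + (hard k H).b * (4 * k + 1) = (hard k H).S.card := by
  simp only [hard, card_range]
  omega

lemma feas_empty (k : ℕ) : Feas (hard k ∅) 1 (4 * k + 1) := by
  rw [feas_iff (hard_ok (by simp)) one_pos (by omega) (hard_sum k ∅)]
  have h1 : ∀ X, hid k ∅ X ≤ 1 := by
    intro X
    unfold hid
    split_ifs with c1 c2
    · omega
    · exact absurd (subset_empty.1 c2.1) c1
    · have := card_pos.2 (nonempty_iff_ne_empty.2 c1)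
      omega
  refine ⟨{4 * k}, fun i => ⟨by simp [hard], fun X _ => ?_, fun X hX => ?_⟩, by simp [hard]⟩
  · cases i
    · exact (h1 X).trans (by simp [hard])
    · change pin k X ≤ ((X ∩ {4 * k}).card : ℤ) + ((1 : ℕ) : ℤ)
      have a1 : X ∩ {4 * k, 4 * k + 1} ⊆ insert (4 * k + 1) (X ∩ {4 * k}) := fun v => by
        simp only [mem_inter, mem_insert, mem_singleton]
        tauto
      have := (card_le_card a1).trans (card_insert_le _ _)
      unfold pin
      omega
  · cases i
    · exact (h1 X).trans (by simp [hard])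
    · change pin k X ≤ ((X ∩ (range (4 * k + 2) \ {4 * k})).card : ℤ) + ((1 : ℕ) : ℤ)
      have a1 : X ∩ {4 * k, 4 * k + 1} ⊆ insert (4 * k) (X ∩ (range (4 * k + 2) \ {4 * k})) :=
        fun v => by
          simp only [mem_inter, mem_insert, mem_singleton, mem_sdiff, mem_range]
          rintro ⟨h, rfl | rfl⟩
          · exact Or.inl rfl
          · exact Or.inr ⟨h, by omega, by omega⟩
      have := (card_le_card a1).trans (card_insert_le _ _)
      unfold pin
      omega

lemma not_feas {k : ℕ} (hk : 1 ≤ k) {H : Finset ℕ} (hH : H.card = 2 * k)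
    (hH' : H ⊆ range (4 * k)) : ¬ Feas (hard k H) 1 (4 * k + 1) := by
  rw [feas_iff (hard_ok hH.le) one_pos (by omega) (hard_sum k H)]
  rintro ⟨F, h1, h2⟩
  obtain ⟨v, rfl⟩ := card_eq_one.1 h2
  have a1 : hid k H H ≤ ((H ∩ {v}).card : ℤ) + ((1 : ℕ) : ℤ) :=
    (h1 false).2.1 H (hH'.trans (range_subset_range.2 (by omega)))
  have a2 : pin k {4 * k, 4 * k + 1} ≤ ((({4 * k, 4 * k + 1} : Finset ℕ) ∩ {v}).card : ℤ) +
      ((1 : ℕ) : ℤ) := (h1 true).2.1 _ fun w => by
    simp only [hard, mem_insert, mem_singleton, mem_range]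
    omega
  have b1 : H ≠ ∅ := fun e => by
    rw [e, card_empty] at hH
    omega
  rw [hid, if_neg b1, if_pos ⟨Subset.rfl, by omega⟩] at a1
  rw [pin, inter_self, sdiff_self, card_pair (by omega)] at a2
  obtain ⟨x, hx⟩ : (H ∩ {v}).Nonempty := card_pos.1 (by omega)
  obtain ⟨y, hy⟩ : (({4 * k, 4 * k + 1} : Finset ℕ) ∩ {v}).Nonempty := card_pos.1 (by
    simp only [bot_eq_empty, card_empty] at a2
    omega)
  simp only [mem_inter, mem_insert, mem_singleton] at hx hy
  have := mem_range.1 (hH' hx.1)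
  omega

/-- The transversal of the pairs `2 i, 2 i + 1` given by `A`. -/
def trv (k : ℕ) (A : Finset ℕ) : Finset ℕ :=
  (range (2 * k)).image fun i => 2 * i + if i ∈ A then 1 else 0

lemma mem_trv {k : ℕ} {A : Finset ℕ} {v : ℕ} :
    v ∈ trv k A ↔ v / 2 < 2 * k ∧ (v % 2 = 1 ↔ v / 2 ∈ A) := by
  simp only [trv, mem_image, mem_range]
  constructor
  · rintro ⟨i, h1, rfl⟩
    by_cases c : i ∈ A
    · rw [if_pos c, show (2 * i + 1) / 2 = i by omega]
      exact ⟨h1, iff_of_true (by omega) c⟩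
    · rw [if_neg c, show (2 * i + 0) / 2 = i by omega]
      exact ⟨h1, iff_of_false (by omega) c⟩
  · rintro ⟨h1, h2⟩
    refine ⟨v / 2, h1, ?_⟩
    split_ifs with c
    · have := h2.2 c
      omega
    · have := mt h2.1 c
      omega

lemma card_trv (k : ℕ) (A : Finset ℕ) : (trv k A).card = 2 * k := by
  rw [trv, card_image_of_injective _ fun i j h => ?_, card_range]
  split_ifs at h <;> omega

lemma few_hits (k : ℕ) (X : Finset ℕ) :
    ((range (2 * k)).powerset.filter fun A => X ⊆ trv k A ∧ k + 1 ≤ X.card).card ≤ 2 ^ k := by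
  rcases ((range (2 * k)).powerset.filter fun A =>
    X ⊆ trv k A ∧ k + 1 ≤ X.card).eq_empty_or_nonempty with e | ⟨A₀, h₀⟩
  · rw [e, card_empty]
    exact Nat.zero_le _
  obtain ⟨-, h1, h2⟩ := mem_filter.1 h₀
  have c1 : (X.image (· / 2)).card = X.card := card_image_of_injOn fun v hv w hw e => by
    have a1 := (mem_trv.1 (h1 hv)).2
    have a2 := (mem_trv.1 (h1 hw)).2
    rw [e] at a1
    have := a1.trans a2.symm
    omega
  have c2 : X.image (· / 2) ⊆ range (2 * k) := fun i hi => by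
    obtain ⟨v, hv, rfl⟩ := mem_image.1 hi
    exact mem_range.2 (mem_trv.1 (h1 hv)).1
  refine (card_le_card_of_injOn (fun A => A \ X.image (· / 2))
    (t := (range (2 * k) \ X.image (· / 2)).powerset) (fun A hA => ?_) fun A hA B hB e => ?_).trans ?_
  · exact mem_coe.2 (mem_powerset.2 (sdiff_subset_sdiff
      (mem_powerset.1 (mem_filter.1 (mem_coe.1 hA)).1) Subset.rfl))
  · ext i
    by_cases c : i ∈ X.image (· / 2)
    · obtain ⟨v, hv, rfl⟩ := mem_image.1 c
      exact (mem_trv.1 ((mem_filter.1 (mem_coe.1 hA)).2.1 hv)).2.symm.trans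
        (mem_trv.1 ((mem_filter.1 (mem_coe.1 hB)).2.1 hv)).2
    · have := Finset.ext_iff.1 e i
      simpa only [mem_sdiff, c, not_false_eq_true, and_true] using this
  · rw [card_powerset, card_sdiff_of_subset c2, card_range, c1]
    exact Nat.pow_le_pow_right (by norm_num) (by omega)

theorem lower_model (next : In × List ℤ → Bool × List ℕ) (out : In × List ℤ → Bool) {k T : ℕ}
    (hk : 1 ≤ k) (h : ∀ H : Finset ℕ, H.card ≤ 2 * k →
      (out ((range (4 * k + 2), 1, 1, 1, 4 * k + 1),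
        ans next (fun q => (hard k H).p q.1 q.2.toFinset)
          (range (4 * k + 2), 1, 1, 1, 4 * k + 1) T) = true ↔ Feas (hard k H) 1 (4 * k + 1))) :
    2 ^ k ≤ T := by
  by_contra hT
  set x : In := (range (4 * k + 2), 1, 1, 1, 4 * k + 1) with hx
  let O : Finset ℕ → Bool × List ℕ → ℤ := fun H q => (hard k H).p q.1 q.2.toFinset
  let Xs : ℕ → Finset ℕ := fun j => (next (x, ans next (O ∅) x j)).2.toFinset
  have h1 : ((range T).biUnion fun j => (range (2 * k)).powerset.filter fun A =>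
      Xs j ⊆ trv k A ∧ k + 1 ≤ (Xs j).card).card < (range (2 * k)).powerset.card := by
    refine (card_biUnion_le_card_mul _ _ _ fun j _ => few_hits k (Xs j)).trans_lt ?_
    rw [card_range, card_powerset, card_range, two_mul, pow_add]
    exact Nat.mul_lt_mul_of_pos_right (not_le.1 hT) (by positivity)
  obtain ⟨A, hA, hA'⟩ := exists_mem_notMem_of_card_lt_card h1
  have h2 : ∀ j ≤ T, ans next (O (trv k A)) x j = ans next (O ∅) x j := by
    intro j hj
    induction j with
    | zero => rfl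
    | succ j ih =>
      simp only [ans, ih (by omega)]
      congr 2
      have a1 : ¬ (Xs j ⊆ trv k A ∧ k + 1 ≤ (Xs j).card) := fun c =>
        hA' (mem_biUnion.2 ⟨j, mem_range.2 (by omega), mem_filter.2 ⟨hA, c⟩⟩)
      have a2 : ¬ (Xs j ⊆ ∅ ∧ k + 1 ≤ (Xs j).card) := fun c => by
        have := card_le_card c.1
        rw [card_empty] at this
        omega
      change (bif (next (x, ans next (O ∅) x j)).1 then pin k else hid k (trv k A)) (Xs j) =
        (bif (next (x, ans next (O ∅) x j)).1 then pin k else hid k ∅) (Xs j)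
      cases (next (x, ans next (O ∅) x j)).1
      · simp only [cond_false, hid, if_neg a1, if_neg a2]
      · rfl
  refine not_feas hk (card_trv k A) (fun v hv => ?_) ((h _ (card_trv k A).le).1 ?_)
  · have := (mem_trv.1 hv).1
    exact mem_range.2 (by omega)
  · exact (congrArg (fun r => out (x, r)) (h2 T le_rfl)).trans
      ((h ∅ (by simp)).2 (feas_empty k))

end Pool.Agent.MP_1195b1_lc

end MrgPart2

-- marker of a merged file
example : 731051 + 682014 = 731051 + 682014 := rfl
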